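import Pool.Agent.Run7.h587.DistLine
import Pool.Agent.TH300.ZS.Fin

/-!
# Patterns in neighbourhoods of finite sets, by the density Hales-Jewett theorem
-/

set_option autoImplicit false

namespace Pool.Agent.Run7.h587.DHZ

open Finset MeasureTheory Pool.Agent.H602R3.DHJ Pool.Agent.TH300.ZS Pool.Agent.W201

section Atoms

variable {W : Type} [Fintype W]

open Classical in
/-- the random set of the indices -/
noncomputable def rs (A : W → Set ℝ) (t : ℝ) : Finset W := univ.filter fun w => t ∈ A w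

theorem mem_rs (A : W → Set ℝ) (t : ℝ) (w : W) : w ∈ rs A t ↔ t ∈ A w := by
  classical
  simp [rs]

/-- the measure of an atom -/
noncomputable def atom (J : Set ℝ) (A : W → Set ℝ) (E : Finset W) : ℝ :=
  (volume {t : ℝ | t ∈ J ∧ rs A t = E}).toReal

theorem meas_atom {J : Set ℝ} (hJ : MeasurableSet J) {A : W → Set ℝ}
    (hA : ∀ w, MeasurableSet (A w)) (E : Finset W) : MeasurableSet {t : ℝ | t ∈ J ∧ rs A t = E} := by
  classical
  have h : {t : ℝ | t ∈ J ∧ rs A t = E} = J ∩ ⋂ w, {t : ℝ | t ∈ A w ↔ w ∈ E} := by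
    ext t
    simp only [Set.mem_inter_iff, Set.mem_iInter, Set.mem_ofPred_eq, Finset.ext_iff, mem_rs]
  rw [h]
  refine hJ.inter (MeasurableSet.iInter fun w => ?_)
  by_cases hw : w ∈ E
  · simp only [hw, iff_true]
    exact hA w
  · simp only [hw, iff_false]
    exact (hA w).compl

theorem pb_div {X : Type} [Fintype X] (μ : X → ℝ) (Q : X → Prop) (L : ℝ) :
    pb (fun E => μ E / L) Q = pb μ Q / L := by
  classical
  unfold pb
  rw [sum_div]
  refine sum_congr rfl fun E _ => ?_
  split_ifs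
  · rfl
  · rw [zero_div]

theorem pb_atom {J : Set ℝ} (hJ : MeasurableSet J) (hJf : volume J ≠ ⊤) {A : W → Set ℝ}
    (hA : ∀ w, MeasurableSet (A w)) (Q : Finset W → Prop) :
    pb (atom J A) Q = (volume {t : ℝ | t ∈ J ∧ Q (rs A t)}).toReal := by
  classical
  have h : {t : ℝ | t ∈ J ∧ Q (rs A t)} =
      ⋃ E ∈ univ.filter (fun E => Q E), {t : ℝ | t ∈ J ∧ rs A t = E} := by
    ext t
    simp only [Set.mem_ofPred_eq, Set.mem_iUnion, mem_filter, mem_univ, true_and]
    constructor
    · rintro ⟨h1, h2⟩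
      exact ⟨_, h2, h1, rfl⟩
    · rintro ⟨E, h2, h1, rfl⟩
      exact ⟨h1, h2⟩
  rw [h, measure_biUnion_finset]
  · rw [ENNReal.toReal_sum]
    · unfold pb
      rw [sum_filter]
      refine sum_congr rfl fun E _ => ?_
      by_cases h : Q E
      · rw [if_pos h, if_pos h]
        rfl
      · rw [if_neg h, if_neg h]
    · intro E _
      exact ne_top_of_le_ne_top hJf (measure_mono fun t ht => ht.1)
  · intro E _ E' _ hE
    refine Set.disjoint_left.2 fun t h1 h2 => hE ?_
    rw [← h1.2, h2.2]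
  · exact fun E _ => meas_atom hJ hA E

end Atoms

open Classical in
/-- the points of `S` which are the first points of families `(g_a)` of points of `S` such that the
numbers `g_a + b_a` are pairwise at distance less than `w` -/
noncomputable def bs {k : ℕ} (S : Finset ℝ) (b : Fin (k + 1) → ℝ) (w : ℝ) : Finset ℝ :=
  S.filter fun x => ∃ g : Fin (k + 1) → ℝ, g 0 = x ∧ (∀ a, g a ∈ S) ∧
    ∀ a a', |g a + b a - (g a' + b a')| < w

theorem bs_shift {k : ℕ} (S : Finset ℝ) (b : Fin (k + 1) → ℝ) (w C : ℝ) :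
    bs S (fun i => b i + C) w = bs S b w := by
  classical
  unfold bs
  ext x
  simp only [mem_filter]
  refine and_congr_right fun _ => exists_congr fun g => and_congr_right fun _ =>
    and_congr_right fun _ => forall_congr' fun i => forall_congr' fun j => ?_
  rw [show g i + (b i + C) - (g j + (b j + C)) = g i + b i - (g j + b j) by ring]

theorem bs_vol {k : ℕ} {S : Finset ℝ} (b : Fin (k + 1) → ℝ) {w : ℝ} (hw : 0 < w) (J : Set ℝ) :
    (volume {t : ℝ | t ∈ J ∧ ∀ a, t ∈ tr (UU (w / 2) S) (b a)}).toReal ≤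
      w * (bs S b w).card := by
  classical
  have hsub : {t : ℝ | t ∈ J ∧ ∀ a, t ∈ tr (UU (w / 2) S) (b a)} ⊆
      ⋃ x ∈ bs S b w, Set.Ioo (x + b 0 - w / 2) (x + b 0 + w / 2) := by
    rintro t ⟨-, ht⟩
    have h1 : ∀ a, ∃ x ∈ S, |t - (x + b a)| < w / 2 := by
      intro a
      obtain ⟨x, hx, h1, h2⟩ := ht a
      refine ⟨x, hx, ?_⟩
      rw [abs_lt]
      constructor <;> linarith
    choose g hg hgt using h1
    rw [Set.mem_iUnion₂]
    refine ⟨g 0, ?_, ?_⟩
    · unfold bs
      rw [mem_filter]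
      refine ⟨hg 0, g, rfl, hg, fun a a' => ?_⟩
      have h1 := abs_lt.mp (hgt a)
      have h2 := abs_lt.mp (hgt a')
      rw [abs_lt]
      constructor <;> linarith [h1.1, h1.2, h2.1, h2.2]
    · have h1 := abs_lt.mp (hgt 0)
      exact ⟨by linarith [h1.2], by linarith [h1.1]⟩
  have h2 : volume {t : ℝ | t ∈ J ∧ ∀ a, t ∈ tr (UU (w / 2) S) (b a)} ≤
      ENNReal.ofReal (w * (bs S b w).card) := by
    refine (measure_mono hsub).trans ((measure_biUnion_finset_le _ _).trans ?_)
    simp_rw [Real.volume_Ioo]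
    have h3 : ∀ x ∈ bs S b w, ENNReal.ofReal (x + b 0 + w / 2 - (x + b 0 - w / 2)) =
        ENNReal.ofReal w := by
      intro x _
      congr 1
      ring
    rw [Finset.sum_congr rfl h3, Finset.sum_const, nsmul_eq_mul, mul_comm w,
      ENNReal.ofReal_mul (Nat.cast_nonneg _), ENNReal.ofReal_natCast]
  exact ENNReal.toReal_le_of_le_ofReal (by positivity) h2

/-- Patterns in the neighbourhoods of finite sets. -/
theorem main (k s : ℕ) {δ : ℝ} (hδ : 0 < δ) : ∃ (N : ℕ) (c : ℝ), 0 < c ∧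
    ∀ (S : Fin s → Finset ℝ) (A H w : ℝ), 0 < H → 0 < w → w ≤ H →
    (∀ i, ∀ x ∈ S i, A ≤ x ∧ x ≤ A + H) →
    (∀ i, δ * H ≤ (volume (UU (w / 2) (S i))).toReal) →
    ∀ v : Fin N → Fin (k + 1) → ℝ, (∀ j a, N * |v j a| ≤ H) →
    ∃ J : Finset (Fin N), J.Nonempty ∧ ∀ i, c * (H / w) ≤
      ((bs (S i) (fun a => -∑ j ∈ J, v j a) w).card : ℝ) := by
  classical
  obtain ⟨N, c, hc, h⟩ := dist_line k s (δ := δ / 4) (by positivity)
  refine ⟨N, c, hc, fun S A H w hH hw hwH hS hU v hv => ?_⟩
  -- the shifts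
  set b : (Fin N → Fin (k + 1)) → ℝ := fun u => H - ∑ j, v j (u j) with hb
  have hb0 : ∀ u, 0 ≤ b u ∧ b u ≤ 2 * H := by
    intro u
    have h1 : |∑ j, v j (u j)| ≤ H := by
      rcases Nat.eq_zero_or_pos N with hN | hN
      · subst hN
        simp
        exact hH.le
      · have hN' : (0 : ℝ) < N := by exact_mod_cast hN
        calc |∑ j, v j (u j)| ≤ ∑ j, |v j (u j)| := abs_sum_le_sum_abs _ _
          _ ≤ ∑ _j : Fin N, H / N := sum_le_sum fun j _ => by
              rw [le_div_iff₀ hN', mul_comm]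
              exact hv j _
          _ = H := by
              rw [sum_const, card_univ, Fintype.card_fin, nsmul_eq_mul]
              field_simp
    have h2 := abs_le.1 h1
    constructor
    · show 0 ≤ H - ∑ j, v j (u j)
      linarith [h2.2]
    · show H - ∑ j, v j (u j) ≤ 2 * H
      linarith [h2.1]
  set I : Set ℝ := Set.Ioo (A - w / 2) (A + 3 * H + w / 2) with hI
  have hIm : MeasurableSet I := measurableSet_Ioo
  have hIv : volume I = ENNReal.ofReal (3 * H + w) := by
    rw [hI, Real.volume_Ioo]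
    congr 1
    ring
  have hIf : volume I ≠ ⊤ := by rw [hIv]; exact ENNReal.ofReal_ne_top
  have hIr : (volume I).toReal = 3 * H + w := by
    rw [hIv, ENNReal.toReal_ofReal (by positivity)]
  set L : ℝ := 3 * H + w with hL
  have hL0 : 0 < L := by positivity
  have hL4 : L ≤ 4 * H := by rw [hL]; linarith
  have hLH : H ≤ L := by rw [hL]; linarith
  set B : Fin s → (Fin N → Fin (k + 1)) → Set ℝ := fun i u => tr (UU (w / 2) (S i)) (b u) with hB
  have hBm : ∀ i u, MeasurableSet (B i u) := fun i u =>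
    tr_meas (UU_open _ _).measurableSet _
  have hBI : ∀ i u, B i u ⊆ I := by
    intro i u
    refine (UU_int (hS i) (b u)).trans (Set.Ioo_subset_Ioo ?_ ?_)
    · linarith [(hb0 u).1]
    · linarith [(hb0 u).2]
  have hBv : ∀ i u, δ * H ≤ (volume (B i u)).toReal := by
    intro i u
    rw [hB]
    simp only
    rw [tr_vol]
    exact hU i
  obtain ⟨V, hV, hVc⟩ := h (fun i E => atom I (B i) E / L)
    (fun i E => div_nonneg ENNReal.toReal_nonneg hL0.le)
    (fun i => by
      rw [← sum_div, div_eq_one_iff_eq hL0.ne']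
      have h1 := pb_atom hIm hIf (hBm i) (fun _ => True)
      unfold pb at h1
      simp only [if_true, and_true] at h1
      rw [h1]
      exact hIr)
    (fun i u => by
      rw [pb_div, pb_atom hIm hIf (hBm i), le_div_iff₀ hL0]
      have e : {t : ℝ | t ∈ I ∧ u ∈ rs (B i) t} = B i u := by
        ext t
        simp only [Set.mem_ofPred_eq, mem_rs]
        exact ⟨fun h => h.2, fun h => ⟨hBI i u h, h⟩⟩
      rw [e]
      refine le_trans ?_ (hBv i u)
      nlinarith)
  refine ⟨univ.filter (fun j => V j = Sum.inr ()), ?_, fun i => ?_⟩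
  · obtain ⟨j, hj⟩ := hV ()
    exact ⟨j, mem_filter.2 ⟨mem_univ _, hj⟩⟩
  · obtain ⟨s₀, hs₀⟩ := sum_line V v
    have h1 := hVc i
    rw [pb_div, pb_atom hIm hIf (hBm i), le_div_iff₀ hL0] at h1
    have h2 := bs_vol (S := S i) (fun a : Fin (k + 1) => b (ap V (fun _ => a))) hw I
    have e : {t : ℝ | t ∈ I ∧ ∀ a, ap V (fun _ => a) ∈ rs (B i) t} =
        {t : ℝ | t ∈ I ∧ ∀ a, t ∈ tr (UU (w / 2) (S i)) (b (ap V (fun _ => a)))} := by
      ext t
      simp only [Set.mem_ofPred_eq, mem_rs]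
      rfl
    rw [e] at h1
    have e2 : (fun a : Fin (k + 1) => b (ap V (fun _ => a))) =
        fun a => (-∑ j ∈ univ.filter (fun j => V j = Sum.inr ()), v j a) + (H - s₀) := by
      funext a
      show H - ∑ j, v j (ap V (fun _ => a) j) = _
      rw [hs₀ a]
      ring
    rw [e2, bs_shift] at h2
    have h3 := h1.trans h2
    rw [mul_div_assoc', div_le_iff₀ hw]
    have h4 : c * H ≤ c * L := mul_le_mul_of_nonneg_left hLH hc.le
    linarith

end Pool.Agent.Run7.h587.DHZ
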