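import Mathlib

/-! # Windows with few blocks contain long periods (the theorem of Morse and Hedlund, finite form)

Also: the basis matrices along a window in which the code has period `q` are powers. -/

set_option autoImplicit false

namespace Pool.Agent.Run7.h587

/-- the block of length `n` of `W` at `m` -/
def blk {α : Type*} (W : ℤ → α) (n : ℕ) (m : ℤ) : Fin n → α := fun j => W (m + (j : ℕ))

lemma blk_eq {α : Type*} {W : ℤ → α} {n : ℕ} {m m' : ℤ} :
    blk W n m = blk W n m' ↔ ∀ j : ℕ, j < n → W (m + j) = W (m' + j) := by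
  constructor
  · intro h j hj
    exact congrFun h ⟨j, hj⟩
  · intro h
    funext j
    exact h j j.2

/-- the blocks of length `j` at the positions `m₀ ≤ m ≤ m₀ + L` -/
noncomputable def blks {α : Type*} (W : ℤ → α) (m₀ : ℤ) (L : ℕ) (j : ℕ) : Set (Fin j → α) :=
  blk W j '' Set.Icc m₀ (m₀ + L)

lemma blks_finite {α : Type*} (W : ℤ → α) (m₀ : ℤ) (L j : ℕ) : (blks W m₀ L j).Finite :=
  (Set.finite_Icc _ _).image _

lemma blks_image {α : Type*} (W : ℤ → α) (m₀ : ℤ) (L j : ℕ) :
    (fun B : Fin (j + 1) → α => fun i : Fin j => B i.castSucc) '' blks W m₀ L (j + 1) =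
      blks W m₀ L j := by
  unfold blks
  rw [Set.image_image]
  rfl

/-- **Morse and Hedlund.** If at the positions `m₀ ≤ m ≤ m₀ + L`, `n ≤ L`, there are at most `n`
blocks of length `n`, then a period `q ≤ n` holds in the window from some `m ≤ m₀ + n` on. -/
theorem morse_hedlund {α : Type*} (W : ℤ → α) (m₀ : ℤ) (L n : ℕ) (hnL : n ≤ L)
    (h : (blks W m₀ L n).ncard ≤ n) :
    ∃ (q : ℕ) (m : ℤ), 0 < q ∧ q ≤ n ∧ m₀ ≤ m ∧ m ≤ m₀ + n ∧
      ∀ t : ℤ, m ≤ t → t + q ≤ m₀ + L → W t = W (t + q) := by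
  classical
  -- a length `j < n` with `|blks (j + 1)| = |blks j|`
  obtain ⟨j, hjn, hj⟩ : ∃ j, j < n ∧ (blks W m₀ L (j + 1)).ncard ≤ (blks W m₀ L j).ncard := by
    by_contra hcon
    push Not at hcon
    have h1 : ∀ j, j ≤ n → j + 1 ≤ (blks W m₀ L j).ncard := by
      intro j
      induction j with
      | zero =>
        intro _
        have : (blks W m₀ L 0).Nonempty := ⟨blk W 0 m₀, m₀, by simp, rfl⟩
        have := (Set.ncard_pos (blks_finite W m₀ L 0)).2 this
        omega
      | succ j ih =>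
        intro hj
        have h2 := ih (by omega)
        have h3 := hcon j (by omega)
        omega
    have h2 := h1 n le_rfl
    omega
  -- equal blocks of length `j` have the same continuation
  have hdet : ∀ m m' : ℤ, m₀ ≤ m → m ≤ m₀ + L → m₀ ≤ m' → m' ≤ m₀ + L →
      blk W j m = blk W j m' → blk W (j + 1) m = blk W (j + 1) m' := by
    intro m m' h1 h2 h3 h4 h5
    have hinj : Set.InjOn (fun B : Fin (j + 1) → α => fun i : Fin j => B i.castSucc)
        (blks W m₀ L (j + 1)) := by
      refine Set.injOn_of_ncard_image_eq ?_ (blks_finite W m₀ L (j + 1))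
      rw [blks_image]
      refine le_antisymm ?_ hj
      rw [← blks_image]
      exact Set.ncard_image_le (blks_finite W m₀ L (j + 1))
    exact hinj ⟨m, ⟨h1, h2⟩, rfl⟩ ⟨m', ⟨h3, h4⟩, rfl⟩ h5
  -- two of the first `n + 1` positions
  have hcard : (blks W m₀ L j).ncard ≤ n := by
    have h1 : ∀ i, j + i ≤ n → (blks W m₀ L j).ncard ≤ (blks W m₀ L (j + i)).ncard := by
      intro i
      induction i with
      | zero => intro _; exact le_rfl
      | succ i ih =>
        intro hi
        refine (ih (by omega)).trans ?_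
        have h2 := Set.ncard_image_le (blks_finite W m₀ L (j + i + 1))
          (f := fun B : Fin (j + i + 1) → α => fun i' : Fin (j + i) => B i'.castSucc)
        rw [blks_image] at h2
        exact h2
    have h2 := h1 (n - j) (by omega)
    rw [Nat.add_sub_cancel' hjn.le] at h2
    exact h2.trans h
  obtain ⟨x, hx, y, hy, hxy, hb⟩ : ∃ x ∈ Finset.range (n + 1), ∃ y ∈ Finset.range (n + 1), x ≠ y ∧
      blk W j (m₀ + x) = blk W j (m₀ + y) := by
    have hmaps : ∀ x ∈ Finset.range (n + 1),
        blk W j (m₀ + (x : ℕ)) ∈ (blks_finite W m₀ L j).toFinset := by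
      intro x hx
      rw [Set.Finite.mem_toFinset]
      refine ⟨m₀ + x, ⟨by omega, ?_⟩, rfl⟩
      have := Finset.mem_range.1 hx
      omega
    have hlt : (blks_finite W m₀ L j).toFinset.card < (Finset.range (n + 1)).card := by
      rw [Finset.card_range, ← Set.ncard_eq_toFinset_card _ (blks_finite W m₀ L j)]
      omega
    exact Finset.exists_ne_map_eq_of_card_lt_of_maps_to hlt hmaps
  wlog hlt : x < y generalizing x y
  · exact this y hy x hx hxy.symm hb.symm (by omega)
  have hxn := Finset.mem_range.1 hx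
  have hyn := Finset.mem_range.1 hy
  refine ⟨y - x, m₀ + x, by omega, by omega, by omega, by omega, ?_⟩
  -- the blocks agree as long as the positions are in the window
  have key : ∀ i : ℕ, (y : ℤ) + i ≤ L → blk W j (m₀ + x + i) = blk W j (m₀ + y + i) := by
    intro i
    induction i with
    | zero => intro _; simpa using hb
    | succ i ih =>
      intro hi
      have h1 := ih (by push_cast at hi ⊢; omega)
      have h2 := hdet _ _ (by omega) (by push_cast at hi ⊢; omega) (by omega)
        (by push_cast at hi ⊢; omega) h1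
      rw [blk_eq] at h2 ⊢
      intro t ht
      have h3 := h2 (t + 1) (by omega)
      have e1 : m₀ + (x : ℤ) + ((i + 1 : ℕ) : ℤ) + (t : ℤ) = m₀ + x + i + ((t + 1 : ℕ) : ℤ) := by
        push_cast; ring
      have e2 : m₀ + (y : ℤ) + ((i + 1 : ℕ) : ℤ) + (t : ℤ) = m₀ + y + i + ((t + 1 : ℕ) : ℤ) := by
        push_cast; ring
      rw [e1, e2]
      exact h3
  intro t ht htL
  have hq : ((y - x : ℕ) : ℤ) = (y : ℤ) - x := by
    push_cast [Nat.cast_sub hlt.le]
    ring
  rw [hq] at htL ⊢
  obtain ⟨i, hi⟩ : ∃ i : ℕ, t = m₀ + x + i := ⟨(t - m₀ - x).toNat, by omega⟩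
  have h1 := key i (by omega)
  have h2 := hdet (m₀ + x + i) (m₀ + y + i) (by omega) (by omega) (by omega) (by omega) h1
  rw [blk_eq] at h2
  have h3 := h2 0 (by omega)
  simp only [Nat.cast_zero, add_zero] at h3
  rw [hi, h3]
  congr 1
  ring

/-- along a window with period `q` of the code the elements are powers -/
theorem powers_of_period {G : Type*} [Group G] (V : ℤ → G) (m₀ : ℤ) (N q : ℕ)
    (hper : ∀ m : ℤ, m₀ ≤ m → m + q < m₀ + N →
      (V m)⁻¹ * V (m + 1) = (V (m + q))⁻¹ * V (m + q + 1)) :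
    ∀ j : ℕ, j * q ≤ N → V (m₀ + j * q) = V m₀ * ((V m₀)⁻¹ * V (m₀ + q)) ^ j := by
  have h1 : ∀ i : ℕ, i + q ≤ N →
      (V m₀)⁻¹ * V (m₀ + i + q) = ((V m₀)⁻¹ * V (m₀ + q)) * ((V m₀)⁻¹ * V (m₀ + i)) := by
    intro i
    induction i with
    | zero => intro _; simp
    | succ i ih =>
      intro hi
      have h2 := ih (by omega)
      have h3 := hper (m₀ + i) (by omega) (by push_cast; omega)
      have e1 : m₀ + ((i + 1 : ℕ) : ℤ) + q = m₀ + i + q + 1 := by push_cast; ring
      have e2 : m₀ + ((i + 1 : ℕ) : ℤ) = m₀ + i + 1 := by push_cast; ring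
      rw [e1, e2]
      calc (V m₀)⁻¹ * V (m₀ + i + q + 1)
          = ((V m₀)⁻¹ * V (m₀ + i + q)) * ((V (m₀ + i + q))⁻¹ * V (m₀ + i + q + 1)) := by group
        _ = ((V m₀)⁻¹ * V (m₀ + i + q)) * ((V (m₀ + i))⁻¹ * V (m₀ + i + 1)) := by rw [h3]
        _ = _ := by
          rw [h2]
          group
  intro j
  induction j with
  | zero => intro _; simp
  | succ j ih =>
    intro hj
    have hj' : (j + 1) * q = j * q + q := by ring
    have h2 := ih (by omega)
    have h3 := h1 (j * q) (by omega)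
    have e1 : m₀ + ((j + 1 : ℕ) : ℤ) * q = m₀ + ((j * q : ℕ) : ℤ) + q := by push_cast; ring
    have e2 : m₀ + ((j * q : ℕ) : ℤ) = m₀ + (j : ℤ) * q := by push_cast; ring
    rw [e1]
    rw [e2, h2] at h3
    have h4 : V (m₀ + (j : ℤ) * q + q) = V m₀ * ((V m₀)⁻¹ * V (m₀ + j * q + q)) := by group
    rw [e2, h4, h3, pow_succ']
    group

end Pool.Agent.Run7.h587
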