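import Mathlib

set_option autoImplicit false

open MvPolynomial

namespace Run7.h587

section proj

variable {K : Type*} [Field K]

theorem eval_smul_of_homog {F : MvPolynomial (Fin 4) K} {n : ℕ} (hF : F.IsHomogeneous n)
    (a : K) (y : Fin 4 → K) : eval (a • y) F = a ^ n * eval y F := by
  rw [eval_eq, eval_eq, Finset.mul_sum]
  apply Finset.sum_congr rfl
  intro d hd
  have hdeg : ∑ i : Fin 4, d i = n := by
    have h1 := hF (mem_support_iff.mp hd)
    rw [← h1, Finsupp.weight_apply, Finsupp.sum_fintype _ _ (by simp)]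
    simp
  simp only [Pi.smul_apply, smul_eq_mul, mul_pow, Finset.prod_mul_distrib]
  rw [Finset.prod_pow_eq_pow_sum]
  have : ∑ i ∈ d.support, d i = n := by
    rw [← hdeg]
    apply Finset.sum_subset (Finset.subset_univ _)
    intro i _ hi
    exact Finsupp.notMem_support_iff.mp hi
  rw [this]; ring

/-- An infinite set of zeros with one fixed nonzero coordinate gives infinitely many points. -/
theorem pts_infinite {F : MvPolynomial (Fin 4) K} {n : ℕ} (hF : F.IsHomogeneous n)
    {S : Set (Fin 4 → K)} (hS : S.Infinite) (i : Fin 4) {t : K} (ht : t ≠ 0)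
    (h : ∀ y ∈ S, y i = t ∧ eval y F = 0) :
    {p : Projectivization K (Fin 4 → K) | eval p.rep F = 0}.Infinite := by
  have hne : ∀ y ∈ S, y ≠ 0 := by
    rintro y hy rfl
    exact ht (h _ hy).1.symm
  let g : S → Projectivization K (Fin 4 → K) := fun y => Projectivization.mk K y.1 (hne y.1 y.2)
  have hinj : Function.Injective g := by
    rintro ⟨y, hy⟩ ⟨y', hy'⟩ e
    obtain ⟨a, ha⟩ := (Projectivization.mk_eq_mk_iff' K y y' _ _).mp e
    have h1 := congrFun ha i
    rw [Pi.smul_apply, smul_eq_mul, (h y hy).1, (h y' hy').1] at h1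
    have h2 : a = 1 := mul_right_cancel₀ ht (by rw [h1, one_mul])
    rw [h2, one_smul] at ha
    exact Subtype.ext ha.symm
  have : Infinite S := hS.to_subtype
  refine (Set.infinite_range_of_injective hinj).mono ?_
  rintro _ ⟨⟨y, hy⟩, rfl⟩
  obtain ⟨a, ha⟩ := Projectivization.exists_smul_eq_mk_rep K y (hne y hy)
  show eval (Projectivization.mk K y (hne y hy)).rep F = 0
  rw [← ha]
  have : ((a : Kˣ) • y : Fin 4 → K) = (a : K) • y := rfl
  rw [this, eval_smul_of_homog hF, (h y hy).2, mul_zero]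

theorem exists_vec {F : MvPolynomial (Fin 4) K}
    (h : ¬ {p : Projectivization K (Fin 4 → K) | eval p.rep F = 0} = ∅) :
    ∃ y : Fin 4 → K, y ≠ 0 ∧ eval y F = 0 := by
  obtain ⟨p, hp⟩ := Set.nonempty_iff_ne_empty.mpr h
  exact ⟨p.rep, p.rep_nonzero, hp⟩

/-- The diagonal quartic form. -/
noncomputable def diagQ (a0 a1 a2 a3 : K) : MvPolynomial (Fin 4) K :=
  C a0 * X 0 ^ 4 + C a1 * X 1 ^ 4 + C a2 * X 2 ^ 4 + C a3 * X 3 ^ 4

theorem diagQ_homog (a0 a1 a2 a3 : K) : (diagQ a0 a1 a2 a3).IsHomogeneous 4 := by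
  have h : ∀ (a : K) (i : Fin 4), (C a * X i ^ 4 : MvPolynomial (Fin 4) K).IsHomogeneous 4 := by
    intro a i
    have := (isHomogeneous_C (Fin 4) a).mul ((isHomogeneous_X K i).pow 4)
    simpa using this
  exact (((h a0 0).add (h a1 1)).add (h a2 2)).add (h a3 3)

theorem eval_diagQ (a0 a1 a2 a3 : K) (y : Fin 4 → K) : eval y (diagQ a0 a1 a2 a3) =
    a0 * y 0 ^ 4 + a1 * y 1 ^ 4 + a2 * y 2 ^ 4 + a3 * y 3 ^ 4 := by
  simp [diagQ]

/-- `F` is a nonzero quartic form and the surface `F = 0` is nonsingular over the algebraic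
closure. -/
def SmoothQuartic (F : MvPolynomial (Fin 4) K) : Prop :=
  F.IsHomogeneous 4 ∧ F ≠ 0 ∧
    ∀ x : Fin 4 → AlgebraicClosure K, x ≠ 0 →
        ¬ (MvPolynomial.aeval x F = 0 ∧
            ∀ i : Fin 4, MvPolynomial.aeval x (MvPolynomial.pderiv i F) = 0)

theorem diagQ_smooth [CharZero K] {a0 a1 a2 a3 : K} (h0 : a0 ≠ 0) (h1 : a1 ≠ 0) (h2 : a2 ≠ 0)
    (h3 : a3 ≠ 0) : SmoothQuartic (diagQ a0 a1 a2 a3) := by
  refine ⟨diagQ_homog _ _ _ _, ?_, ?_⟩
  · intro h
    have := congrArg (eval ![1, 0, 0, 0]) h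
    rw [eval_diagQ] at this
    simp at this
    exact h0 this
  · rintro x hx ⟨-, h⟩
    apply hx
    have hinj : Function.Injective (algebraMap K (AlgebraicClosure K)) :=
      (algebraMap K (AlgebraicClosure K)).injective
    have e0 := h 0
    have e1 := h 1
    have e2 := h 2
    have e3 := h 3
    simp [diagQ, pderiv_X, Derivation.leibniz, Derivation.leibniz_pow] at e0 e1 e2 e3
    ext i
    fin_cases i
    · simpa [h0] using e0
    · simpa [h1] using e1
    · simpa [h2] using e2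
    · simpa [h3] using e3

end proj

end Run7.h587
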