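import Pool.Agent.Run7.h587.Tri

set_option autoImplicit false

namespace Run7.h587

variable {K : Type*} [Field K] {f : AbsoluteValue K ℝ}

/-- an absolute value which looks like the one of `ℚ₂`: uniformiser `2`, two residue classes -/
structure TwoLike (f : AbsoluteValue K ℝ) : Prop where
  na : IsNonarchimedean f
  lt : f 2 < 1
  pos : (2 : K) ≠ 0
  unif : ∀ x, f x ≤ 1 → f x ≤ f 2 ∨ f (x - 1) ≤ f 2

theorem TwoLike.small (h : TwoLike f) {x : K} (hx : f x < 1) : f x ≤ f 2 := by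
  rcases h.unif x hx.le with h1 | h1
  · exact h1
  · exfalso
    have e : (1 : K) = x - (x - 1) := by ring
    have : f 1 < 1 := by
      rw [e]
      exact na_sub_lt h.na hx (lt_of_le_of_lt h1 h.lt)
    rw [map_one] at this
    exact lt_irrefl _ this

theorem TwoLike.unit (h : TwoLike f) {x : K} (hx : f x = 1) : f (x - 1) ≤ f 2 := by
  rcases h.unif x hx.le with h1 | h1
  · exfalso
    rw [hx] at h1
    exact absurd h.lt (not_lt.mpr h1)
  · exact h1

theorem TwoLike.sq_unit (h : TwoLike f) {x : K} (hx : f x = 1) : f (x ^ 2 - 1) ≤ f 2 ^ 3 := by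
  have p2 : 0 < f 2 := f.pos h.pos
  -- `x = 1 + 2 t`
  set t := (x - 1) / 2 with ht
  have ex : x = 1 + 2 * t := by rw [ht]; field_simp [h.pos]; ring
  have ht1 : f t ≤ 1 := by
    rw [ht, map_div₀, div_le_one p2]; exact h.unit hx
  have e : x ^ 2 - 1 = 2 * 2 * (t * (t + 1)) := by rw [ex]; ring
  have key : f (t * (t + 1)) ≤ f 2 := by
    rw [map_mul]
    rcases h.unif t ht1 with h1 | h1
    · have h3 : f (t + 1) ≤ 1 := na_add_le h.na ht1 (by rw [map_one])
      calc f t * f (t + 1) ≤ f 2 * 1 := mul_le_mul h1 h3 (f.nonneg _) p2.le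
        _ = f 2 := mul_one _
    · have h3 : f (t + 1) ≤ f 2 := by
        have e3 : t + 1 = (t - 1) + 2 := by ring
        rw [e3]
        exact na_add_le h.na h1 le_rfl
      calc f t * f (t + 1) ≤ 1 * f 2 := mul_le_mul ht1 h3 (f.nonneg _) zero_le_one
        _ = f 2 := one_mul _
  rw [e, map_mul, map_mul]
  calc f 2 * f 2 * f (t * (t + 1)) ≤ f 2 * f 2 * f 2 := by
        apply mul_le_mul_of_nonneg_left key; positivity
    _ = f 2 ^ 3 := by ring

/-- `r - 1/r` -/
def Rm (r : K) : K := r - r⁻¹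

/-- `r + 1/r` -/
def Rp (r : K) : K := r + r⁻¹

theorem Rm_inv (r : K) : Rm r⁻¹ = - Rm r := by unfold Rm; rw [inv_inv]; ring

theorem Rp_inv (r : K) : Rp r⁻¹ = Rp r := by unfold Rp; rw [inv_inv]; ring

theorem Rm_ne {r : K} (hr : r ≠ 0) (h1 : r ^ 2 ≠ 1) : Rm r ≠ 0 := by
  intro h
  apply h1
  unfold Rm at h
  field_simp at h
  linear_combination h

theorem TwoLike.Rm_unit (h : TwoLike f) {r : K} (hr : f r = 1) : f (Rm r) ≤ f 2 ^ 3 := by
  have hr0 : r ≠ 0 := by
    rintro rfl; rw [map_zero] at hr; exact zero_ne_one hr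
  have e : Rm r = (r ^ 2 - 1) / r := by unfold Rm; field_simp
  rw [e, map_div₀, hr, div_one]
  exact h.sq_unit hr

theorem TwoLike.Rp_unit (h : TwoLike f) {r : K} (hr : f r = 1) : f (Rp r) = f 2 := by
  have hr0 : r ≠ 0 := by
    rintro rfl; rw [map_zero] at hr; exact zero_ne_one hr
  have p2 : 0 < f 2 := f.pos h.pos
  have e : Rp r = (2 + (r ^ 2 - 1)) / r := by unfold Rp; field_simp; ring
  rw [e, map_div₀, hr, div_one, na_add_eq h.na]
  refine lt_of_le_of_lt (h.sq_unit hr) ?_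
  have h2 := h.lt
  have : f 2 ^ 2 < 1 := by nlinarith
  calc f 2 ^ 3 = f 2 ^ 2 * f 2 := by ring
    _ < 1 * f 2 := mul_lt_mul_of_pos_right this p2
    _ = f 2 := one_mul _

theorem R_big (hf : IsNonarchimedean f) {r : K} (hr : 1 < f r) :
    f (Rm r) = f r ∧ f (Rp r) = f r := by
  have hinv : f r⁻¹ < f r := by
    rw [map_inv₀]
    exact (inv_lt_one_of_one_lt₀ hr).trans hr
  exact ⟨na_sub_eq hf hinv, na_add_eq hf hinv⟩

theorem R_nonunit (hf : IsNonarchimedean f) {r : K} (hr0 : r ≠ 0) (hr : f r ≠ 1) :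
    f (Rm r) = f (Rp r) ∧ 1 < f (Rp r) := by
  rcases lt_or_gt_of_ne hr with h | h
  · have h' : 1 < f r⁻¹ := by
      rw [map_inv₀]
      exact (one_lt_inv₀ (f.pos hr0)).mpr h
    obtain ⟨h1, h2⟩ := R_big hf h'
    rw [Rm_inv, f.map_neg] at h1
    rw [Rp_inv] at h2
    rw [h1, h2]
    exact ⟨rfl, h'⟩
  · obtain ⟨h1, h2⟩ := R_big hf h
    rw [h1, h2]
    exact ⟨rfl, h⟩

theorem good_of_min (hf : IsNonarchimedean f) (h2 : f 2 < 1) (h20 : (2 : K) ≠ 0) {α β γ : K}
    (hα : α ≠ 0) (h1 : f α < f β) (h3 : f α < f γ) : Good f α β γ := by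
  rcases le_total (f β) (f γ) with h | h
  · exact good_of_lt hf h2 h20 hα h1 h
  · exact (good_of_lt hf h2 h20 hα h3 h).swap23

theorem TwoLike.good_all_eq (h : TwoLike f) {α β γ : K} (hα : α ≠ 0) (h1 : f α = f β)
    (h3 : f β = f γ) : Good f α β γ := by
  have p2 : 0 < f 2 := f.pos h.pos
  have pα : 0 < f α := f.pos hα
  apply good_of_eq h.na h.lt h.pos hα h1 h3
  have hb : f (β / α) = 1 := by rw [map_div₀, ← h1, div_self pα.ne']
  have hc : f (γ / α) = 1 := by rw [map_div₀, ← h3, ← h1, div_self pα.ne']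
  have e : α ^ 2 * β ^ 2 + α ^ 2 * γ ^ 2 - β ^ 2 * γ ^ 2 =
      α ^ 4 * (1 - ((β / α) ^ 2 - 1) * ((γ / α) ^ 2 - 1)) := by
    field_simp; ring
  have h4 : f (1 - ((β / α) ^ 2 - 1) * ((γ / α) ^ 2 - 1)) = 1 := by
    rw [na_sub_eq h.na, map_one]
    rw [map_mul, map_one]
    have h5 := h.sq_unit hb
    have h6 := h.sq_unit hc
    have h7 : f 2 ^ 3 < 1 := by
      have := h.lt
      have : f 2 ^ 2 < 1 := by nlinarith
      nlinarith
    calc f ((β / α) ^ 2 - 1) * f ((γ / α) ^ 2 - 1) ≤ f 2 ^ 3 * f 2 ^ 3 :=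
          mul_le_mul h5 h6 (f.nonneg _) (by positivity)
      _ < 1 := by nlinarith [pow_pos p2 3]
  rw [e, map_mul, h4, mul_one, map_pow]
  have : 0 < f α ^ 4 := by positivity
  nlinarith [h.lt]

/-- The `2`-adic heart of the non-diagonal case. -/
theorem even_core (h : TwoLike f) {r p a : K} (hr : r ≠ 0) (hp : p ≠ 0) (hr1 : r ^ 2 ≠ 1)
    (hp1 : p ^ 2 ≠ 1) (ha : f a = 1 ∨ f a ≤ f 2 ^ 2) :
    Good f (Rm r * Rp p) (Rp r * Rp p + 2 * a) (Rm r * Rm p) ∨
    Good f (Rm p * Rp r) (Rm r * Rm p) (Rp r * Rp p + 2 * a) := by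
  have p2 : 0 < f 2 := f.pos h.pos
  have hlt := h.lt
  have ha1 : f a ≤ 1 := by
    rcases ha with h1 | h1
    · exact h1.le
    · refine h1.trans ?_
      nlinarith
  have h2a : f (2 * a) ≤ f 2 := by
    rw [map_mul]
    calc f 2 * f a ≤ f 2 * 1 := mul_le_mul_of_nonneg_left ha1 p2.le
      _ = f 2 := mul_one _
  have hRmr : Rm r ≠ 0 := Rm_ne hr hr1
  have hRmp : Rm p ≠ 0 := Rm_ne hp hp1
  have pr : 0 < f (Rm r) := f.pos hRmr
  have pp : 0 < f (Rm p) := f.pos hRmp
  have hmm : Rm r * Rm p ≠ 0 := mul_ne_zero hRmr hRmp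
  by_cases ur : f r = 1 <;> by_cases up : f p = 1
  · -- both units
    left
    have r1 := h.Rm_unit ur
    have r2 := h.Rp_unit ur
    have q1 := h.Rm_unit up
    have q2 := h.Rp_unit up
    have h23 : f 2 ^ 3 < f 2 := by
      have : f 2 ^ 2 < 1 := by nlinarith
      calc f 2 ^ 3 = f 2 ^ 2 * f 2 := by ring
        _ < 1 * f 2 := mul_lt_mul_of_pos_right this p2
        _ = f 2 := one_mul _
    have hmid : f 2 ^ 2 ≤ f (Rp r * Rp p + 2 * a) := by
      have hrp : f (Rp r * Rp p) = f 2 ^ 2 := by rw [map_mul, r2, q2]; ring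
      rcases ha with h1 | h1
      · have h5 : f (2 * a) = f 2 := by rw [map_mul, h1, mul_one]
        have h6 : f (Rp r * Rp p + 2 * a) = f 2 := by
          rw [add_comm, na_add_eq h.na, h5]
          rw [hrp, h5]; nlinarith
        rw [h6]; nlinarith
      · have h6 : f (Rp r * Rp p + 2 * a) = f 2 ^ 2 := by
          rw [na_add_eq h.na, hrp]
          rw [hrp, map_mul]
          calc f 2 * f a ≤ f 2 * f 2 ^ 2 := mul_le_mul_of_nonneg_left h1 p2.le
            _ = f 2 ^ 3 := by ring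
            _ < f 2 ^ 2 := by
              calc f 2 ^ 3 = f 2 * f 2 ^ 2 := by ring
                _ < 1 * f 2 ^ 2 := mul_lt_mul_of_pos_right hlt (by positivity)
                _ = f 2 ^ 2 := one_mul _
        rw [h6]
    have hG : Good f (Rm r * Rm p) (Rp r * Rp p + 2 * a) (Rm r * Rp p) := by
      apply good_of_min h.na h.lt h.pos hmm
      · refine lt_of_lt_of_le ?_ hmid
        rw [map_mul]
        calc f (Rm r) * f (Rm p) ≤ f 2 ^ 3 * f 2 ^ 3 :=
              mul_le_mul r1 q1 (f.nonneg _) (by positivity)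
          _ < f 2 * f 2 := mul_lt_mul'' h23 h23 (by positivity) (by positivity)
          _ = f 2 ^ 2 := by ring
      · rw [map_mul, map_mul]
        apply mul_lt_mul_of_pos_left _ pr
        rw [q2]
        exact lt_of_le_of_lt q1 h23
    exact ((hG.swap23).swap12 h.na).swap23
  · -- `r` unit, `p` not
    right
    have r1 := h.Rm_unit ur
    have r2 := h.Rp_unit ur
    obtain ⟨q1, q2⟩ := R_nonunit h.na hp up
    have h23 : f 2 ^ 3 < f 2 := by
      have : f 2 ^ 2 < 1 := by nlinarith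
      calc f 2 ^ 3 = f 2 ^ 2 * f 2 := by ring
        _ < 1 * f 2 := mul_lt_mul_of_pos_right this p2
        _ = f 2 := one_mul _
    have hrp : f (Rp r * Rp p) = f 2 * f (Rp p) := by rw [map_mul, r2]
    have hmid : f (Rp r * Rp p + 2 * a) = f 2 * f (Rp p) := by
      rw [na_add_eq h.na, hrp]
      rw [hrp]
      nlinarith
    have hG : Good f (Rm r * Rm p) (Rm p * Rp r) (Rp r * Rp p + 2 * a) := by
      apply good_of_min h.na h.lt h.pos hmm
      · rw [map_mul, map_mul, r2, mul_comm]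
        exact mul_lt_mul_of_pos_left (lt_of_le_of_lt r1 h23) pp
      · rw [hmid, map_mul, q1]
        exact mul_lt_mul_of_pos_right (lt_of_le_of_lt r1 h23) (by linarith)
    exact hG.swap12 h.na
  · -- `p` unit, `r` not
    left
    have q1 := h.Rm_unit up
    have q2 := h.Rp_unit up
    obtain ⟨r1, r2⟩ := R_nonunit h.na hr ur
    have h23 : f 2 ^ 3 < f 2 := by
      have : f 2 ^ 2 < 1 := by nlinarith
      calc f 2 ^ 3 = f 2 ^ 2 * f 2 := by ring
        _ < 1 * f 2 := mul_lt_mul_of_pos_right this p2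
        _ = f 2 := one_mul _
    have hrp : f (Rp r * Rp p) = f (Rp r) * f 2 := by rw [map_mul, q2]
    have hmid : f (Rp r * Rp p + 2 * a) = f (Rp r) * f 2 := by
      rw [na_add_eq h.na, hrp]
      rw [hrp]
      nlinarith
    have hG : Good f (Rm r * Rm p) (Rp r * Rp p + 2 * a) (Rm r * Rp p) := by
      apply good_of_min h.na h.lt h.pos hmm
      · rw [hmid, map_mul, r1]
        exact mul_lt_mul_of_pos_left (lt_of_le_of_lt q1 h23) (by linarith)
      · rw [map_mul, map_mul, q2]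
        exact mul_lt_mul_of_pos_left (lt_of_le_of_lt q1 h23) pr
    exact ((hG.swap23).swap12 h.na).swap23
  · -- both nonunits
    left
    obtain ⟨r1, r2⟩ := R_nonunit h.na hr ur
    obtain ⟨q1, q2⟩ := R_nonunit h.na hp up
    have hmid : f (Rp r * Rp p + 2 * a) = f (Rp r) * f (Rp p) := by
      rw [na_add_eq h.na, map_mul]
      rw [map_mul (f := f) (Rp r)]
      nlinarith
    apply h.good_all_eq
    · apply mul_ne_zero hRmr
      apply f.pos_iff.mp
      linarith
    · rw [hmid, map_mul, r1]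
    · rw [hmid, map_mul, r1, q1]

end Run7.h587
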