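import Pool.Agent.Run7.h587.NF
import Pool.Agent.Run7.h587.EvenCore

set_option autoImplicit false

open NumberField IsDedekindDomain

namespace Run7.h587

variable {K : Type*} [Field K] [NumberField K]

theorem valuation_lt_one_iff_le {P : HeightOneSpectrum (𝓞 K)} {x : K}
    (h : P.valuation K x < 1) : P.valuation K x ≤ WithZero.exp (-1 : ℤ) := by
  by_cases hx : P.valuation K x = 0
  · rw [hx]; exact zero_le
  · obtain ⟨k, hk⟩ : ∃ k : ℤ, P.valuation K x = WithZero.exp k :=
      ⟨WithZero.log (P.valuation K x), (WithZero.exp_log hx).symm⟩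
    rw [hk] at h ⊢
    rw [← WithZero.exp_zero, WithZero.exp_lt_exp] at h
    rw [WithZero.exp_le_exp]
    omega

/-- a prime above `2` of degree one and unramified -/
theorem twoLike_of_prime {P : HeightOneSpectrum (𝓞 K)} (h2 : (2 : 𝓞 K) ∈ P.asIdeal)
    (he : P.asIdeal.ramificationIdx ℤ = 1) (hf : P.asIdeal.inertiaDeg ℤ = 1) :
    TwoLike (pabv P) := by
  have hv2 : P.valuation K 2 = WithZero.exp (-1 : ℤ) := by
    rw [valuation_two h2, he]; rfl
  have small : ∀ x : K, pabv P x < 1 → pabv P x ≤ pabv P 2 := by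
    intro x hx
    by_contra hcon
    push Not at hcon
    rw [pabv_lt_iff, hv2] at hcon
    have hx1 : P.valuation K x < 1 := by
      have : pabv P x < pabv P 1 := by rwa [map_one]
      rwa [pabv_lt_iff, map_one] at this
    exact absurd (valuation_lt_one_iff_le hx1) (not_le.mpr hcon)
  refine ⟨pabv_na P, pabv_two h2, two_ne_zero, ?_⟩
  intro x hx
  rcases hx.lt_or_eq with hlt | heq
  · exact Or.inl (small x hlt)
  right
  apply small
  have hint : P.valuation K x ≤ 1 := by
    by_contra hcon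
    push Not at hcon
    have : pabv P 1 < pabv P x := pabv_lt_iff.mpr (by rwa [map_one])
    rw [map_one] at this
    linarith
  obtain ⟨a, ha⟩ := P.exists_valuation_sub_lt_of_integer hint 1
  have ha' : P.valuation K (algebraMap (𝓞 K) K a - x) < 1 := by simpa using ha
  have ha2 : pabv P (algebraMap (𝓞 K) K a - x) < 1 := by
    have : pabv P (algebraMap (𝓞 K) K a - x) < pabv P 1 := pabv_lt_iff.mpr (by rwa [map_one])
    rwa [map_one] at this
  have haP : a ∉ P.asIdeal := by
    intro hmem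
    rw [← pabv_coe_lt_one] at hmem
    have e : x = algebraMap (𝓞 K) K a - (algebraMap (𝓞 K) K a - x) := by ring
    have : pabv P x < 1 := by
      rw [e]
      exact na_sub_lt (pabv_na P) hmem ha2
    linarith
  -- the residue field has two elements
  have hL := liesOver_two h2
  have hM : P.asIdeal.IsMaximal := P.isMaximal
  have := isMaximal_span_two
  let _ : Field (𝓞 K ⧸ P.asIdeal) := Ideal.Quotient.field _
  have hfin : Finite (𝓞 K ⧸ P.asIdeal) := P.asIdeal.finiteQuotientOfFreeOfNeBot P.ne_bot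
  have hdeg := Ideal.inertiaDeg_eq_of_isMaximal (Ideal.span {(2 : ℤ)}) P.asIdeal
  have hcard : Nat.card (𝓞 K ⧸ P.asIdeal) = 2 := by
    let _ : Field (ℤ ⧸ Ideal.span {(2 : ℤ)}) := Ideal.Quotient.field _
    have h2c : Nat.card (ℤ ⧸ Ideal.span {(2 : ℤ)}) = 2 := by
      rw [Nat.card_congr (Int.quotientSpanEquivZMod 2).toEquiv]
      simp
    rw [Module.natCard_eq_pow_finrank (K := ℤ ⧸ Ideal.span {(2 : ℤ)}), h2c, ← hdeg, hf, pow_one]
  have hone : Ideal.Quotient.mk P.asIdeal a = 1 := by
    have : Fintype (𝓞 K ⧸ P.asIdeal) := Fintype.ofFinite _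
    have hc2 : Fintype.card (𝓞 K ⧸ P.asIdeal) = 2 := by
      rw [← Nat.card_eq_fintype_card]; exact hcard
    have hne : Ideal.Quotient.mk P.asIdeal a ≠ 0 := by
      rw [Ne, Ideal.Quotient.eq_zero_iff_mem]; exact haP
    by_contra hne1
    have h3 : ({0, 1, Ideal.Quotient.mk P.asIdeal a} : Set (𝓞 K ⧸ P.asIdeal)).ncard = 3 := by
      rw [Set.ncard_eq_three]
      exact ⟨_, _, _, zero_ne_one, hne.symm, fun h => hne1 h.symm, rfl⟩
    have h4 := Set.ncard_le_card ({0, 1, Ideal.Quotient.mk P.asIdeal a} : Set (𝓞 K ⧸ P.asIdeal))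
    rw [h3, hcard] at h4
    omega
  have hmem : a - 1 ∈ P.asIdeal := by
    rw [← Ideal.Quotient.eq_zero_iff_mem, map_sub, hone, map_one, sub_self]
  rw [← pabv_coe_lt_one, map_sub, map_one] at hmem
  have e : x - 1 = (algebraMap (𝓞 K) K a - 1) - (algebraMap (𝓞 K) K a - x) := by ring
  rw [e]
  exact na_sub_lt (pabv_na P) hmem ha2

end Run7.h587
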