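import Pool.Agent.Run7.h587.EvenCore

set_option autoImplicit false

namespace Run7.h587

variable {K : Type*} [Field K] {f : AbsoluteValue K ℝ}

theorem TwoLike.four_unit (h : TwoLike f) {u : K} (hu : f u = 1) : f (u ^ 4 - 1) ≤ f 2 ^ 4 := by
  have p2 : 0 < f 2 := f.pos h.pos
  have h1 := h.sq_unit hu
  have e : u ^ 4 - 1 = (u ^ 2 - 1) * (2 + (u ^ 2 - 1)) := by ring
  have h3 : f (2 + (u ^ 2 - 1)) ≤ f 2 := by
    apply na_add_le h.na le_rfl
    have := h.lt
    calc f (u ^ 2 - 1) ≤ f 2 ^ 3 := h1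
      _ ≤ f 2 ^ 1 := pow_le_pow_of_le_one p2.le this.le (by norm_num)
      _ = f 2 := pow_one _
  rw [e, map_mul]
  calc f (u ^ 2 - 1) * f (2 + (u ^ 2 - 1)) ≤ f 2 ^ 3 * f 2 :=
        mul_le_mul h1 h3 (f.nonneg _) (by positivity)
    _ = f 2 ^ 4 := by ring

/-- the absolute value of a fourth power is not `|2|` -/
theorem TwoLike.four_ne_two (h : TwoLike f) (x : K) : f x ^ 4 ≠ f 2 := by
  have p2 : 0 < f 2 := f.pos h.pos
  have hlt := h.lt
  intro he
  have hx : f x < 1 := by
    by_contra hcon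
    push Not at hcon
    have : (1 : ℝ) ≤ f x ^ 4 := one_le_pow₀ hcon
    linarith
  have h1 := h.small hx
  have h3 : f x ^ 4 ≤ f 2 ^ 4 := pow_le_pow_left₀ (f.nonneg _) h1 4
  have h4 : f 2 ^ 4 < f 2 := by
    calc f 2 ^ 4 = f 2 ^ 3 * f 2 := by ring
      _ < 1 * f 2 := mul_lt_mul_of_pos_right (pow_lt_one₀ p2.le hlt (by norm_num)) p2
      _ = f 2 := one_mul _
  linarith

theorem TwoLike.three_unit (h : TwoLike f) {c : K} (hc : f (c - 3) ≤ f 2 ^ 4) : f c = 1 := by
  have p2 : 0 < f 2 := f.pos h.pos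
  have hlt := h.lt
  have e : c = 1 + (2 + (c - 3)) := by ring
  rw [e, na_add_eq h.na, map_one]
  rw [map_one]
  apply na_add_lt h.na hlt
  exact lt_of_le_of_lt hc (pow_lt_one₀ p2.le hlt (by norm_num))

theorem TwoLike.not_three (h : TwoLike f) {x c : K} (hx : f (x - 1) ≤ f 2 ^ 4) {d : K}
    (hd : f (d - 1) ≤ f 2 ^ 3)
    (hc : f (c - 3) ≤ f 2 ^ 4) (he : x = c * d) : False := by
  have p2 : 0 < f 2 := f.pos h.pos
  have hlt := h.lt
  have hc1 := h.three_unit hc
  have h23 : f 2 ^ 3 < f 2 := by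
    calc f 2 ^ 3 = f 2 ^ 2 * f 2 := by ring
      _ < 1 * f 2 := mul_lt_mul_of_pos_right (pow_lt_one₀ p2.le hlt (by norm_num)) p2
      _ = f 2 := one_mul _
  have h43 : f 2 ^ 4 ≤ f 2 ^ 3 := pow_le_pow_of_le_one p2.le hlt.le (by norm_num)
  have e : (2 : K) = (x - 1) - (c - 3) - c * (d - 1) := by rw [he]; ring
  have : f 2 ≤ f 2 ^ 3 := by
    conv_lhs => rw [e]
    apply na_sub_le h.na
    · apply na_sub_le h.na
      · exact hx.trans h43
      · exact hc.trans h43
    · rw [map_mul, hc1, one_mul]; exact hd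
  linarith

/-- No solution on the closed set when `c ≡ 3 mod 16`. -/
theorem TwoLike.open_of_three (h : TwoLike f) {c x y z w : K} (hc : f (c - 3) ≤ f 2 ^ 4)
    (h0 : ¬ (x = 0 ∧ y = 0 ∧ z = 0 ∧ w = 0))
    (heq : x ^ 4 + 2 * y ^ 4 = c * (z ^ 4 + w ^ 4)) : x ≠ 0 ∧ y ≠ 0 ∧ (z ≠ 0 ∨ w ≠ 0) := by
  have p2 : 0 < f 2 := f.pos h.pos
  have hlt := h.lt
  have hc1 := h.three_unit hc
  have hc0 : c ≠ 0 := by rintro rfl; rw [map_zero] at hc1; exact zero_ne_one hc1
  -- `z⁴ + w⁴` is up to fourth powers `1 mod 16` or twice a unit `1 mod 8`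
  have hzw : ¬ (z = 0 ∧ w = 0) → ∃ t : K, t ≠ 0 ∧ ∃ d : K, f (d - 1) ≤ f 2 ^ 3 ∧
      (z ^ 4 + w ^ 4 = t ^ 4 * d ∨ z ^ 4 + w ^ 4 = 2 * t ^ 4 * d) := by
    have aux : ∀ z w : K, f w ≤ f z → z ≠ 0 → ∃ t : K, t ≠ 0 ∧ ∃ d : K, f (d - 1) ≤ f 2 ^ 3 ∧
      (z ^ 4 + w ^ 4 = t ^ 4 * d ∨ z ^ 4 + w ^ 4 = 2 * t ^ 4 * d) := by
      intro z w hle hz
      have pz : 0 < f z := f.pos hz
      refine ⟨z, hz, ?_⟩
      have hq : f (w / z) ≤ 1 := by rw [map_div₀, div_le_one pz]; exact hle
      rcases hq.lt_or_eq with hq | hq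
      · refine ⟨1 + (w / z) ^ 4, ?_, Or.inl ?_⟩
        · have h1 := h.small hq
          have e : 1 + (w / z) ^ 4 - 1 = (w / z) ^ 4 := by ring
          rw [e, map_pow]
          calc f (w / z) ^ 4 ≤ f 2 ^ 4 := pow_le_pow_left₀ (f.nonneg _) h1 4
            _ ≤ f 2 ^ 3 := pow_le_pow_of_le_one p2.le hlt.le (by norm_num)
        · field_simp
      · refine ⟨1 + ((w / z) ^ 4 - 1) / 2, ?_, Or.inr ?_⟩
        · have h1 := h.four_unit hq
          have e : 1 + ((w / z) ^ 4 - 1) / 2 - 1 = ((w / z) ^ 4 - 1) / 2 := by ring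
          rw [e, map_div₀, div_le_iff₀ p2]
          calc _ ≤ f 2 ^ 4 := h1
            _ = f 2 ^ 3 * f 2 := by ring
        · have := h.pos
          field_simp
          ring
    intro hne
    rcases le_total (f w) (f z) with hle | hle
    · apply aux z w hle
      rintro rfl
      apply hne
      refine ⟨rfl, ?_⟩
      rw [map_zero] at hle
      exact (f.eq_zero).mp (le_antisymm hle (f.nonneg _))
    · obtain ⟨t, ht, d, hd, h1⟩ := aux w z hle (by
        rintro rfl
        apply hne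
        refine ⟨?_, rfl⟩
        rw [map_zero] at hle
        exact (f.eq_zero).mp (le_antisymm hle (f.nonneg _)))
      refine ⟨t, ht, d, hd, ?_⟩
      rwa [add_comm (z ^ 4) (w ^ 4)]
  have hd1 : ∀ d : K, f (d - 1) ≤ f 2 ^ 3 → f d = 1 := by
    intro d hd
    have e : d = 1 + (d - 1) := by ring
    rw [e, na_add_eq h.na, map_one]
    rw [map_one]
    exact lt_of_le_of_lt hd (pow_lt_one₀ p2.le hlt (by norm_num))
  have hzw0 : ¬ (z = 0 ∧ w = 0) := by
    rintro ⟨rfl, rfl⟩
    have e1 : x ^ 4 = -(2 * y ^ 4) := by linear_combination heq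
    by_cases hy : y = 0
    · apply h0
      refine ⟨?_, hy, rfl, rfl⟩
      rw [hy] at e1
      have : x ^ 4 = 0 := by rw [e1]; ring
      exact pow_eq_zero_iff four_ne_zero |>.mp this
    · apply h.four_ne_two (x / y)
      have py : 0 < f y := f.pos hy
      have e3 : f x ^ 4 = f 2 * f y ^ 4 := by
        rw [← map_pow, e1, f.map_neg, map_mul, map_pow]
      rw [map_div₀, div_pow, e3]
      field_simp
  obtain ⟨t, ht, d, hd, hcase⟩ := hzw hzw0
  have pt : 0 < f t := f.pos ht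
  have hd1' := hd1 d hd
  refine ⟨?_, ?_, ?_⟩
  · rintro rfl
    rcases hcase with h1 | h1
    · -- `2 y⁴ = c t⁴ d`
      have e : 2 * y ^ 4 = c * t ^ 4 * d := by rw [mul_assoc, ← h1, ← heq]; ring
      have e3 : f 2 * f y ^ 4 = f t ^ 4 := by
        rw [← map_pow, ← map_mul, e, map_mul, map_mul, map_pow, hc1, hd1']; ring
      have hy : y ≠ 0 := by
        rintro rfl
        rw [map_zero] at e3
        have : 0 < f t ^ 4 := by positivity
        have h5 : f 2 * 0 ^ 4 = 0 := by ring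
        linarith
      have py : 0 < f y := f.pos hy
      apply h.four_ne_two (t / y)
      rw [map_div₀, div_pow, ← e3]
      field_simp
    · have e : y ^ 4 = c * t ^ 4 * d := by
        have : 2 * y ^ 4 = 2 * (c * t ^ 4 * d) := by
          linear_combination heq + c * h1
        exact mul_left_cancel₀ h.pos this
      have e3 : f (y / t) = 1 := by
        have h5 : f (y / t) ^ 4 = 1 := by
          rw [map_div₀, div_pow, ← map_pow f y, e, map_mul, map_mul, map_pow, hc1, hd1']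
          field_simp
        exact (pow_eq_one_iff_of_nonneg (f.nonneg _) four_ne_zero).mp h5
      refine h.not_three (h.four_unit e3) hd hc ?_
      rw [div_pow, e]
      field_simp
  · rintro rfl
    rcases hcase with h1 | h1
    · have e : x ^ 4 = c * t ^ 4 * d := by
        linear_combination heq + c * h1
      have e3 : f (x / t) = 1 := by
        have h5 : f (x / t) ^ 4 = 1 := by
          rw [map_div₀, div_pow, ← map_pow f x, e, map_mul, map_mul, map_pow, hc1, hd1']
          field_simp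
        exact (pow_eq_one_iff_of_nonneg (f.nonneg _) four_ne_zero).mp h5
      refine h.not_three (h.four_unit e3) hd hc ?_
      rw [div_pow, e]
      field_simp
    · have e : x ^ 4 = 2 * (c * t ^ 4 * d) := by
        linear_combination heq + c * h1
      apply h.four_ne_two (x / t)
      rw [map_div₀, div_pow, ← map_pow f x, e, map_mul, map_mul, map_mul, map_pow, hc1, hd1']
      field_simp
  · by_contra hcon
    push Not at hcon
    exact hzw0 hcon

end Run7.h587
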