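import Pool.Agent.Run7.h587.NF
import Pool.Agent.Run7.h587.Proj

set_option autoImplicit false

namespace Run7.h587

section

variable {K : Type*} [Field K]

/-- one line through the point -/
theorem line_infinite [CharZero K] {a0 a1 a2 a3 x0 x1 x2 x3 : K} (i j : Fin 4) (hi : i ≠ 0)
    (hij : i ≠ j) (h0 : j ≠ 0)
    (hx : (![x0, x1, x2, x3] : Fin 4 → K) i ≠ 0)
    (h : ∀ t : K, a0 * x0 ^ 4 + a1 * (if i = 1 ∨ j = 1 then t * x1 else x1) ^ 4 +
      a2 * (if i = 2 ∨ j = 2 then t * x2 else x2) ^ 4 +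
      a3 * (if i = 3 ∨ j = 3 then t * x3 else x3) ^ 4 = 0) :
    {y : Fin 4 → K | y 0 = x0 ∧
      a0 * y 0 ^ 4 + a1 * y 1 ^ 4 + a2 * y 2 ^ 4 + a3 * y 3 ^ 4 = 0}.Infinite := by
  let g : K → (Fin 4 → K) := fun t => ![x0, (if i = 1 ∨ j = 1 then t * x1 else x1),
    (if i = 2 ∨ j = 2 then t * x2 else x2), (if i = 3 ∨ j = 3 then t * x3 else x3)]
  have hinj : Function.Injective g := by
    intro t t' e
    have e1 := congrFun e i
    fin_cases i
    · exact absurd rfl hi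
    · simp [g] at e1 hx
      exact e1.resolve_right hx
    · simp [g] at e1 hx
      exact e1.resolve_right hx
    · simp [g] at e1 hx
      exact e1.resolve_right hx
  have hr : (Set.range g).Infinite := Set.infinite_range_of_injective hinj
  refine hr.mono ?_
  rintro _ ⟨t, rfl⟩
  exact ⟨rfl, by simpa [g] using h t⟩

/-- a point with nonzero coordinates -/
theorem diag_full [CharZero K] {f : AbsoluteValue K ℝ} (hf : IsNonarchimedean f) (h2 : f 2 < 1)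
    {a0 a1 a2 a3 x0 x1 x2 x3 Δ : K}
    (h0 : a0 * x0 ^ 4 ≠ 0) (h1 : a1 * x1 ^ 4 ≠ 0) (h2' : a2 * x2 ^ 4 ≠ 0) (h3 : a3 * x3 ^ 4 ≠ 0)
    (hsum : a0 * x0 ^ 4 + a1 * x1 ^ 4 + a2 * x2 ^ 4 + a3 * x3 ^ 4 = 0)
    (hΔ : Δ ^ 2 = (a0 * x0 ^ 4) * (a1 * x1 ^ 4) * (a2 * x2 ^ 4) * (a3 * x3 ^ 4)) :
    {y : Fin 4 → K | y 0 = x0 ∧
      a0 * y 0 ^ 4 + a1 * y 1 ^ 4 + a2 * y 2 ^ 4 + a3 * y 3 ^ 4 = 0}.Infinite ∨
    Exc f (a0 * x0 ^ 4) (a1 * x1 ^ 4) (a2 * x2 ^ 4) (a3 * x3 ^ 4) Δ := by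
  have hx1 : x1 ≠ 0 := by rintro rfl; exact h1 (by ring)
  have hx2 : x2 ≠ 0 := by rintro rfl; exact h2' (by ring)
  by_cases n12 : a1 * x1 ^ 4 + a2 * x2 ^ 4 = 0
  · left
    apply line_infinite (x0 := x0) (x1 := x1) (x2 := x2) (x3 := x3) 1 2 (by decide) (by decide) (by decide) (by simpa using hx1)
    intro t
    simp
    linear_combination hsum - (1 - t ^ 4) * n12
  by_cases n13 : a1 * x1 ^ 4 + a3 * x3 ^ 4 = 0
  · left
    apply line_infinite (x0 := x0) (x1 := x1) (x2 := x2) (x3 := x3) 1 3 (by decide) (by decide) (by decide) (by simpa using hx1)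
    intro t
    simp
    linear_combination hsum - (1 - t ^ 4) * n13
  by_cases n23 : a2 * x2 ^ 4 + a3 * x3 ^ 4 = 0
  · left
    apply line_infinite (x0 := x0) (x1 := x1) (x2 := x2) (x3 := x3) 2 3 (by decide) (by decide) (by decide) (by simpa using hx2)
    intro t
    simp
    linear_combination hsum - (1 - t ^ 4) * n23
  exact diag_core hf h2 two_ne_zero h0 h1 h2' h3 hsum hΔ n12 n13 n23

/-- the arithmetic condition which excludes the exceptional situation -/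
def CondF (f : AbsoluteValue K ℝ) (c m : K) : Prop :=
  ¬ ((∃ x : K, f x ^ 2 = f 2) ∧ (∃ ω : K, f (ω ^ 2 + ω + 1) < 1) ∧ (∃ x : K, f x ^ 4 = f c) ∧
    ∃ x : K, f x ^ 2 = f m)

theorem CondF.t1 {f : AbsoluteValue K ℝ} {c m : K} (hm : m ≠ 0) (h : CondF f c m) :
    CondF f (c * m ^ 2) m := by
  rintro ⟨h1, h2, ⟨x, hx⟩, ⟨y, hy⟩⟩
  refine h ⟨h1, h2, ⟨x / y, ?_⟩, ⟨y, hy⟩⟩
  have pm : 0 < f m := f.pos hm
  have e : f y ^ 4 = f m ^ 2 := by rw [← hy]; ring
  rw [map_div₀, div_pow, hx, e, map_mul, map_pow]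
  field_simp

theorem CondF.t2 {f : AbsoluteValue K ℝ} {c m : K} (h : CondF f c m) :
    CondF f c⁻¹ m := by
  rintro ⟨h1, h2, ⟨x, hx⟩, h4⟩
  refine h ⟨h1, h2, ⟨x⁻¹, ?_⟩, h4⟩
  rw [map_inv₀, inv_pow, hx, map_inv₀, inv_inv]

/-- infinitely many solutions with one fixed nonzero coordinate -/
def InfS (c m : K) : Prop := ∃ (i : Fin 4) (t : K), t ≠ 0 ∧
  {y : Fin 4 → K | y i = t ∧ y 0 ^ 4 + m ^ 2 * y 1 ^ 4 = c * (y 2 ^ 4 + m ^ 2 * y 3 ^ 4)}.Infinite

theorem InfS.t1 {c m : K} (hm : m ≠ 0) (h : InfS (c * m ^ 2) m) : InfS c m := by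
  obtain ⟨i, t, ht, h⟩ := h
  let g : (Fin 4 → K) → (Fin 4 → K) := fun y => ![y 0, y 1, m * y 3, y 2]
  have hinj : Function.Injective g := by
    intro y y' e
    have e0 := congrFun e 0
    have e1 := congrFun e 1
    have e2 := congrFun e 2
    have e3 := congrFun e 3
    simp [g] at e0 e1 e2 e3
    ext j
    fin_cases j
    · exact e0
    · exact e1
    · exact e3
    · exact e2.resolve_right hm
  have hsol : ∀ y : Fin 4 → K, y 0 ^ 4 + m ^ 2 * y 1 ^ 4 = c * m ^ 2 * (y 2 ^ 4 + m ^ 2 * y 3 ^ 4) →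
      g y 0 ^ 4 + m ^ 2 * g y 1 ^ 4 = c * (g y 2 ^ 4 + m ^ 2 * g y 3 ^ 4) := by
    intro y hy
    simp only [g, Matrix.cons_val_zero, Matrix.cons_val_one, Matrix.cons_val]
    linear_combination hy
  have hi := h.image (f := g) (hinj.injOn)
  fin_cases i
  · exact ⟨0, t, ht, hi.mono (by rintro _ ⟨y, ⟨h1, h2⟩, rfl⟩; exact ⟨h1, hsol y h2⟩)⟩
  · exact ⟨1, t, ht, hi.mono (by rintro _ ⟨y, ⟨h1, h2⟩, rfl⟩; exact ⟨h1, hsol y h2⟩)⟩
  · exact ⟨3, t, ht, hi.mono (by rintro _ ⟨y, ⟨h1, h2⟩, rfl⟩; exact ⟨h1, hsol y h2⟩)⟩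
  · exact ⟨2, m * t, mul_ne_zero hm ht, hi.mono (by
      rintro _ ⟨y, ⟨h1, h2⟩, rfl⟩; exact ⟨congrArg (m * ·) h1, hsol y h2⟩)⟩

theorem InfS.t2 {c m : K} (hc : c ≠ 0) (h : InfS c⁻¹ m) : InfS c m := by
  obtain ⟨i, t, ht, h⟩ := h
  let g : (Fin 4 → K) → (Fin 4 → K) := fun y => ![y 2, y 3, y 0, y 1]
  have hinj : Function.Injective g := by
    intro y y' e
    have e0 := congrFun e 0
    have e1 := congrFun e 1
    have e2 := congrFun e 2
    have e3 := congrFun e 3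
    simp [g] at e0 e1 e2 e3
    ext j
    fin_cases j
    · exact e2
    · exact e3
    · exact e0
    · exact e1
  have hsol : ∀ y : Fin 4 → K, y 0 ^ 4 + m ^ 2 * y 1 ^ 4 = c⁻¹ * (y 2 ^ 4 + m ^ 2 * y 3 ^ 4) →
      g y 0 ^ 4 + m ^ 2 * g y 1 ^ 4 = c * (g y 2 ^ 4 + m ^ 2 * g y 3 ^ 4) := by
    intro y hy
    simp only [g, Matrix.cons_val_zero, Matrix.cons_val_one, Matrix.cons_val]
    rw [hy, ← mul_assoc, mul_inv_cancel₀ hc, one_mul]
  have hi := h.image (f := g) (hinj.injOn)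
  fin_cases i
  · exact ⟨2, t, ht, hi.mono (by rintro _ ⟨y, ⟨h1, h2⟩, rfl⟩; exact ⟨h1, hsol y h2⟩)⟩
  · exact ⟨3, t, ht, hi.mono (by rintro _ ⟨y, ⟨h1, h2⟩, rfl⟩; exact ⟨h1, hsol y h2⟩)⟩
  · exact ⟨0, t, ht, hi.mono (by rintro _ ⟨y, ⟨h1, h2⟩, rfl⟩; exact ⟨h1, hsol y h2⟩)⟩
  · exact ⟨1, t, ht, hi.mono (by rintro _ ⟨y, ⟨h1, h2⟩, rfl⟩; exact ⟨h1, hsol y h2⟩)⟩

variable [CharZero K]

/-- all coordinates nonzero -/
theorem infS_of_nonzero {f : AbsoluteValue K ℝ} (hf : IsNonarchimedean f) (h2 : f 2 < 1)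
    {c m : K} (hc : c ≠ 0) (hm : m ≠ 0) (hC : CondF f c m) {x y z w : K} (hx : x ≠ 0) (hy : y ≠ 0)
    (hz : z ≠ 0) (hw : w ≠ 0) (h : x ^ 4 + m ^ 2 * y ^ 4 = c * (z ^ 4 + m ^ 2 * w ^ 4)) :
    InfS c m := by
  have hcore := diag_full hf h2 (a0 := 1) (a1 := m ^ 2) (a2 := -c) (a3 := -(c * m ^ 2))
    (x0 := x) (x1 := y) (x2 := z) (x3 := w) (Δ := c * m ^ 2 * (x * y * z * w) ^ 2)
    (by simp [hx]) (by simp [hy, hm]) (by simp [hz, hc]) (by simp [hc, hm, hw])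
    (by linear_combination h) (by ring)
  rcases hcore with hI | hE
  · refine ⟨0, x, hx, hI.mono ?_⟩
    rintro y ⟨h1, h2⟩
    exact ⟨h1, by linear_combination h2⟩
  · exfalso
    apply hC
    obtain ⟨ho, e01, e12, e23, hdm, hdp⟩ := hE
    have pm : 0 < f m := f.pos hm
    have py : 0 < f y := f.pos hy
    have pz : 0 < f z := f.pos hz
    have p2 : 0 < f 2 := f.pos two_ne_zero
    refine ⟨?_, ho, ⟨x / z, ?_⟩, ⟨x / y, ?_⟩⟩
    · set κ := x * z / (m * y * w) with hκ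
      have e1 : c * m ^ 2 * (x * y * z * w) ^ 2 / (m ^ 2 * y ^ 4 * (-(c * m ^ 2) * w ^ 4)) =
          - κ ^ 2 := by
        rw [hκ]; field_simp
      rw [e1] at hdm hdp
      have e2 : (1 : K) - -κ ^ 2 = 1 + κ ^ 2 := by ring
      have e3 : (1 : K) + -κ ^ 2 = (1 - κ) * (1 + κ) := by ring
      rw [e2] at hdm
      rw [e3, map_mul] at hdp
      have hκ1 : f κ = 1 := by
        have : κ ^ 2 = (1 + κ ^ 2) - 1 := by ring
        have h5 : f (κ ^ 2) = 1 := by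
          rw [this, na_sub_eq' hf, map_one]
          rw [hdm, map_one]; exact h2
        rw [abv_sq] at h5
        have h6 : (f κ) ^ 2 = 1 ^ 2 := by rw [h5]; ring
        exact (pow_left_inj₀ (f.nonneg _) zero_le_one two_ne_zero).mp h6
      have h2κ : f (2 * κ) = f 2 := by rw [map_mul, hκ1, mul_one]
      rcases lt_or_ge (f 2) (f (1 - κ)) with hlt | hge
      · refine ⟨1 - κ, ?_⟩
        have : f (1 + κ) = f (1 - κ) := by
          have e : (1 : K) + κ = (1 - κ) + 2 * κ := by ring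
          rw [e, na_add_eq hf]
          rw [h2κ]; exact hlt
        rw [this] at hdp
        rw [sq]; exact hdp
      · exfalso
        have : f (1 + κ) ≤ f 2 := by
          have e : (1 : K) + κ = (1 - κ) + 2 * κ := by ring
          rw [e]
          exact na_add_le hf hge h2κ.le
        have : f (1 - κ) * f (1 + κ) ≤ f 2 * f 2 :=
          mul_le_mul hge this (f.nonneg _) p2.le
        rw [hdp] at this
        nlinarith
    · have h5 := e01.trans e12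
      rw [one_mul, map_pow, map_mul, map_neg_eq_map, map_pow] at h5
      rw [map_div₀, div_pow, h5]
      field_simp
    · rw [one_mul, map_pow, map_mul, map_pow, map_pow] at e01
      have h6 : (f (x / y) ^ 2) ^ 2 = (f m) ^ 2 := by
        rw [map_div₀, div_pow, div_pow, ← pow_mul, ← pow_mul, e01]
        field_simp
      exact (pow_left_inj₀ (by positivity) pm.le two_ne_zero).mp h6

theorem bez (r : K) : (r ^ 2 - r + 1 ≠ 0 ∧ r ^ 3 - r ^ 2 + 3 * r - 1 ≠ 0 ∧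
      r ^ 3 - 3 * r ^ 2 + r - 1 ≠ 0) ∨
    (r ^ 2 + r + 1 ≠ 0 ∧ r ^ 3 + r ^ 2 + 3 * r + 1 ≠ 0 ∧ r ^ 3 + 3 * r ^ 2 + r + 1 ≠ 0) := by
  by_contra hcon
  rw [not_or] at hcon
  obtain ⟨hb, hc⟩ := hcon
  have hb' : r ^ 2 - r + 1 = 0 ∨ r ^ 3 - r ^ 2 + 3 * r - 1 = 0 ∨
      r ^ 3 - 3 * r ^ 2 + r - 1 = 0 := by
    by_contra h; push Not at h; exact hb h
  have hc' : r ^ 2 + r + 1 = 0 ∨ r ^ 3 + r ^ 2 + 3 * r + 1 = 0 ∨
      r ^ 3 + 3 * r ^ 2 + r + 1 = 0 := by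
    by_contra h; push Not at h; exact hc h
  have h2 : (2 : K) ≠ 0 := two_ne_zero
  have h13 : (13 : K) ≠ 0 := by norm_num
  have h4 : (4 : K) ≠ 0 := by norm_num
  have h12 : (12 : K) ≠ 0 := by norm_num
  rcases hb' with p | p | p <;> rcases hc' with q | q | q
  · exact h2 (by linear_combination (1 + r) * p + (1 - r) * q)
  · exact h13 (by linear_combination (10 + 5 * r + 4 * r ^ 2) * p + (3 - 4 * r) * q)
  · exact h13 (by linear_combination (12 + 15 * r + 4 * r ^ 2) * p + (1 - 4 * r) * q)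
  · exact h13 (by linear_combination (-3 - 4 * r) * p + (10 - 5 * r + 4 * r ^ 2) * q)
  · exact h4 (by linear_combination (-2 - r - r ^ 2) * p + (2 - r + r ^ 2) * q)
  · exact h12 (by linear_combination (-5 - 10 * r - 3 * r ^ 2) * p + (7 - 2 * r + 3 * r ^ 2) * q)
  · exact h13 (by linear_combination (-1 - 4 * r) * p + (12 - 15 * r + 4 * r ^ 2) * q)
  · exact h12 (by linear_combination (-7 - 2 * r - 3 * r ^ 2) * p + (5 - 10 * r + 3 * r ^ 2) * q)
  · exact h4 (by linear_combination (-2 - 9 * r - 3 * r ^ 2) * p + (2 - 9 * r + 3 * r ^ 2) * q)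

/-- a point with `w = 0` -/
theorem infS_of_w {f : AbsoluteValue K ℝ} (hf : IsNonarchimedean f) (h2 : f 2 < 1)
    {c m : K} (hc : c ≠ 0) (hm : m ≠ 0) (hC : CondF f c m) {x y z : K}
    (hne : ¬ (x = 0 ∧ y = 0 ∧ z = 0)) (h : x ^ 4 + m ^ 2 * y ^ 4 = c * z ^ 4) :
    InfS c m := by
  by_cases hz : z = 0
  · -- `x⁴ + m² y⁴ = 0`
    have hx : x ≠ 0 := by
      rintro rfl
      apply hne
      have : m ^ 2 * y ^ 4 = 0 := by rw [hz] at h; linear_combination h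
      have hy : y = 0 := by
        rcases mul_eq_zero.mp this with h | h
        · exact absurd (pow_eq_zero_iff two_ne_zero |>.mp h) hm
        · exact pow_eq_zero_iff (by norm_num) |>.mp h
      exact ⟨rfl, hy, hz⟩
    rw [hz] at h
    let g : K → (Fin 4 → K) := fun t => ![x, y, t * x, t * y]
    have hinj : Function.Injective g := by
      intro t t' e
      have e1 := congrFun e 2
      simp [g] at e1
      exact e1.resolve_right hx
    refine ⟨0, x, hx, (Set.infinite_range_of_injective hinj).mono ?_⟩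
    rintro _ ⟨t, rfl⟩
    refine ⟨rfl, ?_⟩
    simp only [g, Matrix.cons_val_zero, Matrix.cons_val_one, Matrix.cons_val]
    linear_combination (1 - c * t ^ 4) * h
  by_cases hx : x = 0
  · rw [hx] at h
    have hy : y ≠ 0 := by
      rintro rfl
      apply hz
      have : c * z ^ 4 = 0 := by rw [← h]; ring
      exact pow_eq_zero_iff (by norm_num) |>.mp ((mul_eq_zero.mp this).resolve_left hc)
    -- line `(x,y) = (y0/z0) (m w, z)`
    let g : K → (Fin 4 → K) := fun t => ![m * y * t, y, z, t * z]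
    have hinj : Function.Injective g := by
      intro t t' e
      have e1 := congrFun e 3
      simp [g] at e1
      exact e1.resolve_right hz
    refine ⟨1, y, hy, (Set.infinite_range_of_injective hinj).mono ?_⟩
    rintro _ ⟨t, rfl⟩
    refine ⟨rfl, ?_⟩
    simp only [g, Matrix.cons_val_zero, Matrix.cons_val_one, Matrix.cons_val]
    linear_combination (1 + m ^ 2 * t ^ 4) * h
  by_cases hy : y = 0
  · rw [hy] at h
    let g : K → (Fin 4 → K) := fun t => ![x, t * x, z, t * z]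
    have hinj : Function.Injective g := by
      intro t t' e
      have e1 := congrFun e 1
      simp [g] at e1
      exact e1.resolve_right hx
    refine ⟨0, x, hx, (Set.infinite_range_of_injective hinj).mono ?_⟩
    rintro _ ⟨t, rfl⟩
    refine ⟨rfl, ?_⟩
    simp only [g, Matrix.cons_val_zero, Matrix.cons_val_one, Matrix.cons_val]
    linear_combination (1 + m ^ 2 * t ^ 4) * h
  by_cases hr : x ^ 4 = m ^ 2 * y ^ 4
  · apply infS_of_nonzero hf h2 hc hm hC (x := 21 * x ^ 2) (y := 19 * (x * y))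
      (z := 20 * (x * z)) (w := 7 * (y * z))
    · exact mul_ne_zero (by norm_num) (pow_ne_zero 2 hx)
    · exact mul_ne_zero (by norm_num) (mul_ne_zero hx hy)
    · exact mul_ne_zero (by norm_num) (mul_ne_zero hx hz)
    · exact mul_ne_zero (by norm_num) (mul_ne_zero hy hz)
    · -- `x⁴ = m² y⁴`, `c z⁴ = 2 x⁴`
      have e1 : c * z ^ 4 = 2 * x ^ 4 := by linear_combination -h - hr
      linear_combination (-160000 * x ^ 4 - 2401 * m ^ 2 * y ^ 4) * e1 +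
        (-130321 * x ^ 4 + 4802 * x ^ 4) * hr
  · set X := x ^ 2 with hX
    set Y := m * y ^ 2 with hY
    have hX0 : X ≠ 0 := pow_ne_zero 2 hx
    have hY0 : Y ≠ 0 := mul_ne_zero hm (pow_ne_zero 2 hy)
    have hXY : (X - Y) * (X + Y) ≠ 0 := by
      intro h0
      apply hr
      rw [hX, hY] at h0
      linear_combination h0
    have hm1 : X - Y ≠ 0 := left_ne_zero_of_mul hXY
    have hp1 : X + Y ≠ 0 := right_ne_zero_of_mul hXY
    rcases bez (X / Y) with ⟨b1, b2, b3⟩ | ⟨b1, b2, b3⟩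
    · apply infS_of_nonzero hf h2 hc hm hC
        (x := x * (X ^ 3 - X ^ 2 * Y + 3 * X * Y ^ 2 - Y ^ 3))
        (y := -(y * (X ^ 3 - 3 * X ^ 2 * Y + X * Y ^ 2 - Y ^ 3)))
        (z := z * (X + Y) * (X - Y) ^ 2) (w := -2 * x * y * z * (X ^ 2 - X * Y + Y ^ 2))
      · refine mul_ne_zero hx (fun h0 => b2 ?_)
        have : (X / Y) ^ 3 - (X / Y) ^ 2 + 3 * (X / Y) - 1 =
          (X ^ 3 - X ^ 2 * Y + 3 * X * Y ^ 2 - Y ^ 3) / Y ^ 3 := by field_simp
        rw [this, h0, zero_div]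
      · refine neg_ne_zero.mpr (mul_ne_zero hy (fun h0 => b3 ?_))
        have : (X / Y) ^ 3 - 3 * (X / Y) ^ 2 + (X / Y) - 1 =
          (X ^ 3 - 3 * X ^ 2 * Y + X * Y ^ 2 - Y ^ 3) / Y ^ 3 := by field_simp
        rw [this, h0, zero_div]
      · exact mul_ne_zero (mul_ne_zero hz hp1) (pow_ne_zero 2 hm1)
      · refine mul_ne_zero (mul_ne_zero (mul_ne_zero (mul_ne_zero (by norm_num) hx) hy) hz)
          (fun h0 => b1 ?_)
        have : (X / Y) ^ 2 - (X / Y) + 1 = (X ^ 2 - X * Y + Y ^ 2) / Y ^ 2 := by field_simp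
        rw [this, h0, zero_div]
      · have hc' : c * z ^ 4 = X ^ 2 + Y ^ 2 := by rw [hX, hY]; linear_combination -h
        have ex : x ^ 4 = X ^ 2 := by rw [hX]; ring
        have ey : m ^ 2 * y ^ 4 = Y ^ 2 := by rw [hY]; ring
        have L : (x * (X ^ 3 - X ^ 2 * Y + 3 * X * Y ^ 2 - Y ^ 3)) ^ 4 +
          m ^ 2 * (-(y * (X ^ 3 - 3 * X ^ 2 * Y + X * Y ^ 2 - Y ^ 3))) ^ 4 =
          X ^ 2 * (X ^ 3 - X ^ 2 * Y + 3 * X * Y ^ 2 - Y ^ 3) ^ 4 +
          Y ^ 2 * (X ^ 3 - 3 * X ^ 2 * Y + X * Y ^ 2 - Y ^ 3) ^ 4 := by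
          rw [← ex, ← ey]; ring
        have R : c * ((z * (X + Y) * (X - Y) ^ 2) ^ 4 +
          m ^ 2 * (-2 * x * y * z * (X ^ 2 - X * Y + Y ^ 2)) ^ 4) =
          (c * z ^ 4) * (((X + Y) * (X - Y) ^ 2) ^ 4 +
          16 * X ^ 2 * Y ^ 2 * (X ^ 2 - X * Y + Y ^ 2) ^ 4) := by
          rw [← ex, ← ey]; ring
        rw [L, R, hc']; ring
    · apply infS_of_nonzero hf h2 hc hm hC
        (x := x * (X ^ 3 + X ^ 2 * Y + 3 * X * Y ^ 2 + Y ^ 3))
        (y := -(y * (X ^ 3 + 3 * X ^ 2 * Y + X * Y ^ 2 + Y ^ 3)))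
        (z := z * (X - Y) * (X + Y) ^ 2) (w := -2 * x * y * z * (X ^ 2 + X * Y + Y ^ 2))
      · refine mul_ne_zero hx (fun h0 => b2 ?_)
        have : (X / Y) ^ 3 + (X / Y) ^ 2 + 3 * (X / Y) + 1 =
          (X ^ 3 + X ^ 2 * Y + 3 * X * Y ^ 2 + Y ^ 3) / Y ^ 3 := by field_simp
        rw [this, h0, zero_div]
      · refine neg_ne_zero.mpr (mul_ne_zero hy (fun h0 => b3 ?_))
        have : (X / Y) ^ 3 + 3 * (X / Y) ^ 2 + (X / Y) + 1 =
          (X ^ 3 + 3 * X ^ 2 * Y + X * Y ^ 2 + Y ^ 3) / Y ^ 3 := by field_simp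
        rw [this, h0, zero_div]
      · exact mul_ne_zero (mul_ne_zero hz hm1) (pow_ne_zero 2 hp1)
      · refine mul_ne_zero (mul_ne_zero (mul_ne_zero (mul_ne_zero (by norm_num) hx) hy) hz)
          (fun h0 => b1 ?_)
        have : (X / Y) ^ 2 + (X / Y) + 1 = (X ^ 2 + X * Y + Y ^ 2) / Y ^ 2 := by field_simp
        rw [this, h0, zero_div]
      · have hc' : c * z ^ 4 = X ^ 2 + Y ^ 2 := by rw [hX, hY]; linear_combination -h
        have ex : x ^ 4 = X ^ 2 := by rw [hX]; ring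
        have ey : m ^ 2 * y ^ 4 = Y ^ 2 := by rw [hY]; ring
        have L : (x * (X ^ 3 + X ^ 2 * Y + 3 * X * Y ^ 2 + Y ^ 3)) ^ 4 +
          m ^ 2 * (-(y * (X ^ 3 + 3 * X ^ 2 * Y + X * Y ^ 2 + Y ^ 3))) ^ 4 =
          X ^ 2 * (X ^ 3 + X ^ 2 * Y + 3 * X * Y ^ 2 + Y ^ 3) ^ 4 +
          Y ^ 2 * (X ^ 3 + 3 * X ^ 2 * Y + X * Y ^ 2 + Y ^ 3) ^ 4 := by
          rw [← ex, ← ey]; ring
        have R : c * ((z * (X - Y) * (X + Y) ^ 2) ^ 4 +
          m ^ 2 * (-2 * x * y * z * (X ^ 2 + X * Y + Y ^ 2)) ^ 4) =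
          (c * z ^ 4) * (((X - Y) * (X + Y) ^ 2) ^ 4 +
          16 * X ^ 2 * Y ^ 2 * (X ^ 2 + X * Y + Y ^ 2) ^ 4) := by
          rw [← ex, ← ey]; ring
        rw [L, R, hc']; ring

/-- every nonzero solution gives infinitely many -/
theorem infS_all {f : AbsoluteValue K ℝ} (hf : IsNonarchimedean f) (h2 : f 2 < 1)
    {c m : K} (hc : c ≠ 0) (hm : m ≠ 0) (hC : CondF f c m) {x y z w : K}
    (hne : ¬ (x = 0 ∧ y = 0 ∧ z = 0 ∧ w = 0))
    (h : x ^ 4 + m ^ 2 * y ^ 4 = c * (z ^ 4 + m ^ 2 * w ^ 4)) :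
    InfS c m := by
  by_cases hw : w = 0
  · subst hw
    exact infS_of_w hf h2 hc hm hC (x := x) (y := y) (z := z) (by tauto) (by linear_combination h)
  by_cases hz : z = 0
  · subst hz
    exact InfS.t1 hm (infS_of_w hf h2 (mul_ne_zero hc (pow_ne_zero 2 hm)) hm (hC.t1 hm)
      (x := x) (y := y) (z := w) (by tauto) (by linear_combination h))
  by_cases hy : y = 0
  · subst hy
    apply InfS.t2 hc
    exact infS_of_w hf h2 (inv_ne_zero hc) hm hC.t2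
      (x := z) (y := w) (z := x) (by tauto) (by field_simp; linear_combination -h)
  by_cases hx : x = 0
  · subst hx
    apply InfS.t2 hc
    apply InfS.t1 hm
    exact infS_of_w hf h2 (mul_ne_zero (inv_ne_zero hc) (pow_ne_zero 2 hm)) hm (hC.t2.t1 hm)
      (x := z) (y := w) (z := y) (by tauto) (by field_simp; linear_combination -h)
  exact infS_of_nonzero hf h2 hc hm hC hx hy hz hw h

end

end Run7.h587
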