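import Pool.Agent.Run7.h587.Sym

set_option autoImplicit false

namespace Run7.h587

variable {L : Type*} [Field L] {f : AbsoluteValue L ℝ} {φ : L →+* L} {F : Subfield L}

/-- on the subfield `F` the absolute value looks like the one of `ℚ₂` -/
structure TwoOn (f : AbsoluteValue L ℝ) (F : Subfield L) : Prop where
  na : IsNonarchimedean f
  lt : f 2 < 1
  pos : (2 : L) ≠ 0
  unif : ∀ x ∈ F, f x ≤ 1 → f x ≤ f 2 ∨ f (x - 1) ≤ f 2

theorem TwoOn.p2 (h : TwoOn f F) : 0 < f 2 := f.pos h.pos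

theorem two_mem : (2 : L) ∈ F := by
  have : (2 : L) = 1 + 1 := by norm_num
  rw [this]; exact F.add_mem F.one_mem F.one_mem

theorem TwoOn.small (h : TwoOn f F) {x : L} (hF : x ∈ F) (hx : f x < 1) : f x ≤ f 2 := by
  rcases h.unif x hF hx.le with h1 | h1
  · exact h1
  · exfalso
    have e : (1 : L) = x - (x - 1) := by ring
    have : f 1 < 1 := by
      rw [e]
      exact na_sub_lt h.na hx (lt_of_le_of_lt h1 h.lt)
    rw [map_one] at this
    exact lt_irrefl _ this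

theorem TwoOn.unit (h : TwoOn f F) {x : L} (hF : x ∈ F) (hx : f x = 1) : f (x - 1) ≤ f 2 := by
  rcases h.unif x hF hx.le with h1 | h1
  · exfalso
    rw [hx] at h1
    exact absurd h.lt (not_lt.mpr h1)
  · exact h1

/-- a unit of `F` is `1 + 2 j` with `j` small or congruent to `1` -/
theorem TwoOn.half (h : TwoOn f F) {x : L} (hF : x ∈ F) (hx : f x = 1) :
    f (x - 1) ≤ f 2 ^ 2 ∨ (f (x - 1) = f 2 ∧ f (x + 1) ≤ f 2 ^ 2) := by
  have p2 := h.p2
  set t := (x - 1) / 2 with ht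
  have htF : t ∈ F := F.div_mem (F.sub_mem hF F.one_mem) two_mem
  have ex : x - 1 = 2 * t := by rw [ht]; field_simp [h.pos]
  have ex' : x + 1 = 2 * (t + 1) := by
    have : x + 1 = (x - 1) + 2 := by ring
    rw [this, ex]; ring
  have ht1 : f t ≤ 1 := by
    rw [ht, map_div₀, div_le_one p2]; exact h.unit hF hx
  rcases h.unif t htF ht1 with h1 | h1
  · left
    rw [ex, map_mul]
    calc f 2 * f t ≤ f 2 * f 2 := mul_le_mul_of_nonneg_left h1 p2.le
      _ = f 2 ^ 2 := by ring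
  · right
    have h3 : f (t + 1) ≤ f 2 := by
      have e3 : t + 1 = (t - 1) + 2 := by ring
      rw [e3]
      exact na_add_le h.na h1 le_rfl
    have h4 : f t = 1 := by
      have e3 : t = 1 + (t - 1) := by ring
      rw [e3, na_add_eq h.na, map_one]
      rw [map_one]; exact lt_of_le_of_lt h1 h.lt
    constructor
    · rw [ex, map_mul, h4, mul_one]
    · rw [ex', map_mul]
      calc f 2 * f (t + 1) ≤ f 2 * f 2 := mul_le_mul_of_nonneg_left h3 p2.le
        _ = f 2 ^ 2 := by ring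

theorem TwoOn.sq_unit (h : TwoOn f F) {x : L} (hF : x ∈ F) (hx : f x = 1) :
    f (x ^ 2 - 1) ≤ f 2 ^ 3 := by
  have p2 := h.p2
  have e : x ^ 2 - 1 = (x - 1) * (x + 1) := by ring
  rw [e, map_mul]
  rcases h.half hF hx with h1 | ⟨h1, h3⟩
  · have h3 : f (x + 1) ≤ f 2 := by
      have e3 : x + 1 = (x - 1) + 2 := by ring
      rw [e3]
      exact na_add_le h.na (h.unit hF hx) le_rfl
    calc f (x - 1) * f (x + 1) ≤ f 2 ^ 2 * f 2 := mul_le_mul h1 h3 (f.nonneg _) (by positivity)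
      _ = f 2 ^ 3 := by ring
  · calc f (x - 1) * f (x + 1) ≤ f 2 * f 2 ^ 2 := mul_le_mul h1.le h3 (f.nonneg _) p2.le
      _ = f 2 ^ 3 := by ring

theorem TwoOn.nosq (h : TwoOn f F) {x y : L} (hx : x ∈ F) (hy : y ∈ F) (hy0 : y ≠ 0)
    (he : f x ^ 2 = f 2 * f y ^ 2) : False := by
  have p2 := h.p2
  have py : 0 < f y := f.pos hy0
  have hq : x / y ∈ F := F.div_mem hx hy
  have h1 : f (x / y) ^ 2 = f 2 := by
    rw [map_div₀, div_pow, he]; field_simp
  have h3 : f (x / y) < 1 := by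
    by_contra hcon
    push Not at hcon
    have := h.lt
    nlinarith
  have h4 := h.small hq h3
  have := h.lt
  have h5 : f (x / y) ^ 2 ≤ f 2 ^ 2 := pow_le_pow_left₀ (f.nonneg _) h4 2
  nlinarith

theorem big_of_ne (hf : IsNonarchimedean f) (h2 : f 2 < 1) {A p q : L} (hA : f A ≠ 1)
    (hp : f p < max (f A) 1) (hq : f q < max (f A) 1) :
    Big f (A - 1 - p) (A + 1 + q) (A - 1 + p) := by
  set M := max (f A) 1 with hM
  have hM1 : 1 ≤ M := le_max_right _ _
  have hMA : f A ≤ M := le_max_left _ _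
  have e1 : f (A - 1) = M := by
    rcases lt_or_gt_of_ne hA with h | h
    · rw [na_sub_eq' hf (by rwa [map_one]), map_one, hM, max_eq_right h.le]
    · rw [na_sub_eq hf (by rwa [map_one]), hM, max_eq_left h.le]
  have e3 : f (A + 1) = M := by
    rcases lt_or_gt_of_ne hA with h | h
    · rw [add_comm, na_add_eq hf (by rwa [map_one]), map_one, hM, max_eq_right h.le]
    · rw [na_add_eq hf (by rwa [map_one]), hM, max_eq_left h.le]
  have fα : f (A - 1 - p) = M := by rw [na_sub_eq hf (by rwa [e1]), e1]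
  have fβ : f (A + 1 + q) = M := by rw [na_add_eq hf (by rwa [e3]), e3]
  have fγ : f (A - 1 + p) = M := by rw [na_add_eq hf (by rwa [e1]), e1]
  have hM0 : 0 < M := by linarith
  refine ⟨?_, ?_⟩
  · have e : (A - 1 - p) ^ 2 - (A + 1 + q) ^ 2 = (-2 - p - q) * ((A - 1 - p) + (A + 1 + q)) := by
      ring
    rw [e, map_mul, fα]
    have h4 : f (-2 - p - q) < M := by
      apply na_sub_lt hf _ hq
      apply na_sub_lt hf _ hp
      rw [f.map_neg]
      exact lt_of_lt_of_le h2 hM1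
    have h5 : f ((A - 1 - p) + (A + 1 + q)) ≤ M := na_add_le hf fα.le fβ.le
    calc f (-2 - p - q) * f ((A - 1 - p) + (A + 1 + q)) ≤ f (-2 - p - q) * M :=
          mul_le_mul_of_nonneg_left h5 (f.nonneg _)
      _ < M * M := mul_lt_mul_of_pos_right h4 hM0
      _ = M ^ 2 := by ring
  · have e : (A - 1 - p) ^ 2 - (A - 1 + p) ^ 2 = (-(2 * p)) * ((A - 1 - p) + (A - 1 + p)) := by
      ring
    rw [e, map_mul, fα, f.map_neg, map_mul]
    have h5 : f ((A - 1 - p) + (A - 1 + p)) ≤ M := na_add_le hf fα.le fγ.le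
    have h4 : f 2 * f p < M := by
      have : 0 ≤ f p := f.nonneg _
      nlinarith
    have h6 : 0 ≤ f 2 * f p := mul_nonneg (f.nonneg _) (f.nonneg _)
    calc f 2 * f p * f ((A - 1 - p) + (A - 1 + p)) ≤ f 2 * f p * M :=
          mul_le_mul_of_nonneg_left h5 h6
      _ < M * M := mul_lt_mul_of_pos_right h4 hM0
      _ = M ^ 2 := by ring

/-- the case which needs two doublings -/
theorem good_two (h : TwoOn f F) {α β γ p A : L} (hS : Sym φ α β γ)
    (hα : α = A - 1 - p) (hγ : γ = A - 1 + p) (hAF : A ∈ F) (hpF : p ^ 2 ∈ F) (hβF : β ∈ F)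
    (hA1 : f (A - 1) ≤ f 2 ^ 2) (hp : f p ^ 2 = f 2 ^ 3) (hβ : f β = f 2)
    (hN : β ^ 2 * α ^ 2 + β ^ 2 * γ ^ 2 - α ^ 2 * γ ^ 2 ≠ 0) : GoodS f φ α β γ := by
  have p2 := h.p2
  have hlt := h.lt
  have pp : 0 < f p := by
    rcases (f.nonneg p).lt_or_eq with h1 | h1
    · exact h1
    · rw [← h1] at hp
      have : 0 < f 2 ^ 3 := by positivity
      linarith
  have hp1 : f p < 1 := by
    by_contra hcon
    push Not at hcon
    have h3 : f 2 ^ 3 < 1 := pow_lt_one₀ p2.le hlt (by norm_num)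
    nlinarith
  have hAp : f (A - 1) < f p := by
    have h3 : f (A - 1) ^ 2 ≤ (f 2 ^ 2) ^ 2 := pow_le_pow_left₀ (f.nonneg _) hA1 2
    have h4 : f (A - 1) ^ 2 < f p ^ 2 := by
      rw [hp]
      calc f (A - 1) ^ 2 ≤ (f 2 ^ 2) ^ 2 := h3
        _ = f 2 * f 2 ^ 3 := by ring
        _ < 1 * f 2 ^ 3 := mul_lt_mul_of_pos_right hlt (by positivity)
        _ = f 2 ^ 3 := one_mul _
    exact lt_of_pow_lt_pow_left₀ 2 pp.le h4
  have fα : f α = f p := by rw [hα, na_sub_eq' h.na hAp]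
  have fγ : f γ = f p := by rw [hγ, add_comm, na_add_eq h.na hAp]
  have hα0 : α ≠ 0 := f.pos_iff.mp (fα ▸ pp)
  have hγ0 : γ ≠ 0 := f.pos_iff.mp (fγ ▸ pp)
  have hβ0 : β ≠ 0 := f.pos_iff.mp (hβ ▸ p2)
  have hp4 : f p ^ 4 = f 2 ^ 6 := by
    calc f p ^ 4 = (f p ^ 2) ^ 2 := by ring
      _ = f 2 ^ 6 := by rw [hp]; ring
  have hden : f 2 * f p * f 2 * f p = f 2 ^ 5 := by
    calc f 2 * f p * f 2 * f p = f 2 ^ 2 * f p ^ 2 := by ring
      _ = f 2 ^ 5 := by rw [hp]; ring
  -- the difference of the squares of the outer entries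
  have hdiff : f (β ^ 2 * (α ^ 2 - γ ^ 2)) < f (α ^ 2 * γ ^ 2) := by
    have e : β ^ 2 * (α ^ 2 - γ ^ 2) = β ^ 2 * (-(2 * 2 * (p * (A - 1)))) := by
      rw [hα, hγ]; ring
    rw [e, map_mul, f.map_neg, map_mul, map_mul, map_mul, map_mul, abv_sq, abv_sq, abv_sq, fα, fγ,
      hβ]
    calc f 2 ^ 2 * (f 2 * f 2 * (f p * f (A - 1))) = f 2 ^ 4 * f p * f (A - 1) := by ring
      _ ≤ f 2 ^ 4 * f p * f 2 ^ 2 := mul_le_mul_of_nonneg_left hA1 (by positivity)
      _ = f 2 ^ 6 * f p := by ring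
      _ < f 2 ^ 6 * 1 := mul_lt_mul_of_pos_left hp1 (by positivity)
      _ = f p ^ 2 * f p ^ 2 := by rw [mul_one, ← hp4]; ring
  have hmain : f (α ^ 2 * γ ^ 2) = f 2 ^ 6 := by
    rw [map_mul, abv_sq, abv_sq, fα, fγ, ← hp4]; ring
  have d1 : f (dbl α β γ) = f 2 := by
    have e : α ^ 2 * β ^ 2 + α ^ 2 * γ ^ 2 - β ^ 2 * γ ^ 2 =
        α ^ 2 * γ ^ 2 + β ^ 2 * (α ^ 2 - γ ^ 2) := by ring
    unfold dbl
    rw [e, map_div₀, na_add_eq h.na hdiff, hmain, map_mul, map_mul, map_mul, fα, fγ, hβ, hden]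
    field_simp
  have d3 : f (dbl γ α β) = f 2 := by
    have e : γ ^ 2 * α ^ 2 + γ ^ 2 * β ^ 2 - α ^ 2 * β ^ 2 =
        α ^ 2 * γ ^ 2 - β ^ 2 * (α ^ 2 - γ ^ 2) := by ring
    unfold dbl
    rw [e, map_div₀, na_sub_eq h.na hdiff, hmain, map_mul, map_mul, map_mul, fα, fγ, hβ]
    rw [show f 2 * f p * f p * f 2 = f 2 * f p * f 2 * f p by ring, hden]
    field_simp
  have hS1 : f (α ^ 2 + γ ^ 2) = f 2 ^ 4 := by
    have e : α ^ 2 + γ ^ 2 = 2 * p ^ 2 + 2 * (A - 1) ^ 2 := by rw [hα, hγ]; ring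
    rw [e, na_add_eq h.na, map_mul, abv_sq, hp]
    · ring
    · rw [map_mul, map_mul, abv_sq, abv_sq]
      apply mul_lt_mul_of_pos_left _ p2
      exact pow_lt_pow_left₀ hAp (f.nonneg _) two_ne_zero
  have hS2 : f (α * γ) = f 2 ^ 3 := by rw [map_mul, fα, fγ, ← hp]; ring
  have hq1 : α ^ 2 + γ ^ 2 ∈ F := by
    have e : α ^ 2 + γ ^ 2 = 2 * p ^ 2 + 2 * (A - 1) ^ 2 := by rw [hα, hγ]; ring
    rw [e]
    exact F.add_mem (F.mul_mem two_mem hpF)
      (F.mul_mem two_mem (F.pow_mem (F.sub_mem hAF F.one_mem) 2))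
  have hq2 : α * γ ∈ F := by
    have e : α * γ = (A - 1) ^ 2 - p ^ 2 := by rw [hα, hγ]; ring
    rw [e]
    exact F.sub_mem (F.pow_mem (F.sub_mem hAF F.one_mem) 2) hpF
  have hqF : β ^ 2 * (α ^ 2 + γ ^ 2) / (α * γ) ^ 2 ∈ F :=
    F.div_mem (F.mul_mem (F.pow_mem hβF 2) hq1) (F.pow_mem hq2 2)
  have hq : f (β ^ 2 * (α ^ 2 + γ ^ 2) / (α * γ) ^ 2) = 1 := by
    rw [map_div₀, map_mul, abv_sq, abv_sq, hβ, hS1, hS2]
    field_simp
  have hN2 : f (β ^ 2 * α ^ 2 + β ^ 2 * γ ^ 2 - α ^ 2 * γ ^ 2) ≤ f 2 ^ 7 := by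
    have e : β ^ 2 * α ^ 2 + β ^ 2 * γ ^ 2 - α ^ 2 * γ ^ 2 =
        (α * γ) ^ 2 * (β ^ 2 * (α ^ 2 + γ ^ 2) / (α * γ) ^ 2 - 1) := by
      field_simp
    rw [e, map_mul, abv_sq, hS2]
    calc (f 2 ^ 3) ^ 2 * _ ≤ (f 2 ^ 3) ^ 2 * f 2 :=
          mul_le_mul_of_nonneg_left (h.unit hqF hq) (by positivity)
      _ = f 2 ^ 7 := by ring
  have d2 : f (dbl β α γ) < f 2 := by
    unfold dbl
    rw [map_div₀, map_mul, map_mul, map_mul, fα, fγ, hβ]
    rw [show f 2 * f 2 * f p * f p = f 2 * f p * f 2 * f p by ring, hden, div_lt_iff₀ (by positivity)]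
    calc _ ≤ f 2 ^ 7 := hN2
      _ = f 2 * f 2 ^ 6 := by ring
      _ < 1 * f 2 ^ 6 := mul_lt_mul_of_pos_right hlt (by positivity)
      _ = f 2 * f 2 ^ 5 := by ring
  have d20 : dbl β α γ ≠ 0 := by
    unfold dbl
    exact div_ne_zero hN (mul_ne_zero (mul_ne_zero (mul_ne_zero h.pos hβ0) hα0) hγ0)
  have d10 : dbl α β γ ≠ 0 := f.pos_iff.mp (d1 ▸ p2)
  have d30 : dbl γ α β ≠ 0 := f.pos_iff.mp (d3 ▸ p2)
  refine GoodS.of_dbl h.pos hα0 hβ0 hγ0 (GoodS.of_dbl h.pos d10 d20 d30 ?_)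
  exact GoodS.of_big hS.dbl.dbl (big_dbl_of_mid h.na h.lt h.pos d20 (by rw [d1]; exact d2)
    (by rw [d1, d3]))

/-- The `2`-adic heart of the third family. -/
theorem cfam_core (h : TwoOn f F) (hφ : ∀ x ∈ F, φ x = x) {A s κ t lam g ξ : L}
    (hAF : A ∈ F) (hsF : s ∈ F) (hκF : κ ∈ F) (htF : t ∈ F) (hlF : lam ∈ F) (hgF : g ∈ F)
    (hξ : ξ ^ 2 = 2 * A) (hφξ : φ ξ = -ξ) (hκ : κ ^ 2 = 1 + 2 * s)
    (ht : t ^ 2 = A * s * (1 + 2 * s)) (hg : g * (2 * A) = lam ^ 2) (hlam : lam ≠ 0)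
    (hk0 : κ = 0 → ∃ m ∈ F, g = -m ^ 2) (ram : ∀ x ∈ F, f 2 ^ 2 < f (g * x ^ 2 - 1))
    (hA0 : A ≠ 0) (hA1 : A ≠ 1) (hAm : A ≠ -1) :
    GoodS f φ (A - 1 - 2 * ξ * (1 + s)) (A + 1 + 2 * t) (A - 1 + 2 * ξ * (1 + s)) ∨
    GoodS f φ (A - 1 - 2 * ξ * (1 + s)) (A + 1 + 2 * (-t)) (A - 1 + 2 * ξ * (1 + s)) := by
  have p2 := h.p2
  have hlt := h.lt
  have pA : 0 < f A := f.pos hA0
  have hg0 : g ≠ 0 := by
    rintro rfl
    apply hlam
    have : lam ^ 2 = 0 := by rw [← hg]; ring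
    exact pow_eq_zero_iff two_ne_zero |>.mp this
  have hSym : ∀ t ∈ F, Sym φ (A - 1 - 2 * ξ * (1 + s)) (A + 1 + 2 * t)
      (A - 1 + 2 * ξ * (1 + s)) := by
    intro t ht
    refine ⟨?_, ?_, ?_⟩
    · rw [map_sub, map_sub, map_mul, map_mul, map_add, hφξ, hφ A hAF, hφ s hsF, map_one, map_ofNat]
      ring
    · rw [map_add, map_sub, map_mul, map_mul, map_add, hφξ, hφ A hAF, hφ s hsF, map_one, map_ofNat]
      ring
    · rw [map_add, map_add, map_mul, hφ A hAF, hφ t ht, map_one, map_ofNat]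
  have hfξ : f ξ ^ 2 = f 2 * f A := by rw [← abv_sq, hξ, map_mul]
  have hft : f t ^ 2 = f A * f s * f κ ^ 2 := by
    rw [← abv_sq, ht, ← hκ, map_mul, map_mul, abv_sq]
  have hM : ∀ r : ℝ, r ^ 2 < f A → 0 ≤ r → r < max (f A) 1 := by
    intro r hr hr0
    have h1 : (1 : ℝ) ≤ max (f A) 1 := le_max_right _ _
    have h3 : f A ≤ max (f A) 1 := le_max_left _ _
    have h4 : r ^ 2 < (max (f A) 1) ^ 2 := by nlinarith
    exact lt_of_pow_lt_pow_left₀ 2 (by linarith) h4
  have hfp : f (2 * ξ * (1 + s)) ^ 2 = f 2 ^ 3 * f A * f (1 + s) ^ 2 := by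
    rw [map_mul, map_mul, mul_pow, mul_pow, hfξ]; ring
  rcases lt_trichotomy (f κ) 1 with hk | hk | hk
  · -- `|2 s| = 1`
    have hκ2 := h.small hκF hk
    have h2s : f (2 * s) = 1 := by
      have e : 2 * s = κ ^ 2 - 1 := by rw [hκ]; ring
      rw [e, na_sub_eq' h.na, map_one]
      rw [abv_sq, map_one]
      exact pow_lt_one₀ (f.nonneg _) hk two_ne_zero
    have hs : f s = (f 2)⁻¹ := by
      rw [map_mul] at h2s
      field_simp; linarith
    have hs1 : 1 < f s := by rw [hs]; exact (one_lt_inv₀ p2).mpr hlt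
    have h1s : f (1 + s) = (f 2)⁻¹ := by
      rw [add_comm, na_add_eq h.na (by rwa [map_one]), hs]
    have hA1' : f A ≠ 1 := by
      intro hA
      by_cases hκ0 : κ = 0
      · obtain ⟨m, hm, hgm⟩ := hk0 hκ0
        have hm0 : m ≠ 0 := by rintro rfl; apply hg0; rw [hgm]; ring
        apply h.nosq hlF hm hm0
        rw [← abv_sq, ← hg, hgm, map_mul, map_mul, f.map_neg, abv_sq, hA]; ring
      · have ht0 : t ≠ 0 := by
          rintro rfl
          have hs0 : s ≠ 0 := by rintro rfl; rw [map_zero] at hs1; linarith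
          have : A * s * κ ^ 2 = 0 := by rw [hκ, ← ht]; ring
          exact mul_ne_zero (mul_ne_zero hA0 hs0) (pow_ne_zero 2 hκ0) this
        apply h.nosq hκF htF ht0
        rw [hft, hA, hs]; field_simp
    left
    apply GoodS.of_big (hSym t htF)
    apply big_of_ne h.na hlt hA1'
    · apply hM _ _ (f.nonneg _)
      rw [hfp, h1s]
      calc f 2 ^ 3 * f A * (f 2)⁻¹ ^ 2 = f 2 * f A := by field_simp
        _ < 1 * f A := mul_lt_mul_of_pos_right hlt pA
        _ = f A := one_mul _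
    · apply hM _ _ (f.nonneg _)
      have hk2 : f κ ^ 2 ≤ 1 := pow_le_one₀ (f.nonneg _) hk.le
      rw [map_mul, mul_pow, hft, hs]
      calc f 2 ^ 2 * (f A * (f 2)⁻¹ * f κ ^ 2) = f 2 * f A * f κ ^ 2 := by field_simp
        _ ≤ f 2 * f A * 1 := mul_le_mul_of_nonneg_left hk2 (by positivity)
        _ < 1 * f A * 1 := by
            apply mul_lt_mul_of_pos_right _ one_pos
            exact mul_lt_mul_of_pos_right hlt pA
        _ = f A := by ring
  · -- `|s| ≤ |4|`
    have hs : f s ≤ f 2 ^ 2 := by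
      have h1 := h.sq_unit hκF hk
      have e : κ ^ 2 - 1 = 2 * s := by rw [hκ]; ring
      rw [e, map_mul] at h1
      have h3 : f 2 * f s ≤ f 2 * f 2 ^ 2 := by
        calc _ ≤ f 2 ^ 3 := h1
          _ = _ := by ring
      exact le_of_mul_le_mul_left h3 p2
    have h1s : f (1 + s) = 1 := by
      rw [na_add_eq h.na, map_one]
      rw [map_one]
      exact lt_of_le_of_lt hs (pow_lt_one₀ p2.le hlt two_ne_zero)
    rw [h1s] at hfp
    rw [hk] at hft
    by_cases hA : f A = 1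
    · rw [hA] at hft hfp
      have hp2 : f (2 * ξ * (1 + s)) ^ 2 = f 2 ^ 3 := by rw [hfp]; ring
      have ht2 : f (2 * t) ≤ f 2 ^ 2 := by
        have h5 : f t ^ 2 ≤ f 2 ^ 2 := by rw [hft]; linarith
        have h6 : f t ≤ f 2 := le_of_pow_le_pow_left₀ two_ne_zero p2.le h5
        rw [map_mul]
        calc f 2 * f t ≤ f 2 * f 2 := mul_le_mul_of_nonneg_left h6 p2.le
          _ = f 2 ^ 2 := by ring
      have h22 : f 2 ^ 2 < f 2 := by nlinarith
      rcases h.half hAF hA with hh | ⟨hh, hh'⟩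
      · -- `A ≡ 1 mod 4`: two doublings
        have hAp1 : f (A + 1) = f 2 := by
          have e : A + 1 = 2 + (A - 1) := by ring
          rw [e, na_add_eq h.na]
          exact lt_of_le_of_lt hh h22
        have hβ : ∀ t' : L, f (2 * t') ≤ f 2 ^ 2 → f (A + 1 + 2 * t') = f 2 := by
          intro t' ht'
          rw [na_add_eq h.na, hAp1]
          rw [hAp1]; exact lt_of_le_of_lt ht' h22
        have hpF : (2 * ξ * (1 + s)) ^ 2 ∈ F := by
          have e : (2 * ξ * (1 + s)) ^ 2 = 2 ^ 3 * A * (1 + s) ^ 2 := by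
            rw [mul_pow, mul_pow, hξ]; ring
          rw [e]
          exact F.mul_mem (F.mul_mem (F.pow_mem two_mem 3) hAF)
            (F.pow_mem (F.add_mem F.one_mem hsF) 2)
        have hβF : ∀ t' ∈ F, A + 1 + 2 * t' ∈ F := fun t' ht' =>
          F.add_mem (F.add_mem hAF F.one_mem) (F.mul_mem two_mem ht')
        by_cases hN : (A + 1 + 2 * t) ^ 2 * (A - 1 - 2 * ξ * (1 + s)) ^ 2 +
            (A + 1 + 2 * t) ^ 2 * (A - 1 + 2 * ξ * (1 + s)) ^ 2 -
            (A - 1 - 2 * ξ * (1 + s)) ^ 2 * (A - 1 + 2 * ξ * (1 + s)) ^ 2 = 0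
        · right
          apply good_two h (hSym (-t) (F.neg_mem htF)) rfl rfl hAF hpF (hβF _ (F.neg_mem htF)) hh
            hp2 (hβ (-t) (by rw [mul_neg, f.map_neg]; exact ht2))
          intro hN'
          have hsub : t * ((A + 1) * (2 ^ 4 * ((A - 1) ^ 2 + 2 ^ 3 * A * (1 + s) ^ 2))) = 0 := by
            linear_combination hN - hN' - 64 * (1 + s) ^ 2 * (A + 1) * t * hξ
          have hne : (A - 1) ^ 2 + 2 ^ 3 * A * (1 + s) ^ 2 ≠ 0 := by
            have h5 : f (2 ^ 3 * A * (1 + s) ^ 2 + (A - 1) ^ 2) = f 2 ^ 3 := by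
              rw [na_add_eq h.na, map_mul, map_mul, abv_sq, h1s, hA, map_pow]
              · ring
              · rw [map_mul, map_mul, abv_sq, abv_sq, h1s, hA, map_pow]
                calc f (A - 1) ^ 2 ≤ (f 2 ^ 2) ^ 2 := pow_le_pow_left₀ (f.nonneg _) hh 2
                  _ = f 2 * f 2 ^ 3 := by ring
                  _ < 1 * f 2 ^ 3 := mul_lt_mul_of_pos_right hlt (by positivity)
                  _ = f 2 ^ 3 * 1 * 1 ^ 2 := by ring
            intro h0
            rw [add_comm, h0, map_zero] at h5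
            have : 0 < f 2 ^ 3 := by positivity
            linarith
          have hAp0 : A + 1 ≠ 0 := by
            intro h0; apply hAm; linear_combination h0
          have h24 : (2 : L) ^ 4 ≠ 0 := pow_ne_zero 4 h.pos
          have ht0 : t = 0 :=
            (mul_eq_zero.mp hsub).resolve_right (mul_ne_zero hAp0 (mul_ne_zero h24 hne))
          have hκ0 : κ ≠ 0 := by
            rintro rfl
            rw [map_zero] at hk; exact zero_ne_one hk
          have hs0 : s = 0 := by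
            have h5 : A * s * κ ^ 2 = 0 := by rw [hκ, ← ht, ht0]; ring
            have h6 := (mul_eq_zero.mp h5).resolve_right (pow_ne_zero 2 hκ0)
            exact (mul_eq_zero.mp h6).resolve_left hA0
          rw [ht0, hs0] at hN
          have hfac : (A - 1) ^ 2 * ((A + 19) ^ 2 - 360) = 0 := by
            linear_combination hN - (8 * (A + 1) ^ 2 + 8 * (A - 1) ^ 2 - 16 * ξ ^ 2 - 32 * A) * hξ
          have h7 := (mul_eq_zero.mp hfac).resolve_left
            (pow_ne_zero 2 (by intro h0; apply hA1; linear_combination h0))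
          have h45 : f 45 = 1 := by
            have e : (45 : L) = 1 + 2 * 22 := by norm_num
            rw [e, na_add_eq h.na, map_one]
            rw [map_one, map_mul]
            have h8 : f 22 ≤ 1 := by
              have := h.na.apply_natCast_le_one (n := 22)
              simpa using this
            nlinarith
          have h19 : (19 : L) ∈ F := by
            have := natCast_mem F 19
            simpa using this
          apply h.nosq (F.add_mem hAF h19) two_mem h.pos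
          rw [← abv_sq]
          have e : (A + 19) ^ 2 = 2 ^ 3 * 45 := by linear_combination h7
          rw [e, map_mul, h45, map_pow]; ring
        · left
          exact good_two h (hSym t htF) rfl rfl hAF hpF (hβF _ htF) hh hp2 (hβ t ht2) hN
      · -- `A ≡ -1 mod 4`
        have hpl : f (2 * ξ * (1 + s)) < f 2 := by
          have h5 : f (2 * ξ * (1 + s)) ^ 2 < f 2 ^ 2 := by
            rw [hp2]
            calc f 2 ^ 3 = f 2 * f 2 ^ 2 := by ring
              _ < 1 * f 2 ^ 2 := mul_lt_mul_of_pos_right hlt (by positivity)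
              _ = f 2 ^ 2 := one_mul _
          exact lt_of_pow_lt_pow_left₀ 2 p2.le h5
        have fα : f (A - 1 - 2 * ξ * (1 + s)) = f 2 := by
          rw [na_sub_eq h.na (by rwa [hh]), hh]
        have fγ : f (A - 1 + 2 * ξ * (1 + s)) = f 2 := by
          rw [na_add_eq h.na (by rwa [hh]), hh]
        have hα0 : A - 1 - 2 * ξ * (1 + s) ≠ 0 := f.pos_iff.mp (fα ▸ p2)
        have hγ0 : A - 1 + 2 * ξ * (1 + s) ≠ 0 := f.pos_iff.mp (fγ ▸ p2)
        have main : ∀ t' ∈ F, f (2 * t') ≤ f 2 ^ 2 → A + 1 + 2 * t' ≠ 0 →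
            GoodS f φ (A - 1 - 2 * ξ * (1 + s)) (A + 1 + 2 * t') (A - 1 + 2 * ξ * (1 + s)) := by
          intro t' ht'F ht' hne
          refine GoodS.of_dbl h.pos hα0 hne hγ0 (GoodS.of_big (hSym t' ht'F).dbl ?_)
          apply big_dbl_of_mid h.na h.lt h.pos hne
          · rw [fα]
            exact lt_of_le_of_lt (na_add_le h.na hh' ht') h22
          · rw [fα, fγ]
        by_cases hβ : A + 1 + 2 * t = 0
        · right
          apply main (-t) (F.neg_mem htF) (by rw [mul_neg, f.map_neg]; exact ht2)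
          intro h0
          apply hAm
          have h5 : 2 * (A + 1) = 0 := by linear_combination hβ + h0
          have h6 := (mul_eq_zero.mp h5).resolve_left h.pos
          linear_combination h6
        · left
          exact main t htF ht2 hβ
    · left
      apply GoodS.of_big (hSym t htF)
      apply big_of_ne h.na hlt hA
      · apply hM _ _ (f.nonneg _)
        rw [hfp]
        calc f 2 ^ 3 * f A * 1 ^ 2 = f 2 ^ 3 * f A := by ring
          _ < 1 * f A := mul_lt_mul_of_pos_right (pow_lt_one₀ p2.le hlt (by norm_num)) pA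
          _ = f A := one_mul _
      · apply hM _ _ (f.nonneg _)
        rw [map_mul, mul_pow, hft]
        have h5 : f s < 1 := lt_of_le_of_lt hs (pow_lt_one₀ p2.le hlt two_ne_zero)
        have h6 : f 2 ^ 2 < 1 := pow_lt_one₀ p2.le hlt two_ne_zero
        have h7 : 0 ≤ f s := f.nonneg _
        calc f 2 ^ 2 * (f A * f s * 1 ^ 2) = f A * (f 2 ^ 2 * f s) := by ring
          _ < f A * 1 := by
              apply mul_lt_mul_of_pos_left _ pA
              nlinarith
          _ = f A := mul_one _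
  · -- `|2 s| > 1` contradicts ramification
    exfalso
    have h2s : f (2 * s) = f κ ^ 2 := by
      have e : 2 * s = κ ^ 2 - 1 := by rw [hκ]; ring
      rw [e, na_sub_eq h.na, abv_sq]
      rw [abv_sq, map_one]
      exact one_lt_pow₀ hk two_ne_zero
    have hs0 : s ≠ 0 := by
      rintro rfl
      rw [mul_zero, map_zero] at h2s
      have : 0 < f κ ^ 2 := by positivity
      linarith
    have hκ0 : κ ≠ 0 := by
      rintro rfl
      rw [map_zero] at hk; linarith
    have ht0 : t ≠ 0 := by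
      rintro rfl
      have : A * s * κ ^ 2 = 0 := by rw [hκ, ← ht]; ring
      exact mul_ne_zero (mul_ne_zero hA0 hs0) (pow_ne_zero 2 hκ0) this
    have hx : κ * (κ * A) / (t * lam) ∈ F :=
      F.div_mem (F.mul_mem hκF (F.mul_mem hκF hAF)) (F.mul_mem htF hlF)
    have hr := ram _ hx
    have e : g * (κ * (κ * A) / (t * lam)) ^ 2 - 1 = (2 * s)⁻¹ := by
      have e1 : g = lam ^ 2 / (2 * A) := by
        rw [eq_div_iff (mul_ne_zero h.pos hA0)]; exact hg
      have h20 := h.pos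
      have e3 : (κ * (κ * A) / (t * lam)) ^ 2 = κ ^ 4 * A ^ 2 / (t ^ 2 * lam ^ 2) := by
        rw [div_pow]; ring
      rw [e3, ht, ← hκ, e1]
      field_simp
      linear_combination hκ
    rw [e, map_inv₀, h2s] at hr
    have hinv : κ⁻¹ ∈ F := F.inv_mem hκF
    have h5 : f κ⁻¹ < 1 := by rw [map_inv₀]; exact inv_lt_one_of_one_lt₀ hk
    have h6 := h.small hinv h5
    rw [map_inv₀] at h6
    have h7 : (f κ)⁻¹ ^ 2 ≤ f 2 ^ 2 := pow_le_pow_left₀ (inv_nonneg.mpr (f.nonneg _)) h6 2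
    rw [inv_pow] at h7
    linarith

end Run7.h587
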