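import Pool.Agent.Run7.h587.CPoint
import Pool.Agent.Run7.h587.TwoNF

set_option autoImplicit false

open NumberField IsDedekindDomain

namespace Run7.h587

section

universe u

variable {K : Type u} [Field K] [NumberField K]

/-- a prime of an extension above a given prime -/
theorem exists_above (L : Type*) [Field L] [NumberField L] [Algebra K L]
    (P : HeightOneSpectrum (𝓞 K)) : ∃ (Q : HeightOneSpectrum (𝓞 L)) (e : ℕ), e ≠ 0 ∧
      ∀ x : K, P.valuation K x ^ e = Q.valuation L (algebraMap K L x) := by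
  obtain ⟨⟨Q, hQ, hQP⟩⟩ := P.asIdeal.nonempty_primesOver (S := 𝓞 L)
  have hQ0 : Q ≠ ⊥ := Ideal.ne_bot_of_liesOver_of_ne_bot P.ne_bot Q
  let w : HeightOneSpectrum (𝓞 L) := ⟨Q, hQ, hQ0⟩
  have hw : w.asIdeal.LiesOver P.asIdeal := hQP
  refine ⟨w, _, ?_, fun x => HeightOneSpectrum.valuation_liesOver L P w x⟩
  exact Ideal.IsDedekindDomain.ramificationIdx'_ne_zero_of_liesOver w.asIdeal P.ne_bot

theorem pabv_above_lt {L : Type*} [Field L] [NumberField L] [Algebra K L]
    {P : HeightOneSpectrum (𝓞 K)} {Q : HeightOneSpectrum (𝓞 L)} {e : ℕ} (he : e ≠ 0)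
    (h : ∀ x : K, P.valuation K x ^ e = Q.valuation L (algebraMap K L x)) {x y : K} :
    pabv Q (algebraMap K L x) < pabv Q (algebraMap K L y) ↔ pabv P x < pabv P y := by
  rw [pabv_lt_iff, pabv_lt_iff, ← h, ← h]
  exact pow_lt_pow_iff_left₀ zero_le zero_le he

theorem twoOn_above {L : Type*} [Field L] [NumberField L] [Algebra K L]
    {P : HeightOneSpectrum (𝓞 K)} {Q : HeightOneSpectrum (𝓞 L)} {e : ℕ} (he : e ≠ 0)
    (h : ∀ x : K, P.valuation K x ^ e = Q.valuation L (algebraMap K L x))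
    (hT : TwoLike (pabv P)) : TwoOn (pabv Q) (algebraMap K L).fieldRange := by
  refine ⟨pabv_na Q, ?_, two_ne_zero, ?_⟩
  · have h1 : pabv P 2 < pabv P 1 := by rw [map_one]; exact hT.lt
    rw [← pabv_above_lt he h, map_ofNat, map_one, map_one] at h1
    exact h1
  · rintro _ ⟨x, rfl⟩ hx
    have h1 : pabv P x ≤ 1 := by
      by_contra hcon
      push Not at hcon
      have h3 : pabv P 1 < pabv P x := by rw [map_one]; exact hcon
      rw [← pabv_above_lt he h, map_one, map_one] at h3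
      linarith
    rcases hT.unif x h1 with h3 | h3
    · left
      by_contra hcon
      push Not at hcon
      have h5 : (2 : L) = algebraMap K L 2 := (map_ofNat _ 2).symm
      rw [h5, pabv_above_lt he h] at hcon
      linarith
    · right
      by_contra hcon
      push Not at hcon
      have h5 : (2 : L) = algebraMap K L 2 := (map_ofNat _ 2).symm
      have h7 : algebraMap K L x - 1 = algebraMap K L (x - 1) := by rw [map_sub, map_one]
      rw [h5, h7, pabv_above_lt he h] at hcon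
      linarith

theorem quadExt_exists {g : K} (hnsq : ∀ r : K, r ^ 2 ≠ g) :
    ∃ (L : Type u) (_ : Field L) (_ : NumberField L) (_ : Algebra K L) (n : L) (φ : L →+* L),
      QuadExt K L (algebraMap K L) g n φ := by
  have hF : Fact (∀ r : K, r ^ 2 ≠ g + 0 * r) := ⟨fun r => by rw [zero_mul, add_zero]; exact hnsq r⟩
  have hNF : NumberField (QuadraticAlgebra K g 0) :=
    NumberField.of_module_finite K (QuadraticAlgebra K g 0)
  refine ⟨QuadraticAlgebra K g 0, inferInstance, hNF, inferInstance, ⟨0, 1⟩,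
    starRingEnd (QuadraticAlgebra K g 0), ?_, ?_, ?_, ?_, ?_⟩
  · rw [sq]
    ext <;> simp
  · intro a
    rw [starRingEnd_apply]
    ext <;> simp
  · rw [starRingEnd_apply]
    ext <;> simp
  · rintro ⟨a, b⟩
    refine ⟨a, b, ?_⟩
    ext <;> simp
  · intro a b h
    have h1 := congrArg QuadraticAlgebra.re h
    have h3 := congrArg QuadraticAlgebra.im h
    simp at h1 h3
    exact ⟨h1, h3⟩

theorem cfam_nf {P : HeightOneSpectrum (𝓞 K)} (h2 : (2 : 𝓞 K) ∈ P.asIdeal)
    (he : P.asIdeal.ramificationIdx ℤ = 1) (hf : P.asIdeal.inertiaDeg ℤ = 1)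
    {g c : K} (hg : g ≠ 0) (hc : c ≠ 0)
    (ram : ∀ x : K, P.valuation K 4 < P.valuation K (g * x ^ 2 - 1))
    (h4 : ∀ m : K, m ^ 4 ≠ -(2 * g)) {x y z w : K} (hx : x ≠ 0) (hy : y ≠ 0)
    (hzw : z ≠ 0 ∨ w ≠ 0)
    (heq : x ^ 4 - 2 * g * y ^ 4 = c * (z ^ 4 + g ^ 2 * w ^ 4)) : InfC g c x := by
  have hnsq : ∀ r : K, r ^ 2 ≠ g := by
    intro r hr
    have hr0 : r ≠ 0 := by rintro rfl; apply hg; rw [← hr]; ring
    have h1 := ram r⁻¹
    have e : g * r⁻¹ ^ 2 - 1 = 0 := by rw [← hr]; field_simp; ring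
    rw [e, map_zero] at h1
    exact absurd h1 (not_lt.mpr zero_le)
  obtain ⟨L, _, _, _, n, φ, hq⟩ := quadExt_exists hnsq
  obtain ⟨Q, e, he0, hv⟩ := exists_above L P
  have hT := twoOn_above he0 hv (twoLike_of_prime h2 he hf)
  refine infC_point hT hq hg hnsq ?_ h4 hc hx hy hzw heq
  rintro _ ⟨x, rfl⟩
  have h1 := ram x
  rw [← pabv_lt_iff, ← pabv_above_lt he0 hv] at h1
  have e4 : pabv Q 2 ^ 2 = pabv Q (algebraMap K L 4) := by
    have e6 : (algebraMap K L 4) = 2 ^ 2 := by rw [map_ofNat]; norm_num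
    rw [e6, abv_sq]
  have e5 : algebraMap K L g * algebraMap K L x ^ 2 - 1 = algebraMap K L (g * x ^ 2 - 1) := by
    rw [map_sub, map_mul, map_pow, map_one]
  rw [e4, e5]
  exact h1

end

end Run7.h587
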