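import Pool.Agent.Run7.h587.CCore

set_option autoImplicit false

namespace Run7.h587

/-- a quadratic extension with its involution -/
structure QuadExt (K L : Type*) [Field K] [Field L] (i : K →+* L) (g : K) (n : L)
    (φ : L →+* L) : Prop where
  sq : n ^ 2 = i g
  fix : ∀ a : K, φ (i a) = i a
  neg : φ n = -n
  dec : ∀ x : L, ∃ a b : K, x = i a + n * i b
  uniq : ∀ a b : K, i a + n * i b = 0 → a = 0 ∧ b = 0

section

variable {K L : Type*} [Field K] [Field L] [CharZero K] {i : K →+* L} {g : K} {n : L}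
  {φ : L →+* L}

theorem QuadExt.of_fix (h : QuadExt K L i g n φ) {x : L} (hx : φ x = x) : ∃ a : K, x = i a := by
  obtain ⟨a, b, rfl⟩ := h.dec x
  rw [map_add, map_mul, h.fix, h.fix, h.neg] at hx
  have h1 : i 0 + n * i (2 * b) = 0 := by
    rw [map_zero, map_mul, map_ofNat]
    linear_combination -hx
  have h3 := (h.uniq _ _ h1).2
  have hb : b = 0 := (mul_eq_zero.mp h3).resolve_left two_ne_zero
  exact ⟨a, by rw [hb]; simp⟩

omit [CharZero K] in
theorem QuadExt.inj (h : QuadExt K L i g n φ) {a b a' b' : K}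
    (e : i a + n * i b = i a' + n * i b') : a = a' ∧ b = b' := by
  have h1 : i (a - a') + n * i (b - b') = 0 := by
    rw [map_sub, map_sub]; linear_combination e
  have := h.uniq _ _ h1
  exact ⟨sub_eq_zero.mp this.1, sub_eq_zero.mp this.2⟩

/-- infinitely many solutions of `x⁴ - 2 g y⁴ = c (z⁴ + g² w⁴)` with the given `x` -/
def InfC (g c x : K) : Prop :=
  {v : Fin 4 → K | v 0 = x ∧ v 0 ^ 4 - 2 * g * v 1 ^ 4 = c * (v 2 ^ 4 + g ^ 2 * v 3 ^ 4)}.Infinite

/-- from a good triple to infinitely many points -/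
theorem infC_of_good {f : AbsoluteValue L ℝ} (hf : IsNonarchimedean f) (h2 : f 2 < 1)
    (hq : QuadExt K L i g n φ) (hg : g ≠ 0) {c x y z w : K} (hy : y ≠ 0)
    (hδ : z ^ 2 - g * w ^ 2 ≠ 0) (hF : x ^ 4 - 2 * g * y ^ 4 ≠ 0)
    (heq : x ^ 4 - 2 * g * y ^ 4 = c * (z ^ 4 + g ^ 2 * w ^ 4))
    (hG : GoodS f φ
      (i (x ^ 4 / (2 * g * y ^ 4)) - 1 - 2 * (i (x ^ 2 / y ^ 2) / n) *
        (1 + i (2 * g * (z * w) ^ 2 / (z ^ 2 - g * w ^ 2) ^ 2)))
      (i (x ^ 4 / (2 * g * y ^ 4)) + 1 +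
        2 * i (x ^ 2 / y ^ 2 * (z * w * (z ^ 2 + g * w ^ 2)) / (z ^ 2 - g * w ^ 2) ^ 2))
      (i (x ^ 4 / (2 * g * y ^ 4)) - 1 + 2 * (i (x ^ 2 / y ^ 2) / n) *
        (1 + i (2 * g * (z * w) ^ 2 / (z ^ 2 - g * w ^ 2) ^ 2)))) : InfC g c x := by
  have h20 : (2 : L) ≠ 0 := by
    have : i 2 ≠ 0 := (map_ne_zero i).mpr two_ne_zero
    rwa [map_ofNat] at this
  have hn : n ≠ 0 := by
    rintro rfl
    have := hq.sq
    rw [zero_pow two_ne_zero] at this
    exact hg ((map_eq_zero i).mp this.symm)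
  have hgi : i g ≠ 0 := (map_ne_zero i).mpr hg
  have hyi : i y ≠ 0 := (map_ne_zero i).mpr hy
  have hδi : i z ^ 2 - i g * i w ^ 2 ≠ 0 := by
    have := (map_ne_zero i).mpr hδ
    rwa [map_sub, map_mul, map_pow, map_pow] at this
  set A := x ^ 4 / (2 * g * y ^ 4) with hA
  set s := 2 * g * (z * w) ^ 2 / (z ^ 2 - g * w ^ 2) ^ 2 with hs
  set t := x ^ 2 / y ^ 2 * (z * w * (z ^ 2 + g * w ^ 2)) / (z ^ 2 - g * w ^ 2) ^ 2 with ht
  set ξ := i (x ^ 2 / y ^ 2) / n with hξ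
  have hφξ : φ ξ = -ξ := by
    rw [hξ, map_div₀, hq.fix, hq.neg, div_neg]
  have hgy : i (g * y ^ 2) ≠ 0 := (map_ne_zero i).mpr (mul_ne_zero hg (pow_ne_zero 2 hy))
  have hG' := (hG.neg).smul hgy (hq.fix _)
  set α := i (g * y ^ 2) * (i A - 1 - 2 * ξ * (1 + i s)) with hα
  set β := i (g * y ^ 2) * -(i A + 1 + 2 * i t) with hβ
  set γ := i (g * y ^ 2) * (i A - 1 + 2 * ξ * (1 + i s)) with hγ
  have hS : Sym φ α β γ := by
    refine ⟨?_, ?_, ?_⟩
    · rw [hα, hγ]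
      simp only [map_mul φ, map_sub φ, map_add φ, hq.fix, hφξ, map_one φ, map_ofNat φ]
      ring
    · rw [hα, hγ]
      simp only [map_mul φ, map_sub φ, map_add φ, hq.fix, hφξ, map_one φ, map_ofNat φ]
      ring
    · rw [hβ]
      simp only [map_mul φ, map_neg φ, map_add φ, hq.fix, map_one φ, map_ofNat φ]
  have hinf := hG'.infinite hf h2 h20 hS
  -- the three linear coefficients
  have ea : (i z + n * i w) ^ 2 * (β + γ) =
      i (2 * g * (x ^ 2 * (z * w) - y ^ 2 * (z ^ 2 + g * w ^ 2))) +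
      n * i (2 * (x ^ 2 * (z ^ 2 + g * w ^ 2) - 2 * g * y ^ 2 * (z * w))) := by
    have e1 : β + γ = i (g * y ^ 2) * (2 * ξ * (1 + i s) - 2 - 2 * i t) := by
      rw [hβ, hγ]; ring
    rw [e1, hξ, hs, ht]
    simp only [map_mul, map_div₀, map_pow, map_sub, map_add, map_ofNat]
    rw [← hq.sq] at hδi ⊢
    have h7 : i z - n * i w ≠ 0 := by
      intro h0; apply hδi; linear_combination (i z + n * i w) * h0
    have h8 : i z + n * i w ≠ 0 := by
      intro h0; apply hδi; linear_combination (i z - n * i w) * h0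
    field_simp
    ring
  have eb : γ + α = i ((x ^ 4 - 2 * g * y ^ 4) / y ^ 2) := by
    have e1 : γ + α = i (g * y ^ 2) * (2 * (i A - 1)) := by rw [hα, hγ]; ring
    rw [e1, hA]
    simp only [map_mul, map_div₀, map_pow, map_sub, map_ofNat]
    field_simp
  have hex : ∀ T : SymSet φ (β + γ) (γ + α) (α + β), ∃ T0 : K, i T0 = T ∧ ∃ v : Fin 4 → K,
      (v 0 = x ∧ v 0 ^ 4 - 2 * g * v 1 ^ 4 = c * (v 2 ^ 4 + g ^ 2 * v 3 ^ 4)) ∧
      v 1 ^ 2 = y ^ 2 + (x ^ 4 - 2 * g * y ^ 4) * T0 := by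
    rintro ⟨T, hT, r, s', hr, hs', -, hφs⟩
    obtain ⟨T0, hT0⟩ := hq.of_fix hT
    obtain ⟨s0, hs0⟩ := hq.of_fix hφs
    obtain ⟨z1, w1, hzw⟩ := hq.dec ((i z + n * i w) * r)
    refine ⟨T0, hT0.symm, ![x, y * s0, z1, w1], ⟨rfl, ?_⟩, ?_⟩
    · -- compare the two coordinates
      have h5 : i (z1 ^ 2 + g * w1 ^ 2) + n * i (2 * (z1 * w1)) =
          i (z ^ 2 + g * w ^ 2 + 2 * g * (x ^ 2 * (z * w) - y ^ 2 * (z ^ 2 + g * w ^ 2)) * T0) +
          n * i (2 * (z * w) +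
            2 * (x ^ 2 * (z ^ 2 + g * w ^ 2) - 2 * g * y ^ 2 * (z * w)) * T0) := by
        have e1 : i (z1 ^ 2 + g * w1 ^ 2) + n * i (2 * (z1 * w1)) = (i z1 + n * i w1) ^ 2 := by
          simp only [map_mul, map_pow, map_add, map_ofNat]
          rw [← hq.sq]; ring
        rw [e1, ← hzw, mul_pow, hr, hT0]
        have e2 : (i z + n * i w) ^ 2 * (1 + (β + γ) * i T0) =
            (i z + n * i w) ^ 2 + ((i z + n * i w) ^ 2 * (β + γ)) * i T0 := by ring
        rw [e2, ea]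
        simp only [map_mul, map_pow, map_add, map_sub, map_ofNat]
        rw [← hq.sq]; ring
      obtain ⟨h6, h7⟩ := hq.inj h5
      have h8 : z1 * w1 = z * w + (x ^ 2 * (z ^ 2 + g * w ^ 2) - 2 * g * y ^ 2 * (z * w)) * T0 := by
        have : (2 : K) * (z1 * w1) = 2 * (z * w +
          (x ^ 2 * (z ^ 2 + g * w ^ 2) - 2 * g * y ^ 2 * (z * w)) * T0) := by
          rw [h7]; ring
        exact mul_left_cancel₀ two_ne_zero this
      have h9 : (y * s0) ^ 2 = y ^ 2 + (x ^ 4 - 2 * g * y ^ 4) * T0 := by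
        have h10 : i (s0 ^ 2) = i (1 + (x ^ 4 - 2 * g * y ^ 4) / y ^ 2 * T0) := by
          rw [map_pow, ← hs0, hs', eb, hT0, map_add, map_mul, map_one]
        have h11 := i.injective h10
        rw [mul_pow, h11]; field_simp
      simp only [Matrix.cons_val_zero, Matrix.cons_val_one, Matrix.cons_val]
      have e3 : (y * s0) ^ 4 = ((y * s0) ^ 2) ^ 2 := by ring
      have e4 : z1 ^ 4 + g ^ 2 * w1 ^ 4 = (z1 ^ 2 + g * w1 ^ 2) ^ 2 - 2 * g * (z1 * w1) ^ 2 := by
        ring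
      rw [e3, h9, e4, h6, h8]
      linear_combination (1 - 4 * g * y ^ 2 * T0 - 2 * g * (x ^ 4 - 2 * g * y ^ 4) * T0 ^ 2) * heq
    · simp only [Matrix.cons_val_zero, Matrix.cons_val_one, Matrix.cons_val]
      have h10 : i (s0 ^ 2) = i (1 + (x ^ 4 - 2 * g * y ^ 4) / y ^ 2 * T0) := by
        rw [map_pow, ← hs0, hs', eb, hT0, map_add, map_mul, map_one]
      have h11 := i.injective h10
      rw [mul_pow, h11]; field_simp
  choose T0 hT0 v hv1 hv2 using hex
  have hinj : Function.Injective v := by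
    intro T T' e
    have h1 := hv2 T
    rw [e, hv2 T'] at h1
    have h3 : (x ^ 4 - 2 * g * y ^ 4) * T0 T' = (x ^ 4 - 2 * g * y ^ 4) * T0 T := by
      linear_combination h1
    have h4 := mul_left_cancel₀ hF h3
    apply Subtype.ext
    rw [← hT0 T, ← hT0 T', h4]
  have : Infinite (SymSet φ (β + γ) (γ + α) (α + β)) := hinf.to_subtype
  have hr : (Set.range v).Infinite := Set.infinite_range_of_injective hinj
  exact hr.mono (by rintro _ ⟨T, rfl⟩; exact hv1 T)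

/-- The point-level statement. -/
theorem infC_point {f : AbsoluteValue L ℝ} (h : TwoOn f i.fieldRange)
    (hq : QuadExt K L i g n φ) (hg : g ≠ 0) (hnsq : ∀ m : K, m ^ 2 ≠ g)
    (ram : ∀ x ∈ i.fieldRange, f 2 ^ 2 < f (i g * x ^ 2 - 1))
    (h4 : ∀ m : K, m ^ 4 ≠ -(2 * g)) {c x y z w : K} (hc : c ≠ 0) (hx : x ≠ 0) (hy : y ≠ 0)
    (hzw : z ≠ 0 ∨ w ≠ 0)
    (heq : x ^ 4 - 2 * g * y ^ 4 = c * (z ^ 4 + g ^ 2 * w ^ 4)) : InfC g c x := by
  have h20 : (2 : L) ≠ 0 := h.pos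
  have hK2 : (2 : K) ≠ 0 := two_ne_zero
  have hmem : ∀ a : K, i a ∈ i.fieldRange := fun a => ⟨a, rfl⟩
  have hn : n ≠ 0 := by
    rintro rfl
    have := hq.sq
    rw [zero_pow two_ne_zero] at this
    exact hg ((map_eq_zero i).mp this.symm)
  have hgi : i g ≠ 0 := (map_ne_zero i).mpr hg
  have hδ : z ^ 2 - g * w ^ 2 ≠ 0 := by
    intro h0
    by_cases hw : w = 0
    · have hz : z = 0 := by
        rw [hw] at h0
        have : z ^ 2 = 0 := by linear_combination h0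
        exact pow_eq_zero_iff two_ne_zero |>.mp this
      rcases hzw with h1 | h1
      · exact h1 hz
      · exact h1 hw
    · apply hnsq (z / w)
      rw [div_pow, div_eq_iff (pow_ne_zero 2 hw)]
      linear_combination h0
  have hG : z ^ 4 + g ^ 2 * w ^ 4 ≠ 0 := by
    intro h0
    by_cases hw : w = 0
    · have hz : z = 0 := by
        rw [hw] at h0
        have : z ^ 4 = 0 := by linear_combination h0
        exact pow_eq_zero_iff four_ne_zero |>.mp this
      rcases hzw with h1 | h1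
      · exact h1 hz
      · exact h1 hw
    · have hu : (z ^ 2 / (g * w ^ 2)) ^ 2 = -1 := by
        rw [div_pow, div_eq_iff (pow_ne_zero 2 (mul_ne_zero hg (pow_ne_zero 2 hw)))]
        linear_combination h0
      have hu' : (i (z ^ 2 / (g * w ^ 2))) ^ 2 = -1 := by
        rw [← map_pow, hu, map_neg, map_one]
      have h1 : f (i (z ^ 2 / (g * w ^ 2))) = 1 := by
        have h3 : f (i (z ^ 2 / (g * w ^ 2))) ^ 2 = 1 := by
          rw [← abv_sq, hu', f.map_neg, map_one]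
        have h5 := f.nonneg (i (z ^ 2 / (g * w ^ 2)))
        nlinarith
      have h3 := h.sq_unit (hmem _) h1
      rw [hu'] at h3
      have e : (-1 - 1 : L) = -2 := by norm_num
      rw [e, f.map_neg] at h3
      have := h.p2
      have := h.lt
      nlinarith [sq_nonneg (f 2)]
  have hF : x ^ 4 - 2 * g * y ^ 4 ≠ 0 := by
    rw [heq]; exact mul_ne_zero hc hG
  have hyi : i y ≠ 0 := (map_ne_zero i).mpr hy
  have hxi : i x ≠ 0 := (map_ne_zero i).mpr hx
  have hδi : i z ^ 2 - i g * i w ^ 2 ≠ 0 := by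
    have := (map_ne_zero i).mpr hδ
    rwa [map_sub, map_mul, map_pow, map_pow] at this
  have hκ : ((z ^ 2 + g * w ^ 2) / (z ^ 2 - g * w ^ 2)) ^ 2 =
      1 + 2 * (2 * g * (z * w) ^ 2 / (z ^ 2 - g * w ^ 2) ^ 2) := by
    field_simp
    ring
  have key := cfam_core (f := f) (φ := φ) (F := i.fieldRange)
    (A := i (x ^ 4 / (2 * g * y ^ 4)))
    (s := i (2 * g * (z * w) ^ 2 / (z ^ 2 - g * w ^ 2) ^ 2))
    (κ := i ((z ^ 2 + g * w ^ 2) / (z ^ 2 - g * w ^ 2)))
    (t := i (x ^ 2 / y ^ 2 * (z * w * (z ^ 2 + g * w ^ 2)) / (z ^ 2 - g * w ^ 2) ^ 2))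
    (lam := i (x ^ 2 / y ^ 2)) (g := i g) (ξ := i (x ^ 2 / y ^ 2) / n) h
    (by rintro _ ⟨a, rfl⟩; exact hq.fix a) (hmem _) (hmem _) (hmem _) (hmem _) (hmem _) (hmem _)
    ?_ ?_ ?_ ?_ ?_ ?_ ?_ ram ?_ ?_ ?_
  · rcases key with key | key
    · exact infC_of_good h.na h.lt hq hg hy hδ hF heq key
    · have e1 : x ^ 4 - 2 * g * y ^ 4 = c * (z ^ 4 + g ^ 2 * (-w) ^ 4) := by
        rw [heq]; ring
      have e3 : z ^ 2 - g * (-w) ^ 2 ≠ 0 := by rwa [neg_sq]
      refine infC_of_good h.na h.lt hq hg hy e3 hF e1 ?_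
      have e5 : -(i (x ^ 2 / y ^ 2 * (z * w * (z ^ 2 + g * w ^ 2)) / (z ^ 2 - g * w ^ 2) ^ 2)) =
          i (x ^ 2 / y ^ 2 * (z * -w * (z ^ 2 + g * (-w) ^ 2)) / (z ^ 2 - g * (-w) ^ 2) ^ 2) := by
        rw [← map_neg, neg_sq]
        congr 1
        ring
      have e7 : 2 * g * (z * w) ^ 2 / (z ^ 2 - g * w ^ 2) ^ 2 =
          2 * g * (z * -w) ^ 2 / (z ^ 2 - g * (-w) ^ 2) ^ 2 := by
        rw [neg_sq, mul_neg, neg_sq]
      rw [e5, e7] at key
      exact key
  · rw [div_pow, hq.sq]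
    simp only [map_mul, map_div₀, map_pow, map_ofNat]
    field_simp
  · rw [map_div₀, hq.fix, hq.neg, div_neg]
  · rw [← map_pow, hκ, map_add, map_mul, map_one, map_ofNat]
  · rw [← map_pow, ← map_ofNat i 2, ← map_mul, ← map_mul, ← map_one i, ← map_add, ← map_mul, ← hκ]
    congr 1
    rw [div_pow]
    field_simp
  · simp only [map_mul, map_div₀, map_pow, map_ofNat]
    field_simp
  · exact (map_ne_zero i).mpr (div_ne_zero (pow_ne_zero 2 hx) (pow_ne_zero 2 hy))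
  · intro h0
    have h1 := (map_eq_zero i).mp h0
    have h3 := (div_eq_zero_iff.mp h1).resolve_right hδ
    have hw : w ≠ 0 := by
      rintro rfl
      apply hδ
      linear_combination h3
    refine ⟨i (z / w), hmem _, ?_⟩
    rw [← map_pow, ← map_neg]
    congr 1
    rw [div_pow]
    field_simp
    linear_combination h3
  · exact (map_ne_zero i).mpr (div_ne_zero (pow_ne_zero 4 hx)
      (mul_ne_zero (mul_ne_zero two_ne_zero hg) (pow_ne_zero 4 hy)))
  · intro h0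
    rw [← map_one i] at h0
    have h1 := i.injective h0
    rw [div_eq_one_iff_eq (mul_ne_zero (mul_ne_zero two_ne_zero hg) (pow_ne_zero 4 hy))] at h1
    apply hF
    rw [h1]; ring
  · intro h0
    rw [← map_one i, ← map_neg] at h0
    have h1 := i.injective h0
    rw [div_eq_iff (mul_ne_zero (mul_ne_zero two_ne_zero hg) (pow_ne_zero 4 hy))] at h1
    apply h4 (x / y)
    rw [div_pow, div_eq_iff (pow_ne_zero 4 hy), h1]
    ring

end

end Run7.h587
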