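import Mathlib

set_option autoImplicit false

namespace Run7.h587

/-! ## The doubling map on triples with fixed differences of squares -/

section Algebra

variable {K : Type*} [Field K]

/-- Data attached to a base triple `(α, β, γ)`: a triple `(u,v,w)` lies on the same curve if the
differences of the squares agree. -/
def SameCurve (α β γ u v w : K) : Prop :=
  u ^ 2 - v ^ 2 = α ^ 2 - β ^ 2 ∧ u ^ 2 - w ^ 2 = α ^ 2 - γ ^ 2

/-- first coordinate of the doubled triple -/
def dbl (u v w : K) : K := (u ^ 2 * v ^ 2 + u ^ 2 * w ^ 2 - v ^ 2 * w ^ 2) / (2 * u * v * w)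

theorem sameCurve_refl (α β γ : K) : SameCurve α β γ α β γ := ⟨rfl, rfl⟩

theorem sameCurve_dbl {α β γ u v w : K} (h : SameCurve α β γ u v w) (h2 : (2 : K) ≠ 0)
    (hu : u ≠ 0) (hv : v ≠ 0) (hw : w ≠ 0) :
    SameCurve α β γ (dbl u v w) (dbl v u w) (dbl w u v) := by
  obtain ⟨h1, h3⟩ := h
  refine ⟨?_, ?_⟩
  · rw [← h1]
    unfold dbl
    field_simp
    ring
  · rw [← h3]
    unfold dbl
    field_simp
    ring

/-- The set of parameters `T` for which `1 + aT, 1 + bT, 1 + cT` are all squares. -/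
def SqSet (a b c : K) : Set K :=
  {T | IsSquare (1 + a * T) ∧ IsSquare (1 + b * T) ∧ IsSquare (1 + c * T)}

/-- From a triple on the curve one gets a parameter `T`. -/
theorem mem_sqSet {α β γ u v w : K} (h : SameCurve α β γ u v w) 
    (hu : u ≠ 0) (hv : v ≠ 0) (hw : w ≠ 0)
    (X T : K) (hX0 : X ≠ 0) (hX : X = u ^ 2 - (γ + α) * (α + β))
    (hT : T * X ^ 2 = (2 * (α + β + γ)) * X + 2 * ((β + γ) * (γ + α) * (α + β)) - 2 * (u * v * w)) :
    T ∈ SqSet (β + γ) (γ + α) (α + β) := by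
  obtain ⟨h1, h3⟩ := h
  have hu2 : u ^ 2 = X + (γ + α) * (α + β) := by rw [hX]; ring
  have hv2 : v ^ 2 = X + (α + β) * (β + γ) := by
    linear_combination hu2 - h1
  have hw2 : w ^ 2 = X + (β + γ) * (γ + α) := by
    linear_combination hu2 - h3
  set Y := u * v * w with hY
  have hY2 : Y ^ 2 = (X + (γ + α) * (α + β)) * (X + (α + β) * (β + γ)) * (X + (β + γ) * (γ + α)) := by
    rw [hY, ← hu2, ← hv2, ← hw2]; ring
  set a := β + γ with ha
  set b := γ + α with hb
  set c := α + β with hc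
  have hs : 2 * (α + β + γ) = a + b + c := by rw [ha, hb, hc]; ring
  rw [hs] at hT
  clear_value a b c Y
  refine ⟨⟨(a * X - Y + a * b * c) / (X * u), ?_⟩, ⟨(b * X - Y + a * b * c) / (X * v), ?_⟩,
    ⟨(c * X - Y + a * b * c) / (X * w), ?_⟩⟩
  · rw [div_mul_div_comm, eq_div_iff (by simp [hX0, hu])]
    linear_combination (a * u ^ 2) * hT + (X ^ 2 + a * ((a + b + c) * X + 2 * (a * b * c) - 2 * Y)) * hu2
      - hY2
  · rw [div_mul_div_comm, eq_div_iff (by simp [hX0, hv])]
    linear_combination (b * v ^ 2) * hT + (X ^ 2 + b * ((a + b + c) * X + 2 * (a * b * c) - 2 * Y)) * hv2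
      - hY2
  · rw [div_mul_div_comm, eq_div_iff (by simp [hX0, hw])]
    linear_combination (c * w ^ 2) * hT + (X ^ 2 + c * ((a + b + c) * X + 2 * (a * b * c) - 2 * Y)) * hw2
      - hY2

end Algebra

end Run7.h587
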