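import Pool.Agent.Run7.h587.NF

set_option autoImplicit false

open NumberField IsDedekindDomain

namespace Run7.h587

/-- a number field of odd degree has a prime above `2` with odd residue degree -/
theorem inertia_of_odd_degree {K : Type*} [Field K] [NumberField K]
    (h : Odd (Module.finrank ℚ K)) : ∃ P : HeightOneSpectrum (𝓞 K), (2 : 𝓞 K) ∈ P.asIdeal ∧
      Odd (P.asIdeal.inertiaDeg ℤ) := by
  by_contra hno
  rw [← Nat.not_even_iff_odd] at h
  apply h
  rw [even_iff_two_dvd]
  have := isPrime_span_two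
  have : Fintype ((Ideal.span {(2 : ℤ)}).primesOver (𝓞 K)) :=
    (Algebra.QuasiFinite.finite_primesOver (Ideal.span {(2 : ℤ)})).fintype
  have hs := Ideal.sum_ramification_inertia_eq_finrank (Ideal.span {(2 : ℤ)}) (𝓞 K)
  rw [NumberField.RingOfIntegers.rank] at hs
  rw [← hs]
  apply Finset.dvd_sum
  intro q _
  have hq1 : q.1.IsPrime := q.2.1
  have hq2 : q.1.LiesOver (Ideal.span {(2 : ℤ)}) := q.2.2
  have hmem : (2 : 𝓞 K) ∈ q.1 := by
    have h1 : (2 : ℤ) ∈ q.1.under ℤ := by
      rw [← hq2.over]; exact Ideal.mem_span_singleton_self 2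
    rw [Ideal.mem_comap] at h1
    simpa using h1
  have hbot : q.1 ≠ ⊥ := by
    intro h0
    rw [h0, Ideal.mem_bot] at hmem
    norm_num at hmem
  by_contra h4
  apply hno
  refine ⟨⟨q.1, hq1, hbot⟩, hmem, ?_⟩
  show Odd (q.1.inertiaDeg ℤ)
  by_contra hcon
  rw [Nat.not_odd_iff_even] at hcon
  exact h4 (hcon.two_dvd.mul_left _)

end Run7.h587
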