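import Pool.Agent.Run7.h587.Tri

set_option autoImplicit false

namespace Run7.h587

variable {K : Type*} [Field K] {f : AbsoluteValue K ℝ}

theorem abv_three (hf : IsNonarchimedean f) (h2 : f 2 < 1) : f 3 = 1 := by
  have : (3 : K) = 1 + 2 := by norm_num
  rw [this, na_add_eq hf (by rwa [map_one]), map_one]

theorem Trouble.add (hf : IsNonarchimedean f) {α β γ : K} (h : Trouble f α β γ) :
    f (α + β) = f α := by
  obtain ⟨h1, h3, h4, h5⟩ := h
  have e : α + β = (α + β + γ) - γ := by ring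
  rw [e, na_sub_eq' hf, ← h3, ← h1]
  rw [← h3, ← h1]; exact h4

theorem Trouble.sub (hf : IsNonarchimedean f) (h2 : f 2 < 1) {α β γ : K} (h : Trouble f α β γ) :
    f (α - β) = f α := by
  have hc := h.cube hf
  have pα : 0 < f α := lt_of_le_of_lt (f.nonneg _) h.2.2.1
  have h1 := h.1
  have e : (α - β) ^ 2 = (α ^ 2 + α * β + β ^ 2) - 3 * (α * β) := by ring
  have : f ((α - β) ^ 2) = f α ^ 2 := by
    rw [e, na_sub_eq' hf]
    · rw [map_mul, abv_three hf h2, map_mul, ← h1]; ring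
    · rw [map_mul, abv_three hf h2, map_mul, ← h1]
      calc _ < f α ^ 2 := hc
        _ = 1 * (f α * f α) := by ring
  rw [abv_sq] at this
  exact (pow_left_inj₀ (f.nonneg _) (f.nonneg _) two_ne_zero).mp this

theorem Trouble.omega (hf : IsNonarchimedean f) {α β γ : K} (h : Trouble f α β γ) :
    ∃ ω : K, f (ω ^ 2 + ω + 1) < 1 := by
  have hc := h.cube hf
  have pα : 0 < f α := lt_of_le_of_lt (f.nonneg _) h.2.2.1
  have hα : α ≠ 0 := f.pos_iff.mp pα
  refine ⟨β / α, ?_⟩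
  have e : (β / α) ^ 2 + β / α + 1 = (α ^ 2 + α * β + β ^ 2) / α ^ 2 := by
    field_simp
    ring
  rw [e, map_div₀, abv_sq, div_lt_one (by positivity)]
  exact hc

/-- The exceptional situation for a point `(A₀,A₁,A₂,A₃)` with `∑ Aᵢ = 0` and `∏ Aᵢ = Δ²`. -/
structure Exc (f : AbsoluteValue K ℝ) (A0 A1 A2 A3 Δ : K) : Prop where
  omega : ∃ ω : K, f (ω ^ 2 + ω + 1) < 1
  e01 : f A0 = f A1
  e12 : f A1 = f A2
  e23 : f A2 = f A3
  dm : f (1 - Δ / (A1 * A3)) = f 2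
  dp : f (1 + Δ / (A1 * A3)) = f 2

theorem exc_of_trouble (hf : IsNonarchimedean f) (h2 : f 2 < 1) (h20 : (2 : K) ≠ 0)
    {A0 A1 A2 A3 Δ α β γ : K}
    (h1 : A1 ≠ 0) (h3 : A3 ≠ 0)
    (hsum : A0 + A1 + A2 + A3 = 0) (hΔ : Δ ^ 2 = A0 * A1 * A2 * A3)
    (hα : 2 * α = (A1 + A3) * (1 - Δ / (A1 * A3)))
    (hγ : 2 * γ = (A1 + A3) * (1 + Δ / (A1 * A3)))
    (hβ : 2 * β = Δ * (A3 - A1) / (A1 * A3) + A0 - A2)
    (h : Trouble f α β γ) : Exc f A0 A1 A2 A3 Δ := by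
  have pα : 0 < f α := lt_of_le_of_lt (f.nonneg _) h.2.2.1
  have p2 : 0 < f 2 := f.pos h20
  have hαβ := h.1
  have hβγ := h.2.1
  have hab : f (α + β) = f α := h.add hf
  have hac : f (α + γ) = f α := h.swap23.add hf
  have hbc : f (β + γ) = f α := by
    rw [hαβ]; exact (h.swap12.swap23).add hf
  have sab : f (α - β) = f α := h.sub hf h2
  have sac : f (α - γ) = f α := h.swap23.sub hf h2
  have sbc : f (β - γ) = f α := by
    rw [hαβ]; exact (h.swap12.swap23).sub hf h2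
  have hb : γ + α = A1 + A3 := by
    have : 2 * (γ + α) = 2 * (A1 + A3) := by linear_combination hγ + hα
    exact mul_left_cancel₀ h20 this
  have ha : β + γ = Δ / A1 - A2 := by
    have : 2 * (β + γ) = 2 * (Δ / A1 - A2) := by
      rw [mul_add, hβ, hγ]
      field_simp
      linear_combination (A1 * A3) * hsum
    exact mul_left_cancel₀ h20 this
  have hc : α + β = -Δ / A3 - A2 := by
    have : 2 * (α + β) = 2 * (-Δ / A3 - A2) := by
      rw [mul_add, hβ, hα]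
      field_simp
      linear_combination (A1 * A3) * hsum
    exact mul_left_cancel₀ h20 this
  -- the two linear relations
  have L1 : A1 * (β + γ) + A2 * (γ + α) + A3 * (α + β) = 0 := by
    rw [ha, hb, hc]; field_simp; ring
  have L2 : A1 * (β + γ) ^ 2 + A2 * (γ + α) ^ 2 + A3 * (α + β) ^ 2 = 0 := by
    rw [ha, hb, hc]
    field_simp
    linear_combination (A1 + A3) * hΔ + A1 * A3 * A2 * (A1 + A3) * hsum
  have E12 : A1 * ((β + γ) * (γ - α)) = A2 * ((γ + α) * (β - γ)) := by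
    linear_combination L2 - (α + β) * L1
  have E23 : A2 * ((γ + α) * (α - β)) = A3 * ((α + β) * (γ - α)) := by
    linear_combination L2 - (β + γ) * L1
  have f12 : f A1 = f A2 := by
    have := congrArg f E12
    rw [map_mul, map_mul, map_mul, map_mul, hbc, f.map_sub γ α, sac, add_comm γ α, hac, sbc] at this
    exact mul_right_cancel₀ (mul_pos pα pα).ne' this
  have f23 : f A2 = f A3 := by
    have := congrArg f E23
    rw [map_mul, map_mul, map_mul, map_mul, add_comm γ α, hac, sab, hab, f.map_sub γ α, sac] at this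
    exact mul_right_cancel₀ (mul_pos pα pα).ne' this
  have hne : A1 + A3 ≠ 0 := by
    rw [← hb]
    apply f.pos_iff.mp
    rw [add_comm, hac]; exact pα
  have hdm : f (1 - Δ / (A1 * A3)) = f 2 := by
    have := congrArg f hα
    rw [map_mul, map_mul, ← hb, add_comm γ α, hac] at this
    have h5 : f α * f 2 = f α * f (1 - Δ / (A1 * A3)) := by linarith
    exact (mul_left_cancel₀ pα.ne' h5).symm
  have hdp : f (1 + Δ / (A1 * A3)) = f 2 := by
    have := congrArg f hγ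
    rw [map_mul, map_mul, ← hb, add_comm γ α, hac, ← hβγ, ← hαβ] at this
    have h5 : f α * f 2 = f α * f (1 + Δ / (A1 * A3)) := by linarith
    exact (mul_left_cancel₀ pα.ne' h5).symm
  have hdiv : f (Δ / (A1 * A3)) = 1 := by
    have e : Δ / (A1 * A3) = 1 - (1 - Δ / (A1 * A3)) := by ring
    rw [e, na_sub_eq hf, map_one]
    rw [hdm, map_one]; exact h2
  have f01 : f A0 = f A1 := by
    have p1 : 0 < f A1 := f.pos h1
    have hh : f Δ = f A1 * f A3 := by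
      rw [map_div₀, div_eq_one_iff_eq (by rw [map_mul]; exact (mul_pos p1 (f.pos h3)).ne'),
        map_mul] at hdiv
      exact hdiv
    have h6 := congrArg f hΔ
    rw [abv_sq, hh, map_mul, map_mul, map_mul, ← f23, ← f12] at h6
    have h7 : f A1 ^ 3 * f A0 = f A1 ^ 3 * f A1 := by linarith
    exact mul_left_cancel₀ (by positivity) h7
  exact ⟨h.omega hf, f01, f12, f23, hdm, hdp⟩

/-- points obtained from parameters -/
theorem infinite_of_sqSet {a0 a1 a2 a3 x0 x1 x2 x3 a b c : K} (hb : b ≠ 0) (hx2 : x2 ≠ 0)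
    (hsum : a0 * x0 ^ 4 + a1 * x1 ^ 4 + a2 * x2 ^ 4 + a3 * x3 ^ 4 = 0)
    (L1 : a1 * x1 ^ 4 * a + a2 * x2 ^ 4 * b + a3 * x3 ^ 4 * c = 0)
    (L2 : a1 * x1 ^ 4 * a ^ 2 + a2 * x2 ^ 4 * b ^ 2 + a3 * x3 ^ 4 * c ^ 2 = 0)
    (h : (SqSet a b c).Infinite) :
    {y : Fin 4 → K | y 0 = x0 ∧
      a0 * y 0 ^ 4 + a1 * y 1 ^ 4 + a2 * y 2 ^ 4 + a3 * y 3 ^ 4 = 0}.Infinite := by
  have hex : ∀ T : SqSet a b c, ∃ y : Fin 4 → K, (y 0 = x0 ∧
      a0 * y 0 ^ 4 + a1 * y 1 ^ 4 + a2 * y 2 ^ 4 + a3 * y 3 ^ 4 = 0) ∧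
      y 2 ^ 2 = x2 ^ 2 * (1 + b * T) := by
    rintro ⟨T, ⟨r, hr⟩, ⟨s, hs⟩, ⟨t, ht⟩⟩
    refine ⟨![x0, x1 * r, x2 * s, x3 * t], ⟨rfl, ?_⟩, ?_⟩
    · simp only [Matrix.cons_val_zero, Matrix.cons_val_one, Matrix.cons_val]
      have e1 : (x1 * r) ^ 4 = x1 ^ 4 * (1 + a * T) ^ 2 := by rw [hr]; ring
      have e2 : (x2 * s) ^ 4 = x2 ^ 4 * (1 + b * T) ^ 2 := by rw [hs]; ring
      have e3 : (x3 * t) ^ 4 = x3 ^ 4 * (1 + c * T) ^ 2 := by rw [ht]; ring
      rw [e1, e2, e3]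
      linear_combination hsum + 2 * T * L1 + T ^ 2 * L2
    · simp only [Matrix.cons_val]
      rw [hs]; ring
  choose g hg1 hg2 using hex
  have hinj : Function.Injective g := by
    intro T T' e
    have h1 := hg2 T
    rw [e, hg2 T'] at h1
    have h3 := mul_left_cancel₀ (pow_ne_zero 2 hx2) h1
    have h4 : b * (T' : K) = b * (T : K) := by linear_combination h3
    exact (Subtype.ext (mul_left_cancel₀ hb h4)).symm
  have : Infinite (SqSet a b c) := h.to_subtype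
  have hr : (Set.range g).Infinite := Set.infinite_range_of_injective hinj
  exact hr.mono (by rintro _ ⟨T, rfl⟩; exact hg1 T)

/-- The core statement for diagonal quartic surfaces whose discriminant is a square: a point with
nonzero coordinates which is not on one of the lines yields infinitely many points, unless we are in
the exceptional `2`-adic situation. -/
theorem diag_core (hf : IsNonarchimedean f) (h2 : f 2 < 1) (h20 : (2 : K) ≠ 0)
    {a0 a1 a2 a3 x0 x1 x2 x3 Δ : K}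
    (h0 : a0 * x0 ^ 4 ≠ 0) (h1 : a1 * x1 ^ 4 ≠ 0) (h2' : a2 * x2 ^ 4 ≠ 0) (h3 : a3 * x3 ^ 4 ≠ 0)
    (hsum : a0 * x0 ^ 4 + a1 * x1 ^ 4 + a2 * x2 ^ 4 + a3 * x3 ^ 4 = 0)
    (hΔ : Δ ^ 2 = (a0 * x0 ^ 4) * (a1 * x1 ^ 4) * (a2 * x2 ^ 4) * (a3 * x3 ^ 4))
    (n12 : a1 * x1 ^ 4 + a2 * x2 ^ 4 ≠ 0) (n13 : a1 * x1 ^ 4 + a3 * x3 ^ 4 ≠ 0)
    (n23 : a2 * x2 ^ 4 + a3 * x3 ^ 4 ≠ 0) :
    {y : Fin 4 → K | y 0 = x0 ∧
      a0 * y 0 ^ 4 + a1 * y 1 ^ 4 + a2 * y 2 ^ 4 + a3 * y 3 ^ 4 = 0}.Infinite ∨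
    Exc f (a0 * x0 ^ 4) (a1 * x1 ^ 4) (a2 * x2 ^ 4) (a3 * x3 ^ 4) Δ := by
  have hx2 : x2 ≠ 0 := by
    rintro rfl; exact h2' (by ring)
  -- the parameters
  have key : ∀ Δ' : K, Δ' ^ 2 = (a0 * x0 ^ 4) * (a1 * x1 ^ 4) * (a2 * x2 ^ 4) * (a3 * x3 ^ 4) →
      (SqSet (Δ' / (a1 * x1 ^ 4) - a2 * x2 ^ 4) (a1 * x1 ^ 4 + a3 * x3 ^ 4)
        (-Δ' / (a3 * x3 ^ 4) - a2 * x2 ^ 4)).Infinite →
      {y : Fin 4 → K | y 0 = x0 ∧
      a0 * y 0 ^ 4 + a1 * y 1 ^ 4 + a2 * y 2 ^ 4 + a3 * y 3 ^ 4 = 0}.Infinite := by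
    intro Δ' hΔ' hS
    refine infinite_of_sqSet (a := Δ' / (a1 * x1 ^ 4) - a2 * x2 ^ 4)
      (b := a1 * x1 ^ 4 + a3 * x3 ^ 4) (c := -Δ' / (a3 * x3 ^ 4) - a2 * x2 ^ 4)
      n13 hx2 hsum ?_ ?_ hS
    · generalize a0 * x0 ^ 4 = A0 at *
      generalize a1 * x1 ^ 4 = A1 at *
      generalize a2 * x2 ^ 4 = A2 at *
      generalize a3 * x3 ^ 4 = A3 at *
      field_simp
      ring
    · generalize a0 * x0 ^ 4 = A0 at *
      generalize a1 * x1 ^ 4 = A1 at *
      generalize a2 * x2 ^ 4 = A2 at *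
      generalize a3 * x3 ^ 4 = A3 at *
      field_simp
      linear_combination (A1 + A3) * hΔ' + A1 * A3 * A2 * (A1 + A3) * hsum
  generalize hA0 : a0 * x0 ^ 4 = A0 at *
  generalize hA1 : a1 * x1 ^ 4 = A1 at *
  generalize hA2 : a2 * x2 ^ 4 = A2 at *
  generalize hA3 : a3 * x3 ^ 4 = A3 at *
  set α := (A1 + A3) * (1 - Δ / (A1 * A3)) / 2 with hα
  set γ := (A1 + A3) * (1 + Δ / (A1 * A3)) / 2 with hγ
  set β := (Δ * (A3 - A1) / (A1 * A3) + A0 - A2) / 2 with hβ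
  set β' := (-Δ * (A3 - A1) / (A1 * A3) + A0 - A2) / 2 with hβ'
  have eα : 2 * α = (A1 + A3) * (1 - Δ / (A1 * A3)) := by rw [hα]; field_simp
  have eγ : 2 * γ = (A1 + A3) * (1 + Δ / (A1 * A3)) := by rw [hγ]; field_simp
  have eβ : 2 * β = Δ * (A3 - A1) / (A1 * A3) + A0 - A2 := by rw [hβ]; field_simp
  have eβ' : 2 * β' = -Δ * (A3 - A1) / (A1 * A3) + A0 - A2 := by rw [hβ']; field_simp
  have hA0e : A0 = -(A1 + A2 + A3) := by linear_combination hsum
  have prod_ac : 4 * (α * γ) * (A1 * A3) = (A1 + A3) ^ 2 * ((A1 + A2) * (A2 + A3)) := by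
    have e : 4 * (α * γ) * (A1 * A3) = (2 * α) * (2 * γ) * (A1 * A3) := by ring
    have hd : (1 - Δ / (A1 * A3)) * (1 + Δ / (A1 * A3)) * (A1 * A3) = A1 * A3 - A0 * A2 := by
      field_simp
      linear_combination -hΔ
    rw [e, eα, eγ]
    rw [hA0e] at hd
    linear_combination (A1 + A3) ^ 2 * hd
  have prod_b : 4 * (β * β') * (A1 * A3) = (A1 + A3) ^ 2 * ((A1 + A2) * (A2 + A3)) := by
    have e : 4 * (β * β') * (A1 * A3) = (2 * β) * (2 * β') * (A1 * A3) := by ring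
    rw [e, eβ, eβ']
    field_simp
    rw [hA0e] at hΔ ⊢
    linear_combination -(A3 - A1) ^ 2 * hΔ
  have h4 : (4 : K) ≠ 0 := by
    have : (4 : K) = 2 * 2 := by norm_num
    rw [this]; exact mul_ne_zero h20 h20
  have hne : (A1 + A3) ^ 2 * ((A1 + A2) * (A2 + A3)) ≠ 0 :=
    mul_ne_zero (pow_ne_zero 2 n13) (mul_ne_zero n12 n23)
  have hαγ : α * γ ≠ 0 := by
    intro h; rw [h] at prod_ac; apply hne; rw [← prod_ac]; ring
  have hββ' : β * β' ≠ 0 := by
    intro h; rw [h] at prod_b; apply hne; rw [← prod_b]; ring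
  have hα0 : α ≠ 0 := left_ne_zero_of_mul hαγ
  have hγ0 : γ ≠ 0 := right_ne_zero_of_mul hαγ
  have hβ0 : β ≠ 0 := left_ne_zero_of_mul hββ'
  have heq : β * β' = α * γ := by
    have : (4 * (A1 * A3)) * (β * β') = (4 * (A1 * A3)) * (α * γ) := by
      linear_combination prod_b - prod_ac
    exact mul_left_cancel₀ (mul_ne_zero h4 (mul_ne_zero h1 h3)) this
  rcases good_or_trouble hf h2 h20 hα0 hβ0 hγ0 with hG | hG | hT
  · left
    apply key Δ hΔ
    have := hG.infinite hf h2 h20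
    have ea : β + γ = Δ / A1 - A2 := by
      apply mul_left_cancel₀ h20
      rw [mul_add, eβ, eγ]; field_simp
      linear_combination (A1 * A3) * hsum
    have eb : γ + α = A1 + A3 := by
      apply mul_left_cancel₀ h20
      rw [mul_add, eα, eγ]; ring
    have ec : α + β = -Δ / A3 - A2 := by
      apply mul_left_cancel₀ h20
      rw [mul_add, eβ, eα]; field_simp
      linear_combination (A1 * A3) * hsum
    rwa [ea, eb, ec] at this
  · left
    apply key (-Δ) (by rw [neg_sq]; exact hΔ)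
    have hG' := hG.smul hαγ
    have g1 : (α * γ) * α⁻¹ = γ := by field_simp
    have g2 : (α * γ) * β⁻¹ = β' := by
      rw [← heq]; field_simp
    have g3 : (α * γ) * γ⁻¹ = α := by field_simp
    rw [g1, g2, g3] at hG'
    have := hG'.infinite hf h2 h20
    have ea : β' + α = -Δ / A1 - A2 := by
      apply mul_left_cancel₀ h20
      rw [mul_add, eβ', eα]; field_simp
      linear_combination (A1 * A3) * hsum
    have eb : α + γ = A1 + A3 := by
      apply mul_left_cancel₀ h20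
      rw [mul_add, eα, eγ]; ring
    have ec : γ + β' = - -Δ / A3 - A2 := by
      apply mul_left_cancel₀ h20
      rw [mul_add, eβ', eγ]; field_simp
      linear_combination (A1 * A3) * hsum
    rwa [ea, eb, ec] at this
  · right
    exact exc_of_trouble hf h2 h20 h1 h3 hsum hΔ eα eγ eβ hT

end Run7.h587
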