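import Mathlib
import Pool.Agent.H602R3.DHJ.Main

/-!
# Density Hales-Jewett for several probability measures on the sets of words at once
-/

set_option autoImplicit false

namespace Pool.Agent.Run7.h587.DHZ

open Finset Pool.Agent.H602R3.DHJ

/-- a set of words of positive density contains a line -/
theorem line_of_dens (k : ℕ) {δ : ℝ} (hδ : 0 < δ) : ∃ N : ℕ, ∀ S : Finset (Fin N → Fin (k + 1)),
    δ * Fintype.card (Fin N → Fin (k + 1)) ≤ S.card →
    ∃ V : Fin N → Fin (k + 1) ⊕ Unit, Pr V ∧ ∀ a, ap V (fun _ => a) ∈ S := by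
  classical
  obtain ⟨N, hN⟩ := dhj k δ hδ
  refine ⟨N, fun S hS => ?_⟩
  by_contra hcon
  push Not at hcon
  have h1 : dn (S : Set (Fin N → Fin (k + 1))) < δ := hN _ (by
    intro V hV
    obtain ⟨a, ha⟩ := hcon V hV
    exact ⟨a, by simpa using ha⟩)
  have h2 : dn (S : Set (Fin N → Fin (k + 1))) = (S.card : ℝ) / Fintype.card (Fin N → Fin (k + 1)) := by
    unfold dn av
    congr 1
    rw [← sum_subset (subset_univ S)]
    · rw [sum_congr rfl fun x hx => Set.indicator_of_mem (by simpa using hx) _]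
      simp
    · intro x _ hx
      rw [Set.indicator_of_notMem]
      simpa using hx
  have hpos : (0 : ℝ) < Fintype.card (Fin N → Fin (k + 1)) := by exact_mod_cast Fintype.card_pos
  rw [h2, div_lt_iff₀ hpos] at h1
  linarith

open Classical in
/-- the measure of an event -/
noncomputable def pb {X : Type} [Fintype X] (μ : X → ℝ) (Q : X → Prop) : ℝ :=
  ∑ E, if Q E then μ E else 0

section pb

variable {X : Type} [Fintype X] {μ : X → ℝ}

theorem pb_nonneg (h0 : ∀ E, 0 ≤ μ E) (Q : X → Prop) : 0 ≤ pb μ Q := by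
  unfold pb
  refine sum_nonneg fun E _ => ?_
  split_ifs
  · exact h0 E
  · exact le_rfl

theorem pb_le (h0 : ∀ E, 0 ≤ μ E) (h1 : ∑ E, μ E = 1) (Q : X → Prop) : pb μ Q ≤ 1 := by
  rw [← h1]
  unfold pb
  refine sum_le_sum fun E _ => ?_
  split_ifs
  · exact le_rfl
  · exact h0 E

/-- independence -/
theorem pb_prod {s : ℕ} (μ : Fin s → X → ℝ) (Q : X → Prop) :
    pb (fun E : Fin s → X => ∏ i, μ i (E i)) (fun E => ∀ i, Q (E i)) = ∏ i, pb (μ i) Q := by
  classical
  unfold pb
  rw [prod_univ_sum]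
  rw [Fintype.piFinset_univ]
  refine sum_congr rfl fun E _ => ?_
  by_cases h : ∀ i, Q (E i)
  · rw [if_pos h]
    exact prod_congr rfl fun i _ => (if_pos (h i)).symm
  · rw [if_neg h]
    push Not at h
    obtain ⟨i, hi⟩ := h
    exact (prod_eq_zero (mem_univ i) (if_neg hi)).symm

end pb

/-- Let `μ i` be probability measures on the sets of words, such that every word belongs to a random
set with probability at least `δ`. Then there is a line which is contained in the random set with
positive probability, for all `i` at once. -/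
theorem dist_line (k s : ℕ) {δ : ℝ} (hδ : 0 < δ) :
    ∃ (N : ℕ) (c : ℝ), 0 < c ∧ ∀ μ : Fin s → Finset (Fin N → Fin (k + 1)) → ℝ,
      (∀ i E, 0 ≤ μ i E) → (∀ i, ∑ E, μ i E = 1) → (∀ i w, δ ≤ pb (μ i) (fun E => w ∈ E)) →
      ∃ V : Fin N → Fin (k + 1) ⊕ Unit, Pr V ∧
        ∀ i, c ≤ pb (μ i) (fun E => ∀ a, ap V (fun _ => a) ∈ E) := by
  classical
  obtain ⟨N, hN⟩ := line_of_dens k (δ := δ ^ s / 2) (by positivity)
  set L : ℕ := Fintype.card (Fin N → Fin (k + 1) ⊕ Unit) with hL
  set c : ℝ := δ ^ s / (2 * (L + 1)) with hc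
  have hc0 : 0 < c := by positivity
  refine ⟨N, c, hc0, fun μ h0 h1 hm => ?_⟩
  by_contra hcon
  push Not at hcon
  set W : ℝ := (Fintype.card (Fin N → Fin (k + 1)) : ℝ) with hW
  have hWpos : 0 < W := by rw [hW]; exact_mod_cast Fintype.card_pos
  -- the product measure
  set M : (Fin s → Finset (Fin N → Fin (k + 1))) → ℝ := fun E => ∏ i, μ i (E i) with hM
  have hM0 : ∀ E, 0 ≤ M E := fun E => prod_nonneg fun i _ => h0 i _
  have key1 : ∑ E, M E = 1 := by
    have h2 := pb_prod μ (fun _ => True)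
    unfold pb at h2
    simp only [implies_true, if_true] at h2
    rw [hM, h2]
    exact prod_eq_one fun i _ => h1 i
  -- lower bound
  have hlow : δ ^ s * W ≤ ∑ E : Fin s → Finset (Fin N → Fin (k + 1)),
      M E * ((univ.filter fun w : Fin N → Fin (k + 1) => ∀ i, w ∈ E i).card : ℝ) := by
    have e1 : ∀ E : Fin s → Finset (Fin N → Fin (k + 1)),
        M E * ((univ.filter fun w : Fin N → Fin (k + 1) => ∀ i, w ∈ E i).card : ℝ) =
        ∑ w : Fin N → Fin (k + 1), if ∀ i, w ∈ E i then M E else 0 := by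
      intro E
      rw [← sum_filter, sum_const, nsmul_eq_mul, mul_comm]
    rw [sum_congr rfl fun E _ => e1 E, sum_comm]
    calc δ ^ s * W = ∑ _w : Fin N → Fin (k + 1), δ ^ s := by
          rw [sum_const, card_univ, nsmul_eq_mul, mul_comm]
      _ ≤ ∑ w : Fin N → Fin (k + 1), pb M (fun E => ∀ i, w ∈ E i) := by
          refine sum_le_sum fun w _ => ?_
          rw [pb_prod μ (fun E => w ∈ E)]
          calc δ ^ s = ∏ _i : Fin s, δ := by rw [prod_const, card_univ, Fintype.card_fin]
            _ ≤ _ := prod_le_prod (fun i _ => hδ.le) fun i _ => hm i w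
      _ = _ := by
          refine sum_congr rfl fun w _ => sum_congr rfl fun E _ => ?_
          congr
  -- upper bound
  have hpt : ∀ E : Fin s → Finset (Fin N → Fin (k + 1)),
      M E * ((univ.filter fun w : Fin N → Fin (k + 1) => ∀ i, w ∈ E i).card : ℝ) ≤
      M E * (δ ^ s / 2 * W) + W * ∑ V : Fin N → Fin (k + 1) ⊕ Unit,
        if Pr V then (if ∀ i, ∀ a, ap V (fun _ => a) ∈ E i then M E else 0) else 0 := by
    intro E
    have hnn : ∀ V : Fin N → Fin (k + 1) ⊕ Unit, 0 ≤
        (if Pr V then (if ∀ i, ∀ a, ap V (fun _ => a) ∈ E i then M E else 0) else 0) := by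
      intro V
      split_ifs
      · exact hM0 E
      · exact le_rfl
      · exact le_rfl
    by_cases hd : δ ^ s / 2 * W ≤
        ((univ.filter fun w : Fin N → Fin (k + 1) => ∀ i, w ∈ E i).card : ℝ)
    · obtain ⟨V, hV, hVa⟩ := hN _ hd
      have h2 : M E ≤ ∑ V : Fin N → Fin (k + 1) ⊕ Unit,
          if Pr V then (if ∀ i, ∀ a, ap V (fun _ => a) ∈ E i then M E else 0) else 0 := by
        refine le_trans (le_of_eq ?_) (single_le_sum (fun V _ => hnn V) (mem_univ V))
        rw [if_pos hV, if_pos]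
        intro i a
        exact (mem_filter.1 (hVa a)).2 i
      have h3 : ((univ.filter fun w : Fin N → Fin (k + 1) => ∀ i, w ∈ E i).card : ℝ) ≤ W := by
        rw [hW]
        exact_mod_cast card_le_univ _
      have h4 := mul_le_mul_of_nonneg_left h3 (hM0 E)
      have h5 := mul_le_mul_of_nonneg_left h2 hWpos.le
      have h6 : 0 ≤ M E * (δ ^ s / 2 * W) := mul_nonneg (hM0 E) (by positivity)
      nlinarith
    · push Not at hd
      have h4 := mul_le_mul_of_nonneg_left hd.le (hM0 E)
      have h5 : 0 ≤ W * ∑ V : Fin N → Fin (k + 1) ⊕ Unit,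
        if Pr V then (if ∀ i, ∀ a, ap V (fun _ => a) ∈ E i then M E else 0) else 0 :=
        mul_nonneg hWpos.le (sum_nonneg fun V _ => hnn V)
      linarith
  have hup := hlow.trans (sum_le_sum fun E _ => hpt E)
  rw [sum_add_distrib, ← sum_mul, key1, one_mul, ← mul_sum, sum_comm] at hup
  have hV : ∀ V : Fin N → Fin (k + 1) ⊕ Unit,
      ∑ E : Fin s → Finset (Fin N → Fin (k + 1)),
        (if Pr V then (if ∀ i, ∀ a, ap V (fun _ => a) ∈ E i then M E else 0) else 0) ≤ c := by
    intro V
    by_cases hV : Pr V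
    · simp only [if_pos hV]
      have h5 : ∑ E : Fin s → Finset (Fin N → Fin (k + 1)),
          (if ∀ i, ∀ a, ap V (fun _ => a) ∈ E i then M E else 0) =
          ∏ i, pb (μ i) (fun E => ∀ a, ap V (fun _ => a) ∈ E) := by
        rw [← pb_prod]
        unfold pb
        refine sum_congr rfl fun E _ => ?_
        congr
      obtain ⟨i, hi⟩ := hcon V hV
      have h6 : ∏ i, pb (μ i) (fun E => ∀ a, ap V (fun _ => a) ∈ E) ≤ c := by
        rw [← mul_prod_erase _ (fun j => pb (μ j) (fun E => ∀ a, ap V (fun _ => a) ∈ E))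
          (mem_univ i)]
        have h7 : ∏ j ∈ univ.erase i, pb (μ j) (fun E => ∀ a, ap V (fun _ => a) ∈ E) ≤ 1 :=
          prod_le_one (fun j _ => pb_nonneg (h0 j) _) fun j _ => pb_le (h0 j) (h1 j) _
        have h8 : 0 ≤ ∏ j ∈ univ.erase i, pb (μ j) (fun E => ∀ a, ap V (fun _ => a) ∈ E) :=
          prod_nonneg fun j _ => pb_nonneg (h0 j) _
        have h9 := pb_nonneg (h0 i) (fun E => ∀ a, ap V (fun _ => a) ∈ E)
        calc _ ≤ c * 1 := mul_le_mul hi.le h7 h8 hc0.le
          _ = c := mul_one c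
      exact (le_of_eq h5).trans h6
    · simp only [if_neg hV, sum_const_zero]
      exact hc0.le
  have hsum := sum_le_sum fun V (_ : V ∈ (univ : Finset (Fin N → Fin (k + 1) ⊕ Unit))) => hV V
  rw [sum_const, card_univ, nsmul_eq_mul, ← hL] at hsum
  have h7 : (L : ℝ) * c < δ ^ s / 2 := by
    rw [hc]
    have hL1 : (0 : ℝ) < (L : ℝ) + 1 := by positivity
    have hδs : 0 < δ ^ s := by positivity
    rw [← sub_pos]
    have : δ ^ s / 2 - L * (δ ^ s / (2 * (L + 1))) = δ ^ s / (2 * (L + 1)) := by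
      field_simp
      ring
    rw [this]
    positivity
  have h8 := mul_le_mul_of_nonneg_left hsum hWpos.le
  have h9 : W * (L * c) < W * (δ ^ s / 2) := mul_lt_mul_of_pos_left h7 hWpos
  linarith

/-- sums along a line -/
theorem sum_line {k N : ℕ} (V : Fin N → Fin (k + 1) ⊕ Unit) (g : Fin N → Fin (k + 1) → ℝ) :
    ∃ s : ℝ, ∀ a, ∑ i, g i (ap V (fun _ => a) i) =
      s + ∑ i ∈ univ.filter (fun i => V i = Sum.inr ()), g i a := by
  classical
  refine ⟨∑ i ∈ univ.filter (fun i => ¬ V i = Sum.inr ()), g i (ap V (fun _ => 0) i), fun a => ?_⟩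
  rw [← sum_filter_add_sum_filter_not univ (fun i => V i = Sum.inr ()), add_comm]
  congr 1
  · refine sum_congr rfl fun i hi => ?_
    have h := (mem_filter.1 hi).2
    congr 1
    unfold ap
    rcases hV : V i with b | u
    · rfl
    · exact absurd (by rw [hV]) h
  · refine sum_congr rfl fun i hi => ?_
    have h := (mem_filter.1 hi).2
    congr 1
    unfold ap
    rw [h]
    rfl

end Pool.Agent.Run7.h587.DHZ
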