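import Pool.Agent.Run7.h587.EvenCore

set_option autoImplicit false

namespace Run7.h587

variable {K : Type*} [Field K] {f : AbsoluteValue K ℝ}

/-- the binary form `x⁴ + A x² y² + m² y⁴` -/
def bq (A m x y : K) : K := x ^ 4 + A * x ^ 2 * y ^ 2 + m ^ 2 * y ^ 4

/-- infinitely many solutions of `bq(x,y) = c bq(z,w)` with one fixed nonzero coordinate -/
def InfE (A m c : K) : Prop := ∃ (i : Fin 4) (t : K), t ≠ 0 ∧
  {y : Fin 4 → K | y i = t ∧ bq A m (y 0) (y 1) = c * bq A m (y 2) (y 3)}.Infinite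

theorem infE_of_inj [CharZero K] {A m c : K} (g : K → (Fin 4 → K)) (i j : Fin 4) {t s : K}
    (ht : t ≠ 0) (hs : s ≠ 0) (hi : ∀ u, g u i = t) (hj : ∀ u, g u j = u * s)
    (hg : ∀ u, bq A m (g u 0) (g u 1) = c * bq A m (g u 2) (g u 3)) : InfE A m c := by
  have hinj : Function.Injective g := by
    intro u v e
    have e1 := congrFun e j
    rw [hj, hj] at e1
    exact mul_right_cancel₀ hs e1
  refine ⟨i, t, ht, (Set.infinite_range_of_injective hinj).mono ?_⟩
  rintro _ ⟨u, rfl⟩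
  exact ⟨hi u, hg u⟩

theorem InfE.t1 {A m c : K} (hm : m ≠ 0) (h : InfE A m (c * m ^ 2)) : InfE A m c := by
  obtain ⟨i, t, ht, h⟩ := h
  let g : (Fin 4 → K) → (Fin 4 → K) := fun y => ![y 0, y 1, m * y 3, y 2]
  have hinj : Function.Injective g := by
    intro y y' e
    have e0 := congrFun e 0
    have e1 := congrFun e 1
    have e2 := congrFun e 2
    have e3 := congrFun e 3
    simp [g] at e0 e1 e2 e3
    ext j
    fin_cases j
    · exact e0
    · exact e1
    · exact e3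
    · exact e2.resolve_right hm
  have hsol : ∀ y : Fin 4 → K, bq A m (y 0) (y 1) = c * m ^ 2 * bq A m (y 2) (y 3) →
      bq A m (g y 0) (g y 1) = c * bq A m (g y 2) (g y 3) := by
    intro y hy
    simp only [g, Matrix.cons_val_zero, Matrix.cons_val_one, Matrix.cons_val]
    rw [hy]
    unfold bq
    ring
  have hi := h.image (f := g) (hinj.injOn)
  fin_cases i
  · exact ⟨0, t, ht, hi.mono (by rintro _ ⟨y, ⟨h1, h2⟩, rfl⟩; exact ⟨h1, hsol y h2⟩)⟩
  · exact ⟨1, t, ht, hi.mono (by rintro _ ⟨y, ⟨h1, h2⟩, rfl⟩; exact ⟨h1, hsol y h2⟩)⟩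
  · exact ⟨3, t, ht, hi.mono (by rintro _ ⟨y, ⟨h1, h2⟩, rfl⟩; exact ⟨h1, hsol y h2⟩)⟩
  · exact ⟨2, m * t, mul_ne_zero hm ht, hi.mono (by
      rintro _ ⟨y, ⟨h1, h2⟩, rfl⟩; exact ⟨congrArg (m * ·) h1, hsol y h2⟩)⟩

theorem InfE.t2 {A m c : K} (hc : c ≠ 0) (h : InfE A m c⁻¹) : InfE A m c := by
  obtain ⟨i, t, ht, h⟩ := h
  let g : (Fin 4 → K) → (Fin 4 → K) := fun y => ![y 2, y 3, y 0, y 1]
  have hinj : Function.Injective g := by
    intro y y' e
    have e0 := congrFun e 0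
    have e1 := congrFun e 1
    have e2 := congrFun e 2
    have e3 := congrFun e 3
    simp [g] at e0 e1 e2 e3
    ext j
    fin_cases j
    · exact e2
    · exact e3
    · exact e0
    · exact e1
  have hsol : ∀ y : Fin 4 → K, bq A m (y 0) (y 1) = c⁻¹ * bq A m (y 2) (y 3) →
      bq A m (g y 0) (g y 1) = c * bq A m (g y 2) (g y 3) := by
    intro y hy
    simp only [g, Matrix.cons_val_zero, Matrix.cons_val_one, Matrix.cons_val]
    rw [hy, ← mul_assoc, mul_inv_cancel₀ hc, one_mul]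
  have hi := h.image (f := g) (hinj.injOn)
  fin_cases i
  · exact ⟨2, t, ht, hi.mono (by rintro _ ⟨y, ⟨h1, h2⟩, rfl⟩; exact ⟨h1, hsol y h2⟩)⟩
  · exact ⟨3, t, ht, hi.mono (by rintro _ ⟨y, ⟨h1, h2⟩, rfl⟩; exact ⟨h1, hsol y h2⟩)⟩
  · exact ⟨0, t, ht, hi.mono (by rintro _ ⟨y, ⟨h1, h2⟩, rfl⟩; exact ⟨h1, hsol y h2⟩)⟩
  · exact ⟨1, t, ht, hi.mono (by rintro _ ⟨y, ⟨h1, h2⟩, rfl⟩; exact ⟨h1, hsol y h2⟩)⟩

/-- points obtained from parameters, injectivity seen on the third or the fourth coordinate -/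
theorem infE_of_sqSet {A m k x y z w a b c : K} (hx : x ≠ 0)
    (hbc : (b ≠ 0 ∧ z ≠ 0) ∨ (c ≠ 0 ∧ w ≠ 0))
    (hT : ∀ T : K, x ^ 4 + A * x ^ 2 * (y ^ 2 * (1 + a * T)) + m ^ 2 * (y ^ 2 * (1 + a * T)) ^ 2 =
      k * ((z ^ 2 * (1 + b * T)) ^ 2 + A * (z ^ 2 * (1 + b * T)) * (w ^ 2 * (1 + c * T)) +
        m ^ 2 * (w ^ 2 * (1 + c * T)) ^ 2))
    (h : (SqSet a b c).Infinite) : InfE A m k := by
  refine ⟨0, x, hx, ?_⟩
  have hex : ∀ T : SqSet a b c, ∃ v : Fin 4 → K, (v 0 = x ∧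
      bq A m (v 0) (v 1) = k * bq A m (v 2) (v 3)) ∧
      v 2 ^ 2 = z ^ 2 * (1 + b * T) ∧ v 3 ^ 2 = w ^ 2 * (1 + c * T) := by
    rintro ⟨T, ⟨r, hr⟩, ⟨s, hs⟩, ⟨t, ht⟩⟩
    refine ⟨![x, y * r, z * s, w * t], ⟨rfl, ?_⟩, ?_, ?_⟩
    · simp only [Matrix.cons_val_zero, Matrix.cons_val_one, Matrix.cons_val]
      have e1 : (y * r) ^ 2 = y ^ 2 * (1 + a * T) := by rw [hr]; ring
      have e2 : (z * s) ^ 2 = z ^ 2 * (1 + b * T) := by rw [hs]; ring
      have e3 : (w * t) ^ 2 = w ^ 2 * (1 + c * T) := by rw [ht]; ring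
      have e4 : ∀ u : K, u ^ 4 = (u ^ 2) ^ 2 := fun u => by ring
      unfold bq
      rw [e4 (y * r), e4 (z * s), e4 (w * t), e1, e2, e3]
      exact hT T
    · simp only [Matrix.cons_val]
      rw [hs]; ring
    · simp only [Matrix.cons_val]
      rw [ht]; ring
  choose g hg1 hg2 hg3 using hex
  have hinj : Function.Injective g := by
    intro T T' e
    rcases hbc with ⟨hb, hz⟩ | ⟨hc, hw⟩
    · have h1 := hg2 T
      rw [e, hg2 T'] at h1
      have h3 := mul_left_cancel₀ (pow_ne_zero 2 hz) h1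
      have h4 : b * (T' : K) = b * (T : K) := by linear_combination h3
      exact (Subtype.ext (mul_left_cancel₀ hb h4)).symm
    · have h1 := hg3 T
      rw [e, hg3 T'] at h1
      have h3 := mul_left_cancel₀ (pow_ne_zero 2 hw) h1
      have h4 : c * (T' : K) = c * (T : K) := by linear_combination h3
      exact (Subtype.ext (mul_left_cancel₀ hc h4)).symm
  have : Infinite (SqSet a b c) := h.to_subtype
  have hr : (Set.range g).Infinite := Set.infinite_range_of_injective hinj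
  exact hr.mono (by rintro _ ⟨T, rfl⟩; exact hg1 T)

theorem even_alg1 {X Y Z W A m c T : K} (hX : X ≠ 0) (hm : m ≠ 0)
    (heq : X ^ 2 + A * X * Y + m ^ 2 * Y ^ 2 = c * (Z ^ 2 + A * Z * W + m ^ 2 * W ^ 2)) :
    X ^ 2 + A * X * (Y + (X ^ 2 + A * X * Y + m ^ 2 * Y ^ 2) / (m * X) * T) +
      m ^ 2 * (Y + (X ^ 2 + A * X * Y + m ^ 2 * Y ^ 2) / (m * X) * T) ^ 2 =
    c * ((Z + m * (Y * Z - X * W) / X * T) ^ 2 +
      A * (Z + m * (Y * Z - X * W) / X * T) * (W + (X * Z + A * X * W + m ^ 2 * Y * W) / (m * X) * T) +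
      m ^ 2 * (W + (X * Z + A * X * W + m ^ 2 * Y * W) / (m * X) * T) ^ 2) := by
  field_simp
  linear_combination (m * X ^ 2 + T * X * (A * X + 2 * m ^ 2 * Y) + T ^ 2 * m * (X ^ 2 + A * X * Y + m ^ 2 * Y ^ 2)) * heq

theorem even_alg2 {X Y Z W A m c T : K} (hX : X ≠ 0) (hm : m ≠ 0)
    (heq : X ^ 2 + A * X * Y + m ^ 2 * Y ^ 2 = c * (Z ^ 2 + A * Z * W + m ^ 2 * W ^ 2)) :
    X ^ 2 + A * X * (Y + (X ^ 2 + A * X * Y + m ^ 2 * Y ^ 2) / (m * X) * T) +
      m ^ 2 * (Y + (X ^ 2 + A * X * Y + m ^ 2 * Y ^ 2) / (m * X) * T) ^ 2 =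
    c * ((Z + (A * X * Z + m ^ 2 * (Y * Z + X * W)) / (m * X) * T) ^ 2 +
      A * (Z + (A * X * Z + m ^ 2 * (Y * Z + X * W)) / (m * X) * T) *
        (W + (m ^ 2 * Y * W - X * Z) / (m * X) * T) +
      m ^ 2 * (W + (m ^ 2 * Y * W - X * Z) / (m * X) * T) ^ 2) := by
  field_simp
  linear_combination (m ^ 2 * X ^ 2 + T * m * X * (A * X + 2 * m ^ 2 * Y) + T ^ 2 * m ^ 2 * (X ^ 2 + A * X * Y + m ^ 2 * Y ^ 2)) * heq

variable [CharZero K]

/-- all coordinates nonzero -/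
theorem infE_of_nonzero (h : TwoLike f) {A m c : K} (hm : m ≠ 0)
    (ha : f (A / m) = 1 ∨ f (A / m) ≤ f 2 ^ 2) {x y z w : K} (hx : x ≠ 0) (hy : y ≠ 0)
    (hz : z ≠ 0) (hw : w ≠ 0) (heq : bq A m x y = c * bq A m z w) : InfE A m c := by
  by_cases hF : bq A m x y = 0
  · -- both sides vanish
    have hG : c * bq A m z w = 0 := by rw [← heq, hF]
    refine infE_of_inj (fun u => ![x, y, u * z, u * w]) 0 2 hx hz (fun _ => rfl) (fun _ => rfl) ?_
    intro u
    simp only [Matrix.cons_val_zero, Matrix.cons_val_one, Matrix.cons_val]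
    have e : bq A m (u * z) (u * w) = u ^ 4 * bq A m z w := by unfold bq; ring
    rw [hF, e]
    linear_combination (-u ^ 4) * hG
  have hG : bq A m z w ≠ 0 := by
    intro h0; rw [h0, mul_zero] at heq; exact hF heq
  by_cases hr1 : (y * z / (x * w)) ^ 2 = 1
  · -- `(x, y) = lam (z, ± w)`
    have e0 : (y * z) ^ 2 = (x * w) ^ 2 := by
      rw [div_pow, div_eq_one_iff_eq (pow_ne_zero 2 (mul_ne_zero hx hw))] at hr1
      exact hr1
    have hc : c * z ^ 4 = x ^ 4 := by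
      apply mul_right_cancel₀ hG
      have e1 : bq A m x y * z ^ 4 = x ^ 4 * bq A m z w := by
        unfold bq
        linear_combination (A * x ^ 2 * z ^ 2 + m ^ 2 * (y ^ 2 * z ^ 2 + x ^ 2 * w ^ 2)) * e0
      linear_combination (-z ^ 4) * heq + e1
    refine infE_of_inj (fun u => ![x, u * x, z, u * z]) 0 1 hx hx (fun _ => rfl) (fun _ => rfl) ?_
    intro u
    simp only [Matrix.cons_val_zero, Matrix.cons_val_one, Matrix.cons_val]
    unfold bq
    linear_combination (-(1 + A * u ^ 2 + m ^ 2 * u ^ 4)) * hc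
  by_cases hp1 : (m * y * w / (x * z)) ^ 2 = 1
  · -- `(x, y) = lam (m w, ± z)`
    have e0 : (m * y * w) ^ 2 = (x * z) ^ 2 := by
      rw [div_pow, div_eq_one_iff_eq (pow_ne_zero 2 (mul_ne_zero hx hz))] at hp1
      exact hp1
    have hc : c * z ^ 4 = m ^ 2 * y ^ 4 := by
      apply mul_right_cancel₀ hG
      have e1 : bq A m x y * z ^ 4 = m ^ 2 * y ^ 4 * bq A m z w := by
        unfold bq
        linear_combination (-(A * y ^ 2 * z ^ 2) - (m ^ 2 * y ^ 2 * w ^ 2 + x ^ 2 * z ^ 2)) * e0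
      linear_combination (-z ^ 4) * heq + e1
    refine infE_of_inj (fun u => ![u * (m * y), y, z, u * z]) 2 3 hz hz (fun _ => rfl)
      (fun _ => rfl) ?_
    intro u
    simp only [Matrix.cons_val_zero, Matrix.cons_val_one, Matrix.cons_val]
    unfold bq
    linear_combination (-(1 + A * u ^ 2 + m ^ 2 * u ^ 4)) * hc
  set r := y * z / (x * w) with hr
  set p := m * y * w / (x * z) with hp
  have hr0 : r ≠ 0 := div_ne_zero (mul_ne_zero hy hz) (mul_ne_zero hx hw)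
  have hp0 : p ≠ 0 := div_ne_zero (mul_ne_zero (mul_ne_zero hm hy) hw) (mul_ne_zero hx hz)
  rcases even_core h hr0 hp0 hr1 hp1 ha with hG1 | hG1
  · have hinf := hG1.infinite h.na h.lt h.pos
    refine infE_of_sqSet (x := x) (y := y) (z := z) (w := w) hx (Or.inl ⟨?_, hz⟩) ?_ hinf
    · -- `(Rm r)(Rm p) + (Rm r)(Rp p) = 2 p Rm r`
      have e : Rm r * Rm p + Rm r * Rp p = 2 * p * Rm r := by unfold Rm Rp; ring
      rw [e]
      exact mul_ne_zero (mul_ne_zero two_ne_zero hp0) (Rm_ne hr0 hr1)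
    · intro T
      have eY : y ^ 2 * (1 + (Rp r * Rp p + 2 * (A / m) + Rm r * Rm p) * T) =
          y ^ 2 + ((x ^ 2) ^ 2 + A * x ^ 2 * y ^ 2 + m ^ 2 * (y ^ 2) ^ 2) / (m * x ^ 2) * (2 * T) := by
        rw [hr, hp]; unfold Rm Rp; field_simp; ring
      have eZ : z ^ 2 * (1 + (Rm r * Rm p + Rm r * Rp p) * T) =
          z ^ 2 + m * (y ^ 2 * z ^ 2 - x ^ 2 * w ^ 2) / x ^ 2 * (2 * T) := by
        rw [hr, hp]; unfold Rm Rp; field_simp; ring
      have eW : w ^ 2 * (1 + (Rm r * Rp p + (Rp r * Rp p + 2 * (A / m))) * T) =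
          w ^ 2 + (x ^ 2 * z ^ 2 + A * x ^ 2 * w ^ 2 + m ^ 2 * y ^ 2 * w ^ 2) / (m * x ^ 2) *
            (2 * T) := by
        rw [hr, hp]; unfold Rm Rp; field_simp; ring
      rw [eY, eZ, eW]
      have ex : x ^ 4 = (x ^ 2) ^ 2 := by ring
      rw [ex]
      exact even_alg1 (pow_ne_zero 2 hx) hm (by unfold bq at heq; linear_combination heq)
  · have hinf := hG1.infinite h.na h.lt h.pos
    refine infE_of_sqSet (x := x) (y := y) (z := z) (w := w) hx (Or.inr ⟨?_, hw⟩) ?_ hinf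
    · have e : Rm p * Rp r + Rm r * Rm p = 2 * r * Rm p := by unfold Rm Rp; ring
      rw [e]
      exact mul_ne_zero (mul_ne_zero two_ne_zero hr0) (Rm_ne hp0 hp1)
    · intro T
      have eY : y ^ 2 * (1 + (Rm r * Rm p + (Rp r * Rp p + 2 * (A / m))) * T) =
          y ^ 2 + ((x ^ 2) ^ 2 + A * x ^ 2 * y ^ 2 + m ^ 2 * (y ^ 2) ^ 2) / (m * x ^ 2) * (2 * T) := by
        rw [hr, hp]; unfold Rm Rp; field_simp; ring
      have eZ : z ^ 2 * (1 + (Rp r * Rp p + 2 * (A / m) + Rm p * Rp r) * T) =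
          z ^ 2 + (A * x ^ 2 * z ^ 2 + m ^ 2 * (y ^ 2 * z ^ 2 + x ^ 2 * w ^ 2)) / (m * x ^ 2) *
            (2 * T) := by
        rw [hr, hp]; unfold Rm Rp; field_simp; ring
      have eW : w ^ 2 * (1 + (Rm p * Rp r + Rm r * Rm p) * T) =
          w ^ 2 + (m ^ 2 * y ^ 2 * w ^ 2 - x ^ 2 * z ^ 2) / (m * x ^ 2) * (2 * T) := by
        rw [hr, hp]; unfold Rm Rp; field_simp; ring
      rw [eY, eZ, eW]
      have ex : x ^ 4 = (x ^ 2) ^ 2 := by ring
      rw [ex]
      exact even_alg2 (pow_ne_zero 2 hx) hm (by unfold bq at heq; linear_combination heq)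

omit [CharZero K] in
theorem infE_neg {A m c : K} (h : InfE A (-m) c) : InfE A m c := by
  obtain ⟨i, t, ht, h⟩ := h
  refine ⟨i, t, ht, h.mono ?_⟩
  rintro y ⟨h1, h2⟩
  refine ⟨h1, ?_⟩
  unfold bq at h2 ⊢
  linear_combination h2

/-- the three polynomials in `ρ = x²/(m y²)` which control the vanishing of the coordinates -/
def cp1 (a ρ : K) : K := ρ ^ 3 + (a - 1) * ρ ^ 2 + 3 * ρ - 1
/-- second one -/
def cp2 (a ρ : K) : K := -ρ ^ 3 + 3 * ρ ^ 2 + (a - 1) * ρ + 1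
/-- third one -/
def cp3 (a ρ : K) : K := 2 * ρ ^ 2 + (a - 2) * ρ + 2

/-- a point with `w = 0` is moved to a point with nonzero coordinates -/
theorem infE_w_plus (h : TwoLike f) {A m c : K} (hm : m ≠ 0)
    (ha : f (A / m) = 1 ∨ f (A / m) ≤ f 2 ^ 2) {x y z : K} (hx : x ≠ 0) (hy : y ≠ 0)
    (hz : z ≠ 0) (heq : bq A m x y = c * z ^ 4) (hd : x ^ 2 - m * y ^ 2 ≠ 0)
    (hk : x ^ 2 + m * y ^ 2 ≠ 0)
    (h1 : cp1 (A / m) (x ^ 2 / (m * y ^ 2)) ≠ 0) (h2 : cp2 (A / m) (x ^ 2 / (m * y ^ 2)) ≠ 0)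
    (h3 : cp3 (A / m) (x ^ 2 / (m * y ^ 2)) ≠ 0) : InfE A m c := by
  have hY : m * y ^ 2 ≠ 0 := mul_ne_zero hm (pow_ne_zero 2 hy)
  have e1 : x * ((x ^ 2 + m * y ^ 2) * bq A m x y) -
      m * y * (x * y * (2 * (x ^ 2 + m * y ^ 2) ^ 2 - (6 * m - A) * (x * y) ^ 2)) =
      x * (m * y ^ 2) ^ 3 * cp1 (A / m) (x ^ 2 / (m * y ^ 2)) := by
    unfold cp1 bq; field_simp; ring
  have e2 : y * ((x ^ 2 + m * y ^ 2) * bq A m x y) -
      x * (x * y * (2 * (x ^ 2 + m * y ^ 2) ^ 2 - (6 * m - A) * (x * y) ^ 2)) =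
      y * (m * y ^ 2) ^ 3 * cp2 (A / m) (x ^ 2 / (m * y ^ 2)) := by
    unfold cp2 bq; field_simp; ring
  have e3 : z * (x * y * (2 * (x ^ 2 + m * y ^ 2) ^ 2 - (6 * m - A) * (x * y) ^ 2)) =
      z * (x * y) * (m * y ^ 2) ^ 2 * cp3 (A / m) (x ^ 2 / (m * y ^ 2)) := by
    unfold cp3; field_simp; ring
  have key : bq A m (x * ((x ^ 2 + m * y ^ 2) * bq A m x y) -
      m * y * (x * y * (2 * (x ^ 2 + m * y ^ 2) ^ 2 - (6 * m - A) * (x * y) ^ 2)))
      (y * ((x ^ 2 + m * y ^ 2) * bq A m x y) -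
      x * (x * y * (2 * (x ^ 2 + m * y ^ 2) ^ 2 - (6 * m - A) * (x * y) ^ 2))) =
      c * bq A m (z * (x ^ 2 + m * y ^ 2) * (x ^ 2 - m * y ^ 2) ^ 2)
      (z * (x * y * (2 * (x ^ 2 + m * y ^ 2) ^ 2 - (6 * m - A) * (x * y) ^ 2))) := by
    have e : c * bq A m (z * (x ^ 2 + m * y ^ 2) * (x ^ 2 - m * y ^ 2) ^ 2)
      (z * (x * y * (2 * (x ^ 2 + m * y ^ 2) ^ 2 - (6 * m - A) * (x * y) ^ 2))) =
      (c * z ^ 4) * bq A m ((x ^ 2 + m * y ^ 2) * (x ^ 2 - m * y ^ 2) ^ 2)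
      (x * y * (2 * (x ^ 2 + m * y ^ 2) ^ 2 - (6 * m - A) * (x * y) ^ 2)) := by
      unfold bq; ring
    rw [e, ← heq]
    unfold bq
    ring
  refine infE_of_nonzero h hm ha ?_ ?_ ?_ ?_ key
  · rw [e1]
    exact mul_ne_zero (mul_ne_zero hx (pow_ne_zero 3 hY)) h1
  · rw [e2]
    exact mul_ne_zero (mul_ne_zero hy (pow_ne_zero 3 hY)) h2
  · exact mul_ne_zero (mul_ne_zero hz hk) (pow_ne_zero 2 hd)
  · rw [e3]
    exact mul_ne_zero (mul_ne_zero (mul_ne_zero hz (mul_ne_zero hx hy)) (pow_ne_zero 2 hY)) h3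


omit [CharZero K] in
theorem ne_of_abv {x : K} {r : ℝ} (h : f x = r) (hr : 0 < r) : x ≠ 0 := by
  rintro rfl
  rw [map_zero] at h
  linarith

theorem cp_ne (h : TwoLike f) {a ρ : K} (hρ : ρ ≠ 0) (ha : f a = 1 ∨ f a ≤ f 2 ^ 2) :
    (cp1 a ρ ≠ 0 ∧ cp2 a ρ ≠ 0 ∧ cp3 a ρ ≠ 0) ∨
    (cp1 (-a) (-ρ) ≠ 0 ∧ cp2 (-a) (-ρ) ≠ 0 ∧ cp3 (-a) (-ρ) ≠ 0) := by
  have p2 : 0 < f 2 := f.pos h.pos
  have hlt := h.lt
  have h22 : f 2 ^ 2 < f 2 := by nlinarith
  have h23 : f 2 ^ 3 < f 2 := by nlinarith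
  have ha1 : f a ≤ 1 := by
    rcases ha with h1 | h1
    · exact h1.le
    · exact h1.trans (by nlinarith)
  have f3 : f 3 = 1 := by
    have e : (3 : K) = 1 + 2 := by norm_num
    rw [e, na_add_eq h.na, map_one]
    rw [map_one]; exact hlt
  have f4 : f 4 = f 2 ^ 2 := by
    have e : (4 : K) = 2 * 2 := by norm_num
    rw [e, map_mul]; ring
  have pρ : 0 < f ρ := f.pos hρ
  by_cases u : f ρ = 1
  · left
    have hs := h.sq_unit u
    -- each polynomial is `a * unit + 2 * unit` up to smaller terms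
    have main : ∀ v s e : K, f v = 1 → f s = 1 → f e ≤ f 2 ^ 2 → a * v + 2 * s + e ≠ 0 := by
      intro v s e hv hsu he
      rcases ha with h1 | h1
      · have h5 : f (a * v + (2 * s + e)) = 1 := by
          rw [na_add_eq h.na, map_mul, h1, hv, mul_one]
          rw [map_mul f a, h1, hv, mul_one]
          apply na_add_lt h.na
          · rw [map_mul, hsu, mul_one]; exact hlt
          · exact lt_of_le_of_lt he (h22.trans hlt)
        rw [← add_assoc] at h5
        exact ne_of_abv h5 one_pos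
      · have h5 : f (2 * s + (a * v + e)) = f 2 := by
          rw [na_add_eq h.na, map_mul, hsu, mul_one]
          rw [map_mul f 2, hsu, mul_one]
          apply na_add_lt h.na
          · rw [map_mul, hv, mul_one]; exact lt_of_le_of_lt h1 h22
          · exact lt_of_le_of_lt he h22
        have e5 : 2 * s + (a * v + e) = a * v + 2 * s + e := by ring
        rw [e5] at h5
        exact ne_of_abv h5 p2
    have hsmall : ∀ t : K, f t ≤ 1 → f (t * (ρ ^ 2 - 1)) ≤ f 2 ^ 2 := by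
      intro t ht
      rw [map_mul]
      calc f t * f (ρ ^ 2 - 1) ≤ 1 * f 2 ^ 3 := mul_le_mul ht hs (f.nonneg _) zero_le_one
        _ ≤ f 2 ^ 2 := by nlinarith
    have hneg1 : f (-1) = 1 := by rw [f.map_neg, map_one]
    have hnegρ : f (-ρ) = 1 := by rw [f.map_neg, u]
    refine ⟨?_, ?_, ?_⟩
    · have e : cp1 a ρ = a * 1 + 2 * (-1) + (4 * ρ + (ρ + a - 1) * (ρ ^ 2 - 1)) := by
        unfold cp1; ring
      rw [e]
      apply main 1 (-1) _ (map_one f) hneg1
      apply na_add_le h.na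
      · rw [map_mul, u, mul_one, f4]
      · apply hsmall
        exact na_sub_le h.na (na_add_le h.na u.le ha1) (by rw [map_one])
    · have e : cp2 a ρ = a * ρ + 2 * (-ρ) + (4 * 1 + (3 - ρ) * (ρ ^ 2 - 1)) := by
        unfold cp2; ring
      rw [e]
      apply main ρ (-ρ) _ u hnegρ
      apply na_add_le h.na
      · rw [map_mul, map_one, mul_one, f4]
      · apply hsmall
        exact na_sub_le h.na f3.le u.le
    · have e : cp3 a ρ = a * ρ + 2 * (-ρ) + (4 * 1 + 2 * (ρ ^ 2 - 1)) := by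
        unfold cp3; ring
      rw [e]
      apply main ρ (-ρ) _ u hnegρ
      apply na_add_le h.na
      · rw [map_mul, map_one, mul_one, f4]
      · apply hsmall
        exact hlt.le
  · -- the cubics never vanish, and the quadratics do not vanish together
    have ham : f (a - 1) ≤ 1 := na_sub_le h.na ha1 (by rw [map_one])
    have cub : ∀ a' : K, f (a' - 1) ≤ 1 → ∀ σ : K, f σ = f ρ → cp1 a' σ ≠ 0 ∧ cp2 a' σ ≠ 0 := by
      intro a' ha' σ hσ
      rcases lt_or_gt_of_ne u with hl | hg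
      · -- constant term dominates
        have hl' : f σ < 1 := by rw [hσ]; exact hl
        have pσ : 0 ≤ f σ := f.nonneg _
        have h1 : f (σ ^ 3) < 1 := by
          rw [map_pow]; exact pow_lt_one₀ pσ hl' (by norm_num)
        have h2 : ∀ t : K, f t ≤ 1 → f (t * σ ^ 2) < 1 := by
          intro t ht
          rw [map_mul, map_pow]
          calc f t * f σ ^ 2 ≤ 1 * f σ ^ 2 :=
                mul_le_mul_of_nonneg_right ht (by positivity)
            _ < 1 := by rw [one_mul]; exact pow_lt_one₀ pσ hl' (by norm_num)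
        have h3 : ∀ t : K, f t ≤ 1 → f (t * σ) < 1 := by
          intro t ht
          rw [map_mul]
          calc f t * f σ ≤ 1 * f σ := mul_le_mul_of_nonneg_right ht pσ
            _ < 1 := by rw [one_mul]; exact hl'
        constructor
        · have h5 : f (cp1 a' σ) = 1 := by
            unfold cp1
            rw [na_sub_eq' h.na, map_one]
            rw [map_one]
            exact na_add_lt h.na (na_add_lt h.na h1 (h2 _ ha')) (h3 _ f3.le)
          exact ne_of_abv h5 one_pos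
        · have h5 : f (cp2 a' σ) = 1 := by
            unfold cp2
            rw [add_comm, na_add_eq h.na, map_one]
            rw [map_one]
            refine na_add_lt h.na (na_add_lt h.na ?_ (h2 _ f3.le)) (h3 _ ha')
            rw [f.map_neg]; exact h1
          exact ne_of_abv h5 one_pos
      · have hg' : 1 < f σ := by rw [hσ]; exact hg
        have pσ : 0 < f σ := by linarith
        have hc : f (σ ^ 3) = f σ ^ 3 := map_pow _ _ _
        have h2 : ∀ t : K, f t ≤ 1 → f (t * σ ^ 2) < f σ ^ 3 := by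
          intro t ht
          rw [map_mul, map_pow]
          calc f t * f σ ^ 2 ≤ 1 * f σ ^ 2 := mul_le_mul_of_nonneg_right ht (by positivity)
            _ < f σ * f σ ^ 2 := mul_lt_mul_of_pos_right hg' (by positivity)
            _ = f σ ^ 3 := by ring
        have h3 : ∀ t : K, f t ≤ 1 → f (t * σ) < f σ ^ 3 := by
          intro t ht
          rw [map_mul]
          calc f t * f σ ≤ 1 * f σ := mul_le_mul_of_nonneg_right ht pσ.le
            _ < f σ ^ 2 * f σ := by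
                apply mul_lt_mul_of_pos_right _ pσ
                nlinarith
            _ = f σ ^ 3 := by ring
        have h4 : f 1 < f σ ^ 3 := by
          rw [map_one]
          exact one_lt_pow₀ hg' (by norm_num)
        constructor
        · have h5 : f (cp1 a' σ) = f σ ^ 3 := by
            have e : cp1 a' σ = σ ^ 3 + ((a' - 1) * σ ^ 2 + 3 * σ - 1) := by unfold cp1; ring
            rw [e, na_add_eq h.na, hc]
            rw [hc]
            exact na_sub_lt h.na (na_add_lt h.na (h2 _ ha') (h3 _ f3.le)) h4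
          exact ne_of_abv h5 (by positivity)
        · have h5 : f (cp2 a' σ) = f σ ^ 3 := by
            have e : cp2 a' σ = -(σ ^ 3 - (3 * σ ^ 2 + (a' - 1) * σ + 1)) := by unfold cp2; ring
            rw [e, f.map_neg, na_sub_eq h.na, hc]
            rw [hc]
            exact na_add_lt h.na (na_add_lt h.na (h2 _ f3.le) (h3 _ ha')) h4
          exact ne_of_abv h5 (by positivity)
    have ham' : f (-a - 1) ≤ 1 := na_sub_le h.na (by rw [f.map_neg]; exact ha1) (by rw [map_one])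
    obtain ⟨c1, c2⟩ := cub a ham ρ rfl
    obtain ⟨d1, d2⟩ := cub (-a) ham' (-ρ) (by rw [f.map_neg])
    by_cases c3 : cp3 a ρ = 0
    · right
      refine ⟨d1, d2, ?_⟩
      intro h0
      have : (4 : K) * ρ = 0 := by
        unfold cp3 at c3 h0
        linear_combination h0 - c3
      rcases mul_eq_zero.mp this with h6 | h6
      · norm_num at h6
      · exact hρ h6
    · exact Or.inl ⟨c1, c2, c3⟩

/-- a point with `w = 0` -/
theorem infE_of_w (h : TwoLike f) {A m c : K} (hm : m ≠ 0) (hc : c ≠ 0)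
    (ha : f (A / m) = 1 ∨ f (A / m) ≤ f 2 ^ 2)
    (hex1 : ¬ ∃ s t : K, s ^ 2 = m ∧ c * m = (2 * m + A) * t ^ 4)
    (hex2 : ¬ ∃ s t : K, s ^ 2 = -m ∧ c * m = (2 * m - A) * t ^ 4)
    {x y z : K} (hne : ¬ (x = 0 ∧ y = 0 ∧ z = 0)) (heq : bq A m x y = c * z ^ 4) :
    InfE A m c := by
  by_cases hz : z = 0
  · have h0 : bq A m x y = 0 := by rw [heq, hz]; ring
    have hg : ∀ u : K, bq A m ((![x, y, u * x, u * y] : Fin 4 → K) 0)
        ((![x, y, u * x, u * y] : Fin 4 → K) 1) =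
        c * bq A m ((![x, y, u * x, u * y] : Fin 4 → K) 2)
        ((![x, y, u * x, u * y] : Fin 4 → K) 3) := by
      intro u
      simp only [Matrix.cons_val_zero, Matrix.cons_val_one, Matrix.cons_val]
      have e : bq A m (u * x) (u * y) = u ^ 4 * bq A m x y := by unfold bq; ring
      rw [e, h0]; ring
    by_cases hx : x = 0
    · have hy : y ≠ 0 := fun hy => hne ⟨hx, hy, hz⟩
      exact infE_of_inj (fun u => ![x, y, u * x, u * y]) 1 3 hy hy (fun _ => rfl) (fun _ => rfl) hg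
    · exact infE_of_inj (fun u => ![x, y, u * x, u * y]) 0 2 hx hx (fun _ => rfl) (fun _ => rfl) hg
  by_cases hx : x = 0
  · subst hx
    have hy : y ≠ 0 := by
      rintro rfl
      have : c * z ^ 4 = 0 := by rw [← heq]; unfold bq; ring
      exact hz (pow_eq_zero_iff (by norm_num) |>.mp ((mul_eq_zero.mp this).resolve_left hc))
    have hc' : c * z ^ 4 = m ^ 2 * y ^ 4 := by rw [← heq]; unfold bq; ring
    refine infE_of_inj (fun u => ![u * (m * y), y, z, u * z]) 2 3 hz hz (fun _ => rfl)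
      (fun _ => rfl) ?_
    intro u
    simp only [Matrix.cons_val_zero, Matrix.cons_val_one, Matrix.cons_val]
    unfold bq
    linear_combination (-(1 + A * u ^ 2 + m ^ 2 * u ^ 4)) * hc'
  by_cases hy : y = 0
  · subst hy
    have hc' : c * z ^ 4 = x ^ 4 := by rw [← heq]; unfold bq; ring
    refine infE_of_inj (fun u => ![x, u * x, z, u * z]) 0 1 hx hx (fun _ => rfl) (fun _ => rfl) ?_
    intro u
    simp only [Matrix.cons_val_zero, Matrix.cons_val_one, Matrix.cons_val]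
    unfold bq
    linear_combination (-(1 + A * u ^ 2 + m ^ 2 * u ^ 4)) * hc'
  by_cases hd : x ^ 2 - m * y ^ 2 = 0
  · exfalso
    apply hex1
    refine ⟨x / y, x / z, ?_, ?_⟩
    · field_simp; linear_combination hd
    · unfold bq at heq
      field_simp
      linear_combination (-m) * heq - (A * x ^ 2 + m * (x ^ 2 + m * y ^ 2)) * hd
  by_cases hk : x ^ 2 + m * y ^ 2 = 0
  · exfalso
    apply hex2
    refine ⟨x / y, x / z, ?_, ?_⟩
    · field_simp; linear_combination hk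
    · unfold bq at heq
      field_simp
      linear_combination (-m) * heq + (A * x ^ 2 + m * (m * y ^ 2 - x ^ 2)) * hk
  have hY : m * y ^ 2 ≠ 0 := mul_ne_zero hm (pow_ne_zero 2 hy)
  have hρ : x ^ 2 / (m * y ^ 2) ≠ 0 := div_ne_zero (pow_ne_zero 2 hx) hY
  rcases cp_ne h hρ ha with ⟨h1, h2, h3⟩ | ⟨h1, h2, h3⟩
  · exact infE_w_plus h hm ha hx hy hz heq hd hk h1 h2 h3
  · apply infE_neg
    have ea : A / -m = -(A / m) := by rw [div_neg]
    have eρ : x ^ 2 / (-m * y ^ 2) = -(x ^ 2 / (m * y ^ 2)) := by rw [neg_mul, div_neg]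
    apply infE_w_plus h (neg_ne_zero.mpr hm) (by rw [ea, f.map_neg]; exact ha) hx hy hz
    · rw [← heq]; unfold bq; ring
    · intro h0; apply hk; linear_combination h0
    · intro h0; apply hd; linear_combination h0
    · rw [ea, eρ]; exact h1
    · rw [ea, eρ]; exact h2
    · rw [ea, eρ]; exact h3

/-- the special surfaces which are left out -/
def SpecE (A m c : K) : Prop :=
  (∃ s t : K, s ^ 2 = m ∧ (c * m = (2 * m + A) * t ^ 4 ∨ c * (2 * m + A) = m * t ^ 4)) ∨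
  ∃ s t : K, s ^ 2 = -m ∧ (c * m = (2 * m - A) * t ^ 4 ∨ c * (2 * m - A) = m * t ^ 4)

/-- every nonzero solution gives infinitely many -/
theorem infE_all (h : TwoLike f) {A m c : K} (hm : m ≠ 0) (hc : c ≠ 0)
    (ha : f (A / m) = 1 ∨ f (A / m) ≤ f 2 ^ 2) (hsp : ¬ SpecE A m c)
    {x y z w : K} (hne : ¬ (x = 0 ∧ y = 0 ∧ z = 0 ∧ w = 0))
    (heq : bq A m x y = c * bq A m z w) : InfE A m c := by
  have s1 : ¬ ∃ s t : K, s ^ 2 = m ∧ c * m = (2 * m + A) * t ^ 4 := by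
    rintro ⟨s, t, h1, h2⟩
    exact hsp (Or.inl ⟨s, t, h1, Or.inl h2⟩)
  have s2 : ¬ ∃ s t : K, s ^ 2 = -m ∧ c * m = (2 * m - A) * t ^ 4 := by
    rintro ⟨s, t, h1, h2⟩
    exact hsp (Or.inr ⟨s, t, h1, Or.inl h2⟩)
  have s3 : ¬ ∃ s t : K, s ^ 2 = m ∧ c⁻¹ * m = (2 * m + A) * t ^ 4 := by
    rintro ⟨s, t, h1, h2⟩
    have ht : t ≠ 0 := by
      rintro rfl
      have : c⁻¹ * m = 0 := by rw [h2]; ring
      exact mul_ne_zero (inv_ne_zero hc) hm this
    refine hsp (Or.inl ⟨s, t⁻¹, h1, Or.inr ?_⟩)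
    field_simp at h2 ⊢
    linear_combination -h2
  have s4 : ¬ ∃ s t : K, s ^ 2 = -m ∧ c⁻¹ * m = (2 * m - A) * t ^ 4 := by
    rintro ⟨s, t, h1, h2⟩
    have ht : t ≠ 0 := by
      rintro rfl
      have : c⁻¹ * m = 0 := by rw [h2]; ring
      exact mul_ne_zero (inv_ne_zero hc) hm this
    refine hsp (Or.inr ⟨s, t⁻¹, h1, Or.inr ?_⟩)
    field_simp at h2 ⊢
    linear_combination -h2
  -- the conditions are unchanged if `c` is multiplied by `m ^ 2`
  have T : ∀ c' : K, (¬ ∃ s t : K, s ^ 2 = m ∧ c' * m = (2 * m + A) * t ^ 4) →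
      ¬ ∃ s t : K, s ^ 2 = m ∧ c' * m ^ 2 * m = (2 * m + A) * t ^ 4 := by
    rintro c' h0 ⟨s, t, h1, h2⟩
    have hs : s ≠ 0 := by rintro rfl; apply hm; rw [← h1]; ring
    refine h0 ⟨s, t / s, h1, ?_⟩
    have h3 : m ^ 2 = s ^ 4 := by rw [← h1]; ring
    rw [h3] at h2
    field_simp
    linear_combination h2
  have T' : ∀ c' : K, (¬ ∃ s t : K, s ^ 2 = -m ∧ c' * m = (2 * m - A) * t ^ 4) →
      ¬ ∃ s t : K, s ^ 2 = -m ∧ c' * m ^ 2 * m = (2 * m - A) * t ^ 4 := by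
    rintro c' h0 ⟨s, t, h1, h2⟩
    have hs : s ≠ 0 := by
      rintro rfl; apply hm
      have : -m = 0 := by rw [← h1]; ring
      exact neg_eq_zero.mp this
    refine h0 ⟨s, t / s, h1, ?_⟩
    have h3 : m ^ 2 = s ^ 4 := by
      have : m ^ 2 = (-m) ^ 2 := by ring
      rw [this, ← h1]; ring
    rw [h3] at h2
    field_simp
    linear_combination h2
  have hcm : c * m ^ 2 ≠ 0 := mul_ne_zero hc (pow_ne_zero 2 hm)
  have hci : c⁻¹ ≠ 0 := inv_ne_zero hc
  by_cases hw : w = 0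
  · subst hw
    exact infE_of_w h hm hc ha s1 s2 (x := x) (y := y) (z := z) (by tauto)
      (by rw [heq]; unfold bq; ring)
  by_cases hz : z = 0
  · subst hz
    exact InfE.t1 hm (infE_of_w h hm hcm ha (T _ s1) (T' _ s2) (x := x) (y := y) (z := w)
      (by tauto) (by rw [heq]; unfold bq; ring))
  by_cases hy : y = 0
  · subst hy
    apply InfE.t2 hc
    exact infE_of_w h hm hci ha s3 s4 (x := z) (y := w) (z := x) (by tauto)
      (by
        have e : bq A m x 0 = x ^ 4 := by unfold bq; ring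
        rw [e] at heq
        rw [heq]; field_simp)
  by_cases hx : x = 0
  · subst hx
    apply InfE.t2 hc
    apply InfE.t1 hm
    exact infE_of_w h hm (mul_ne_zero hci (pow_ne_zero 2 hm)) ha (T _ s3) (T' _ s4)
      (x := z) (y := w) (z := y) (by tauto)
      (by
        have e : bq A m 0 y = m ^ 2 * y ^ 4 := by unfold bq; ring
        rw [e] at heq
        rw [mul_assoc, heq]; field_simp)
  exact infE_of_nonzero h hm ha hx hy hz hw heq

end Run7.h587
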