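import Pool.Agent.Run7.h587.Core

set_option autoImplicit false

namespace Run7.h587

section Nonarch

variable {K : Type*} [Field K] {f : AbsoluteValue K ℝ}

theorem na_add_eq (hf : IsNonarchimedean f) {x y : K} (h : f y < f x) : f (x + y) = f x := by
  apply le_antisymm
  · exact (hf x y).trans_eq (max_eq_left h.le)
  · have h1 : f x ≤ max (f (x + y)) (f (-y)) := by
      have := hf (x + y) (-y)
      simpa using this
    rw [f.map_neg] at h1
    rcases le_max_iff.mp h1 with h2 | h2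
    · exact h2
    · exact absurd h2 (not_le.mpr h)

theorem na_sub_eq (hf : IsNonarchimedean f) {x y : K} (h : f y < f x) : f (x - y) = f x := by
  rw [sub_eq_add_neg]
  exact na_add_eq hf (by rwa [f.map_neg])

theorem na_sub_eq' (hf : IsNonarchimedean f) {x y : K} (h : f y < f x) : f (y - x) = f x := by
  rw [← f.map_neg, neg_sub]
  exact na_sub_eq hf h

theorem na_add_le (hf : IsNonarchimedean f) {x y : K} {r : ℝ} (h1 : f x ≤ r) (h2 : f y ≤ r) :
    f (x + y) ≤ r := (hf x y).trans (max_le h1 h2)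

theorem na_sub_le (hf : IsNonarchimedean f) {x y : K} {r : ℝ} (h1 : f x ≤ r) (h2 : f y ≤ r) :
    f (x - y) ≤ r := by
  rw [sub_eq_add_neg]
  exact na_add_le hf h1 (by rwa [f.map_neg])

theorem na_add_lt (hf : IsNonarchimedean f) {x y : K} {r : ℝ} (h1 : f x < r) (h2 : f y < r) :
    f (x + y) < r := (hf x y).trans_lt (max_lt h1 h2)

theorem na_sub_lt (hf : IsNonarchimedean f) {x y : K} {r : ℝ} (h1 : f x < r) (h2 : f y < r) :
    f (x - y) < r := by
  rw [sub_eq_add_neg]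
  exact na_add_lt hf h1 (by rwa [f.map_neg])

theorem abv_sq (x : K) : f (x ^ 2) = f x ^ 2 := map_pow f x 2

/-- the triple is large compared with its (fixed) differences of squares -/
def Big (f : AbsoluteValue K ℝ) (u v w : K) : Prop :=
  f (u ^ 2 - v ^ 2) < f u ^ 2 ∧ f (u ^ 2 - w ^ 2) < f u ^ 2

theorem Big.pos {u v w : K} (h : Big f u v w) : 0 < f u := by
  have h1 := h.1
  have h0 : 0 ≤ f (u ^ 2 - v ^ 2) := f.nonneg _
  have : 0 < f u ^ 2 := lt_of_le_of_lt h0 h1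
  rcases (f.nonneg u).lt_or_eq with h2 | h2
  · exact h2
  · rw [← h2] at this; norm_num at this

theorem Big.eq_v (hf : IsNonarchimedean f) {u v w : K} (h : Big f u v w) : f v = f u := by
  have h1 : f (u ^ 2 - (u ^ 2 - v ^ 2)) = f (u ^ 2) := na_sub_eq hf (by rw [abv_sq]; exact h.1)
  rw [sub_sub_cancel, abv_sq, abv_sq] at h1
  exact (pow_left_inj₀ (f.nonneg _) (f.nonneg _) two_ne_zero).mp h1

theorem Big.eq_w (hf : IsNonarchimedean f) {u v w : K} (h : Big f u v w) : f w = f u := by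
  have h1 : f (u ^ 2 - (u ^ 2 - w ^ 2)) = f (u ^ 2) := na_sub_eq hf (by rw [abv_sq]; exact h.2)
  rw [sub_sub_cancel, abv_sq, abv_sq] at h1
  exact (pow_left_inj₀ (f.nonneg _) (f.nonneg _) two_ne_zero).mp h1

theorem Big.ne_u {u v w : K} (h : Big f u v w) : u ≠ 0 := fun h0 => by
  have := h.pos
  rw [h0, map_zero] at this
  exact lt_irrefl _ this

theorem Big.ne_v (hf : IsNonarchimedean f) {u v w : K} (h : Big f u v w) : v ≠ 0 := fun h0 => by
  have h1 := h.pos
  rw [← h.eq_v hf, h0, map_zero] at h1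
  exact lt_irrefl _ h1

theorem Big.ne_w (hf : IsNonarchimedean f) {u v w : K} (h : Big f u v w) : w ≠ 0 := fun h0 => by
  have h1 := h.pos
  rw [← h.eq_w hf, h0, map_zero] at h1
  exact lt_irrefl _ h1

theorem Big.dbl_abs (hf : IsNonarchimedean f) {u v w : K} (h : Big f u v w) :
    f (dbl u v w) = f u / f 2 := by
  have hu := h.ne_u
  have hp := h.pos
  have key : u ^ 2 * v ^ 2 + u ^ 2 * w ^ 2 - v ^ 2 * w ^ 2
      = u ^ 4 - (u ^ 2 - v ^ 2) * (u ^ 2 - w ^ 2) := by ring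
  have h4 : f (u ^ 4 - (u ^ 2 - v ^ 2) * (u ^ 2 - w ^ 2)) = f (u ^ 4) := by
    apply na_sub_eq hf
    rw [map_mul, map_pow]
    have e : f u ^ 4 = f u ^ 2 * f u ^ 2 := by ring
    rw [e]
    exact mul_lt_mul'' h.1 h.2 (f.nonneg _) (f.nonneg _)
  unfold dbl
  rw [key, map_div₀, h4, map_mul, map_mul, map_mul, h.eq_v hf, h.eq_w hf, map_pow]
  by_cases h2 : f 2 = 0
  · rw [h2]; simp
  · field_simp

theorem Big.step (hf : IsNonarchimedean f) (h2 : f 2 < 1) (h20 : (2 : K) ≠ 0) {u v w : K}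
    (h : Big f u v w) : Big f (dbl u v w) (dbl v u w) (dbl w u v) := by
  have hs := sameCurve_dbl (sameCurve_refl u v w) h20 h.ne_u (h.ne_v hf) (h.ne_w hf)
  have h2p : 0 < f 2 := f.pos h20
  have hlt : f u < f (dbl u v w) := by
    rw [h.dbl_abs hf, lt_div_iff₀ h2p]
    nlinarith [h.pos]
  have hlt2 : f u ^ 2 < f (dbl u v w) ^ 2 := by
    have := h.pos
    nlinarith
  refine ⟨?_, ?_⟩
  · rw [hs.1]; exact h.1.trans hlt2
  · rw [hs.2]; exact h.2.trans hlt2

theorem SameCurve.trans {α β γ u v w u' v' w' : K} (h : SameCurve α β γ u v w)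
    (h' : SameCurve u v w u' v' w') : SameCurve α β γ u' v' w' :=
  ⟨h'.1.trans h.1, h'.2.trans h.2⟩

theorem exists_large (hf : IsNonarchimedean f) (h2 : f 2 < 1) (h20 : (2 : K) ≠ 0) {α β γ : K}
    (u v w : K) (hs : SameCurve α β γ u v w) (h : Big f u v w) (M : ℝ) :
    ∃ u' v' w' : K, SameCurve α β γ u' v' w' ∧ Big f u' v' w' ∧ M < f u' := by
  have h2p : 0 < f 2 := f.pos h20
  have hinv : 1 < (f 2)⁻¹ := (one_lt_inv₀ h2p).mpr h2
  have main : ∀ n : ℕ, ∃ u' v' w' : K, SameCurve α β γ u' v' w' ∧ Big f u' v' w' ∧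
      f u' = f u * (f 2)⁻¹ ^ n := by
    intro n
    induction n with
    | zero => exact ⟨u, v, w, hs, h, by simp⟩
    | succ n ih =>
      obtain ⟨u', v', w', hs', h', e⟩ := ih
      refine ⟨dbl u' v' w', dbl v' u' w', dbl w' u' v', ?_, h'.step hf h2 h20, ?_⟩
      · exact sameCurve_dbl hs' h20 h'.ne_u (h'.ne_v hf) (h'.ne_w hf)
      · rw [h'.dbl_abs hf, e, pow_succ, div_eq_mul_inv, mul_assoc]
  obtain ⟨n, hn⟩ := pow_unbounded_of_one_lt (M / f u) hinv
  obtain ⟨u', v', w', hs', h', e⟩ := main n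
  refine ⟨u', v', w', hs', h', ?_⟩
  rw [e]
  rwa [div_lt_iff₀' h.pos] at hn

/-- arbitrarily small nonzero parameters with three squares -/
theorem exists_small (hf : IsNonarchimedean f) (h2 : f 2 < 1) (h20 : (2 : K) ≠ 0) {α β γ : K}
    (u v w : K) (hs : SameCurve α β γ u v w) (h : Big f u v w) {ε : ℝ} (hε : 0 < ε) :
    ∃ T ∈ SqSet (β + γ) (γ + α) (α + β), T ≠ 0 ∧ f T < ε := by
  have h2p : 0 < f 2 := f.pos h20
  set bc := (γ + α) * (α + β) with hbc
  set e1 := 2 * (α + β + γ) with he1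
  set e3 := 2 * ((β + γ) * (γ + α) * (α + β)) with he3
  obtain ⟨u', v', w', hs', h', hM⟩ := exists_large hf h2 h20 u v w hs h
    (1 + f bc + f e1 / f 2 + f e3 / f 2 + f 2 / ε)
  have hbc0 : 0 ≤ f bc := f.nonneg _
  have he10 : 0 ≤ f e1 / f 2 := div_nonneg (f.nonneg _) h2p.le
  have he30 : 0 ≤ f e3 / f 2 := div_nonneg (f.nonneg _) h2p.le
  have hε0 : 0 < f 2 / ε := div_pos h2p hε
  have hu1 : 1 < f u' := by linarith
  have hup : 0 < f u' := h'.pos
  have hX : f (u' ^ 2 - bc) = f u' ^ 2 := by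
    rw [na_sub_eq hf, abv_sq]
    rw [abv_sq]
    nlinarith
  set X := u' ^ 2 - bc with hXdef
  have hX0 : X ≠ 0 := by
    intro h0
    rw [h0, map_zero] at hX
    have : 0 < f u' ^ 2 := by positivity
    linarith
  have hY : f (2 * (u' * v' * w')) = f 2 * f u' ^ 3 := by
    rw [map_mul, map_mul, map_mul, h'.eq_v hf, h'.eq_w hf]; ring
  have hN : f (e1 * X + e3 - 2 * (u' * v' * w')) = f 2 * f u' ^ 3 := by
    rw [na_sub_eq' hf, hY]
    rw [hY]
    apply na_add_lt hf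
    · rw [map_mul, hX]
      have h5 : f e1 / f 2 < f u' := by linarith
      rw [div_lt_iff₀ h2p] at h5
      have : f e1 * f u' ^ 2 < (f u' * f 2) * f u' ^ 2 := by
        apply mul_lt_mul_of_pos_right h5; positivity
      calc f e1 * f u' ^ 2 < (f u' * f 2) * f u' ^ 2 := this
        _ = f 2 * f u' ^ 3 := by ring
    · have h5 : f e3 / f 2 < f u' := by linarith
      rw [div_lt_iff₀ h2p] at h5
      have h6 : f u' * f 2 ≤ f 2 * f u' ^ 3 := by
        have : f u' ≤ f u' ^ 3 := by nlinarith [sq_nonneg (f u' - 1), mul_pos hup hup]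
        nlinarith
      linarith
  refine ⟨(e1 * X + e3 - 2 * (u' * v' * w')) / X ^ 2, ?_, ?_, ?_⟩
  · apply mem_sqSet hs' h'.ne_u (h'.ne_v hf) (h'.ne_w hf) X _ hX0 hXdef
    rw [div_mul_cancel₀ _ (pow_ne_zero 2 hX0)]
  · apply div_ne_zero _ (pow_ne_zero 2 hX0)
    intro h0
    rw [h0, map_zero] at hN
    have : 0 < f 2 * f u' ^ 3 := by positivity
    linarith
  · rw [map_div₀, hN, map_pow, hX]
    have h5 : f 2 / ε < f u' := by linarith
    rw [div_lt_iff₀ hε] at h5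
    rw [div_lt_iff₀ (by positivity)]
    calc f 2 * f u' ^ 3 < (f u' * ε) * f u' ^ 3 := by
          apply mul_lt_mul_of_pos_right h5; positivity
      _ = ε * (f u' ^ 2) ^ 2 := by ring

theorem sqSet_infinite (hf : IsNonarchimedean f) (h2 : f 2 < 1) (h20 : (2 : K) ≠ 0) {α β γ : K}
    (u v w : K) (hs : SameCurve α β γ u v w) (h : Big f u v w) :
    (SqSet (β + γ) (γ + α) (α + β)).Infinite := by
  intro hfin
  have hfin' : (SqSet (β + γ) (γ + α) (α + β) \ {0}).Finite := hfin.subset Set.sdiff_subset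
  obtain ⟨T0, hT0, hT00, -⟩ := exists_small hf h2 h20 u v w hs h one_pos
  obtain ⟨T, hT, hmin⟩ := Set.exists_min_image _ (fun T => f T) hfin' ⟨T0, hT0, hT00⟩
  have hTpos : 0 < f T := f.pos hT.2
  obtain ⟨T1, hT1, hT10, hlt⟩ := exists_small hf h2 h20 u v w hs h hTpos
  exact absurd (hmin T1 ⟨hT1, hT10⟩) (not_le.mpr hlt)

end Nonarch

end Run7.h587
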