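import Pool.Agent.Run7.h587.Diag

set_option autoImplicit false

open NumberField IsDedekindDomain

namespace Run7.h587

section nf

variable {K : Type*} [Field K] [NumberField K]

/-- the `P`-adic absolute value of a number field -/
noncomputable def pabv (P : HeightOneSpectrum (𝓞 K)) : AbsoluteValue K ℝ :=
  NumberField.HeightOneSpectrum.adicAbv K P

theorem pabv_na (P : HeightOneSpectrum (𝓞 K)) : IsNonarchimedean (pabv P) :=
  NumberField.HeightOneSpectrum.isNonarchimedean_adicAbv K P

theorem pabv_coe_lt_one {P : HeightOneSpectrum (𝓞 K)} {r : 𝓞 K} :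
    pabv P (algebraMap (𝓞 K) K r) < 1 ↔ r ∈ P.asIdeal :=
  P.adicAbv_coe_lt_one_iff (NumberField.HeightOneSpectrum.one_lt_absNorm_nnreal P) r

theorem pabv_two {P : HeightOneSpectrum (𝓞 K)} (h2 : (2 : 𝓞 K) ∈ P.asIdeal) :
    pabv P 2 < 1 := by
  have := (pabv_coe_lt_one (P := P) (r := 2)).mpr h2
  rwa [map_ofNat] at this

theorem pabv_eq_iff {P : HeightOneSpectrum (𝓞 K)} {x y : K} :
    pabv P x = pabv P y ↔ P.valuation K x = P.valuation K y := by
  constructor
  · intro h
    unfold pabv at h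
    rw [NumberField.HeightOneSpectrum.adicAbv_def, NumberField.HeightOneSpectrum.adicAbv_def] at h
    have h2 := NNReal.coe_injective h
    exact (WithZeroMulInt.toNNReal_strictMono
      (NumberField.HeightOneSpectrum.one_lt_absNorm_nnreal P)).injective h2
  · intro h
    unfold pabv
    rw [NumberField.HeightOneSpectrum.adicAbv_def, NumberField.HeightOneSpectrum.adicAbv_def, h]

theorem pabv_lt_iff {P : HeightOneSpectrum (𝓞 K)} {x y : K} :
    pabv P x < pabv P y ↔ P.valuation K x < P.valuation K y := by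
  unfold pabv
  rw [NumberField.HeightOneSpectrum.adicAbv_def, NumberField.HeightOneSpectrum.adicAbv_def,
    NNReal.coe_lt_coe]
  exact (WithZeroMulInt.toNNReal_strictMono
      (NumberField.HeightOneSpectrum.one_lt_absNorm_nnreal P)).lt_iff_lt

theorem two_ne_bot : (Ideal.span {(2 : ℤ)}).map (algebraMap ℤ (𝓞 K)) ≠ ⊥ := by
  rw [Ideal.map_span, Set.image_singleton]
  intro h
  rw [Ideal.span_singleton_eq_bot] at h
  norm_num at h

theorem isPrime_span_two : (Ideal.span {(2 : ℤ)}).IsPrime := by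
  rw [Ideal.span_singleton_prime (by norm_num)]
  exact Int.prime_two

theorem isMaximal_span_two : (Ideal.span {(2 : ℤ)}).IsMaximal :=
  isPrime_span_two.isMaximal (by
    intro h
    rw [Ideal.span_singleton_eq_bot] at h
    norm_num at h)

omit [NumberField K] in
theorem liesOver_two {P : HeightOneSpectrum (𝓞 K)} (h2 : (2 : 𝓞 K) ∈ P.asIdeal) :
    P.asIdeal.LiesOver (Ideal.span {(2 : ℤ)}) := by
  constructor
  refine isMaximal_span_two.eq_of_le ?_ ?_
  · intro h
    have h1 := (Ideal.eq_top_iff_one _).mp h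
    rw [Ideal.mem_comap, map_one] at h1
    exact P.isPrime.ne_top ((Ideal.eq_top_iff_one _).mpr h1)
  · rw [Ideal.span_singleton_le_iff_mem, Ideal.mem_comap]
    simpa using h2

theorem valuation_two {P : HeightOneSpectrum (𝓞 K)} (h2 : (2 : 𝓞 K) ∈ P.asIdeal) :
    P.valuation K 2 = WithZero.exp (-(P.asIdeal.ramificationIdx ℤ : ℤ)) := by
  have hL := liesOver_two h2
  have hp := P.isPrime
  have h1 := Ideal.IsDedekindDomain.ramificationIdx_eq_multiplicity (Ideal.span {(2 : ℤ)})
    P.asIdeal (two_ne_bot (K := K))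
  rw [Ideal.map_span, Set.image_singleton] at h1
  have h3 : P.valuation K (algebraMap (𝓞 K) K 2) = P.intValuation 2 :=
    P.valuation_of_algebraMap 2
  rw [map_ofNat] at h3
  rw [h3, P.intValuation_eq_exp_neg_multiplicity (by norm_num), h1]
  simp

/-- if `e(P)` is odd then `|2|` is not a square of a value -/
theorem no_sqrt_two {P : HeightOneSpectrum (𝓞 K)} (h2 : (2 : 𝓞 K) ∈ P.asIdeal)
    (he : Odd (P.asIdeal.ramificationIdx ℤ)) {x : K} (h : pabv P x ^ 2 = pabv P 2) : False := by
  rw [← abv_sq, pabv_eq_iff, valuation_two h2, map_pow] at h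
  have hx : P.valuation K x ≠ 0 := by
    intro h0
    rw [h0, zero_pow two_ne_zero] at h
    exact WithZero.exp_ne_zero h.symm
  obtain ⟨k, hk⟩ : ∃ k : ℤ, P.valuation K x = WithZero.exp k :=
    ⟨WithZero.log (P.valuation K x), (WithZero.exp_log hx).symm⟩
  rw [hk, ← WithZero.exp_nsmul, WithZero.exp_inj] at h
  obtain ⟨t, ht⟩ := he
  rw [ht] at h
  push_cast at h
  simp at h
  omega

end nf

/-- a finite field of odd degree over the field with two elements has no primitive cube root of
unity -/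
theorem no_omega_of_card {k : Type*} [Field k] [Finite k] {n : ℕ} (hn : Odd n)
    (hc : Nat.card k = 2 ^ n) (x : k) : x ^ 2 + x + 1 ≠ 0 := by
  intro h
  classical
  have : Fintype k := Fintype.ofFinite k
  have hcard : Fintype.card k = 2 ^ n := by rw [← Nat.card_eq_fintype_card]; exact hc
  have hx0 : x ≠ 0 := by
    rintro rfl
    norm_num at h
  have h20 : (2 : k) = 0 := by
    have h1 : ((Fintype.card k : ℕ) : k) = 0 := FiniteField.cast_card_eq_zero k
    rw [hcard] at h1
    push_cast at h1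
    exact pow_eq_zero_iff (by obtain ⟨t, ht⟩ := hn; omega) |>.mp h1
  have hx1 : x ≠ 1 := by
    rintro rfl
    have : (1 : k) ^ 2 + 1 + 1 = 2 + 1 := by ring
    rw [this, h20, zero_add] at h
    exact one_ne_zero h
  have h3 : x ^ 3 = 1 := by linear_combination (x - 1) * h
  have ho : orderOf (Units.mk0 x hx0) = 3 := by
    apply orderOf_eq_prime
    · ext; simp [h3]
    · intro h; apply hx1; have := congrArg Units.val h; simpa using this
  have hd : 3 ∣ Fintype.card k - 1 := by
    rw [← ho, ← Fintype.card_units]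
    exact orderOf_dvd_card
  rw [hcard] at hd
  obtain ⟨t, rfl⟩ := hn
  have h4 : (4 ^ t) % 3 = 1 := by
    rw [Nat.pow_mod]; norm_num
  have h5 : 2 ^ (2 * t + 1) = 2 * 4 ^ t := by
    rw [pow_succ, pow_mul]; ring
  rw [h5] at hd
  generalize 4 ^ t = s at hd h4
  omega

section nf2

variable {K : Type*} [Field K] [NumberField K]

theorem no_omega {P : HeightOneSpectrum (𝓞 K)} (h2 : (2 : 𝓞 K) ∈ P.asIdeal)
    (hf : Odd (P.asIdeal.inertiaDeg ℤ)) {x : K} (h : pabv P (x ^ 2 + x + 1) < 1) : False := by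
  have hL := liesOver_two h2
  have hM : P.asIdeal.IsMaximal := P.isMaximal
  have := isMaximal_span_two
  have hint : P.valuation K x ≤ 1 := by
    by_contra hx
    push Not at hx
    have hx' : 1 < pabv P x := by
      have : pabv P 1 < pabv P x := pabv_lt_iff.mpr (by rwa [map_one])
      rwa [map_one] at this
    have hna := pabv_na P
    have h1 : pabv P (x ^ 2 + x) = pabv P (x ^ 2) := by
      rw [na_add_eq hna]
      rw [abv_sq]
      nlinarith
    have h3 : pabv P (x ^ 2 + x + 1) = pabv P x ^ 2 := by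
      rw [na_add_eq hna, h1, abv_sq]
      rw [h1, abv_sq, map_one]
      nlinarith
    rw [h3] at h
    nlinarith
  obtain ⟨a, ha⟩ := P.exists_valuation_sub_lt_of_integer hint 1
  have ha' : P.valuation K (algebraMap (𝓞 K) K a - x) < 1 := by simpa using ha
  have ha2 : pabv P (algebraMap (𝓞 K) K a - x) < 1 := by
    have : pabv P (algebraMap (𝓞 K) K a - x) < pabv P 1 := pabv_lt_iff.mpr (by rwa [map_one])
    rwa [map_one] at this
  have hmem : a ^ 2 + a + 1 ∈ P.asIdeal := by
    rw [← pabv_coe_lt_one]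
    have e : algebraMap (𝓞 K) K (a ^ 2 + a + 1) = (x ^ 2 + x + 1) +
        (algebraMap (𝓞 K) K a - x) * (algebraMap (𝓞 K) K a + x + 1) := by
      rw [map_add, map_add, map_pow, map_one]; ring
    rw [e]
    apply na_add_lt (pabv_na P) h
    rw [map_mul]
    have h5 : pabv P (algebraMap (𝓞 K) K a + x + 1) ≤ 1 := by
      have hxle : pabv P x ≤ 1 := by
        by_contra hx
        push Not at hx
        have : pabv P 1 < pabv P x := by rwa [map_one]
        rw [pabv_lt_iff, map_one] at this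
        exact absurd hint (not_le.mpr this)
      have hale : pabv P (algebraMap (𝓞 K) K a) ≤ 1 := by
        have e : algebraMap (𝓞 K) K a = (algebraMap (𝓞 K) K a - x) + x := by ring
        rw [e]
        exact na_add_le (pabv_na P) ha2.le hxle
      exact na_add_le (pabv_na P) (na_add_le (pabv_na P) hale hxle) (by rw [map_one])
    calc _ ≤ pabv P (algebraMap (𝓞 K) K a - x) * 1 := by
          apply mul_le_mul_of_nonneg_left h5 ((pabv P).nonneg _)
      _ < 1 := by rwa [mul_one]
  -- the residue field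
  let _ : Field (𝓞 K ⧸ P.asIdeal) := Ideal.Quotient.field _
  have hfin : Finite (𝓞 K ⧸ P.asIdeal) := P.asIdeal.finiteQuotientOfFreeOfNeBot P.ne_bot
  have hdeg := Ideal.inertiaDeg_eq_of_isMaximal (Ideal.span {(2 : ℤ)}) P.asIdeal
  have hcard : Nat.card (𝓞 K ⧸ P.asIdeal) = 2 ^ (P.asIdeal.inertiaDeg ℤ) := by
    let _ : Field (ℤ ⧸ Ideal.span {(2 : ℤ)}) := Ideal.Quotient.field _
    have h2c : Nat.card (ℤ ⧸ Ideal.span {(2 : ℤ)}) = 2 := by
      rw [Nat.card_congr (Int.quotientSpanEquivZMod 2).toEquiv]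
      simp
    rw [Module.natCard_eq_pow_finrank (K := ℤ ⧸ Ideal.span {(2 : ℤ)}), h2c, hdeg]
  apply no_omega_of_card hf hcard (Ideal.Quotient.mk _ a)
  rw [← map_pow, ← map_add, ← map_one (Ideal.Quotient.mk P.asIdeal), ← map_add,
    Ideal.Quotient.eq_zero_iff_mem]
  exact hmem

/-- `K` has a prime above `2` for which the ramification index or the residue degree is odd -/
def OddAtTwo (K : Type*) [Field K] [NumberField K] : Prop :=
  ∃ P : HeightOneSpectrum (𝓞 K), (2 : 𝓞 K) ∈ P.asIdeal ∧
    (Odd (P.asIdeal.ramificationIdx ℤ) ∨ Odd (P.asIdeal.inertiaDeg ℤ))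

theorem oddAtTwo_of_degree (h : ¬ 4 ∣ Module.finrank ℚ K) : OddAtTwo K := by
  by_contra hno
  apply h
  have := isPrime_span_two
  have : Fintype ((Ideal.span {(2 : ℤ)}).primesOver (𝓞 K)) :=
    (Algebra.QuasiFinite.finite_primesOver (Ideal.span {(2 : ℤ)})).fintype
  have hs := Ideal.sum_ramification_inertia_eq_finrank (Ideal.span {(2 : ℤ)}) (𝓞 K)
  rw [NumberField.RingOfIntegers.rank] at hs
  rw [← hs]
  apply Finset.dvd_sum
  intro q _
  have hq1 : q.1.IsPrime := q.2.1
  have hq2 : q.1.LiesOver (Ideal.span {(2 : ℤ)}) := q.2.2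
  have hmem : (2 : 𝓞 K) ∈ q.1 := by
    have h1 : (2 : ℤ) ∈ q.1.under ℤ := by
      rw [← hq2.over]; exact Ideal.mem_span_singleton_self 2
    rw [Ideal.mem_comap] at h1
    simpa using h1
  have hbot : q.1 ≠ ⊥ := by
    intro h0
    rw [h0, Ideal.mem_bot] at hmem
    norm_num at hmem
  by_contra h4
  apply hno
  refine ⟨⟨q.1, hq1, hbot⟩, hmem, ?_⟩
  show Odd (q.1.ramificationIdx ℤ) ∨ Odd (q.1.inertiaDeg ℤ)
  by_contra hcon
  push Not at hcon
  rw [Nat.not_odd_iff_even, Nat.not_odd_iff_even] at hcon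
  obtain ⟨⟨a, ha⟩, ⟨b, hb⟩⟩ := hcon
  apply h4
  rw [ha, hb]
  exact ⟨a * b, by ring⟩

end nf2

end Run7.h587
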