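import Pool.Agent.Run7.h587.EvenCore

set_option autoImplicit false

namespace Run7.h587

variable {L : Type*} [Field L] {f : AbsoluteValue L ℝ} {φ : L →+* L}

/-- the triple is compatible with the involution `φ`, which exchanges the outer entries -/
structure Sym (φ : L →+* L) (u v w : L) : Prop where
  uw : φ u = w
  wu : φ w = u
  vv : φ v = v

theorem dbl_comm (u v w : L) : dbl u v w = dbl u w v := by
  unfold dbl
  rw [show 2 * u * v * w = 2 * u * w * v by ring]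
  congr 1
  ring

theorem map_dbl (u v w : L) : φ (dbl u v w) = dbl (φ u) (φ v) (φ w) := by
  unfold dbl
  simp only [map_div₀, map_sub, map_add, map_mul, map_pow, map_ofNat]

theorem Sym.dbl {u v w : L} (h : Sym φ u v w) : Sym φ (dbl u v w) (dbl v u w) (dbl w u v) := by
  refine ⟨?_, ?_, ?_⟩
  · rw [map_dbl, h.uw, h.wu, h.vv, dbl_comm]
  · rw [map_dbl, h.uw, h.wu, h.vv, dbl_comm]
  · rw [map_dbl, h.uw, h.wu, h.vv, dbl_comm]

theorem exists_large_sym (hf : IsNonarchimedean f) (h2 : f 2 < 1) (h20 : (2 : L) ≠ 0) {α β γ : L}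
    (u v w : L) (hs : SameCurve α β γ u v w) (h : Big f u v w) (hS : Sym φ u v w) (M : ℝ) :
    ∃ u' v' w' : L, SameCurve α β γ u' v' w' ∧ Big f u' v' w' ∧ Sym φ u' v' w' ∧ M < f u' := by
  have h2p : 0 < f 2 := f.pos h20
  have hinv : 1 < (f 2)⁻¹ := (one_lt_inv₀ h2p).mpr h2
  have main : ∀ n : ℕ, ∃ u' v' w' : L, SameCurve α β γ u' v' w' ∧ Big f u' v' w' ∧
      Sym φ u' v' w' ∧ f u' = f u * (f 2)⁻¹ ^ n := by
    intro n
    induction n with
    | zero => exact ⟨u, v, w, hs, h, hS, by simp⟩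
    | succ n ih =>
      obtain ⟨u', v', w', hs', h', hS', e⟩ := ih
      refine ⟨Run7.h587.dbl u' v' w', Run7.h587.dbl v' u' w', Run7.h587.dbl w' u' v', ?_,
        h'.step hf h2 h20, hS'.dbl, ?_⟩
      · exact sameCurve_dbl hs' h20 h'.ne_u (h'.ne_v hf) (h'.ne_w hf)
      · rw [h'.dbl_abs hf, e, pow_succ, div_eq_mul_inv, mul_assoc]
  obtain ⟨n, hn⟩ := pow_unbounded_of_one_lt (M / f u) hinv
  obtain ⟨u', v', w', hs', h', hS', e⟩ := main n
  refine ⟨u', v', w', hs', h', hS', ?_⟩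
  rw [e]
  rwa [div_lt_iff₀' h.pos] at hn

/-- parameters fixed by `φ`, with compatible square roots -/
def SymSet (φ : L →+* L) (a b c : L) : Set L :=
  {T | φ T = T ∧ ∃ r s : L, r ^ 2 = 1 + a * T ∧ s ^ 2 = 1 + b * T ∧ (φ r) ^ 2 = 1 + c * T ∧
    φ s = s}

theorem mem_symSet {α β γ u v w : L} (h0 : Sym φ α β γ) (h : SameCurve α β γ u v w)
    (hS : Sym φ u v w) (hu : u ≠ 0) (hv : v ≠ 0) (hw : w ≠ 0)
    (X T : L) (hX0 : X ≠ 0) (hX : X = u ^ 2 - (γ + α) * (α + β))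
    (hT : T * X ^ 2 = (2 * (α + β + γ)) * X + 2 * ((β + γ) * (γ + α) * (α + β)) - 2 * (u * v * w)) :
    T ∈ SymSet φ (β + γ) (γ + α) (α + β) := by
  obtain ⟨h1, h3⟩ := h
  have hφX : φ X = X := by
    rw [hX, map_sub, map_pow, map_mul, map_add, map_add, hS.uw, h0.uw, h0.wu, h0.vv]
    linear_combination -h3
  have hφT : φ T = T := by
    have h5 := congrArg φ hT
    simp only [map_mul, map_pow, map_add, map_sub, map_ofNat, hφX, h0.uw, h0.wu, h0.vv, hS.uw,
      hS.wu, hS.vv] at h5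
    have h6 : φ T * X ^ 2 = T * X ^ 2 := by
      rw [h5, hT]; ring
    exact mul_right_cancel₀ (pow_ne_zero 2 hX0) h6
  have hu2 : u ^ 2 = X + (γ + α) * (α + β) := by rw [hX]; ring
  have hv2 : v ^ 2 = X + (α + β) * (β + γ) := by
    linear_combination hu2 - h1
  have hw2 : w ^ 2 = X + (β + γ) * (γ + α) := by
    linear_combination hu2 - h3
  have hφa : φ (β + γ) = α + β := by rw [map_add, h0.vv, h0.wu]; ring
  have hφb : φ (γ + α) = γ + α := by rw [map_add, h0.wu, h0.uw]; ring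
  have hφc : φ (α + β) = β + γ := by rw [map_add, h0.uw, h0.vv]; ring
  set Y := u * v * w with hY
  have hφY : φ Y = Y := by rw [hY, map_mul, map_mul, hS.uw, hS.vv, hS.wu]; ring
  have hY2 : Y ^ 2 = (X + (γ + α) * (α + β)) * (X + (α + β) * (β + γ)) * (X + (β + γ) * (γ + α)) := by
    rw [hY, ← hu2, ← hv2, ← hw2]; ring
  set a := β + γ with ha
  set b := γ + α with hb
  set c := α + β with hc
  have hs : 2 * (α + β + γ) = a + b + c := by rw [ha, hb, hc]; ring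
  rw [hs] at hT
  have huw := hS.uw
  have hvv := hS.vv
  clear_value a b c Y
  refine ⟨hφT, (a * X - Y + a * b * c) / (X * u), (b * X - Y + a * b * c) / (X * v), ?_, ?_, ?_, ?_⟩
  · rw [div_pow, div_eq_iff (by simp [hX0, hu])]
    linear_combination (-a * u ^ 2) * hT - (X ^ 2 + a * ((a + b + c) * X + 2 * (a * b * c) - 2 * Y)) * hu2
      + hY2
  · rw [div_pow, div_eq_iff (by simp [hX0, hv])]
    linear_combination (-b * v ^ 2) * hT - (X ^ 2 + b * ((a + b + c) * X + 2 * (a * b * c) - 2 * Y)) * hv2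
      + hY2
  · have e : φ ((a * X - Y + a * b * c) / (X * u)) = (c * X - Y + a * b * c) / (X * w) := by
      simp only [map_div₀, map_add, map_sub, map_mul, hφX, hφY, hφa, hφb, hφc, huw]
      rw [show c * b * a = a * b * c by ring]
    rw [e, div_pow, div_eq_iff (by simp [hX0, hw])]
    linear_combination (-c * w ^ 2) * hT - (X ^ 2 + c * ((a + b + c) * X + 2 * (a * b * c) - 2 * Y)) * hw2
      + hY2
  · simp only [map_div₀, map_add, map_sub, map_mul, hφX, hφY, hφa, hφb, hφc, hvv]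
    rw [show c * b * a = a * b * c by ring]

theorem exists_small_sym (hf : IsNonarchimedean f) (h2 : f 2 < 1) (h20 : (2 : L) ≠ 0) {α β γ : L}
    (h0 : Sym φ α β γ)
    (u v w : L) (hs : SameCurve α β γ u v w) (h : Big f u v w) (hS : Sym φ u v w) {ε : ℝ}
    (hε : 0 < ε) :
    ∃ T ∈ SymSet φ (β + γ) (γ + α) (α + β), T ≠ 0 ∧ f T < ε := by
  have h2p : 0 < f 2 := f.pos h20
  set bc := (γ + α) * (α + β) with hbc
  set e1 := 2 * (α + β + γ) with he1
  set e3 := 2 * ((β + γ) * (γ + α) * (α + β)) with he3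
  obtain ⟨u', v', w', hs', h', hS', hM⟩ := exists_large_sym hf h2 h20 u v w hs h hS
    (1 + f bc + f e1 / f 2 + f e3 / f 2 + f 2 / ε)
  have hbc0 : 0 ≤ f bc := f.nonneg _
  have he10 : 0 ≤ f e1 / f 2 := div_nonneg (f.nonneg _) h2p.le
  have he30 : 0 ≤ f e3 / f 2 := div_nonneg (f.nonneg _) h2p.le
  have hε0 : 0 < f 2 / ε := div_pos h2p hε
  have hu1 : 1 < f u' := by linarith
  have hup : 0 < f u' := h'.pos
  have hX : f (u' ^ 2 - bc) = f u' ^ 2 := by
    rw [na_sub_eq hf, abv_sq]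
    rw [abv_sq]
    nlinarith
  set X := u' ^ 2 - bc with hXdef
  have hX0 : X ≠ 0 := by
    intro h0
    rw [h0, map_zero] at hX
    have : 0 < f u' ^ 2 := by positivity
    linarith
  have hY : f (2 * (u' * v' * w')) = f 2 * f u' ^ 3 := by
    rw [map_mul, map_mul, map_mul, h'.eq_v hf, h'.eq_w hf]; ring
  have hN : f (e1 * X + e3 - 2 * (u' * v' * w')) = f 2 * f u' ^ 3 := by
    rw [na_sub_eq' hf, hY]
    rw [hY]
    apply na_add_lt hf
    · rw [map_mul, hX]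
      have h5 : f e1 / f 2 < f u' := by linarith
      rw [div_lt_iff₀ h2p] at h5
      have : f e1 * f u' ^ 2 < (f u' * f 2) * f u' ^ 2 := by
        apply mul_lt_mul_of_pos_right h5; positivity
      calc f e1 * f u' ^ 2 < (f u' * f 2) * f u' ^ 2 := this
        _ = f 2 * f u' ^ 3 := by ring
    · have h5 : f e3 / f 2 < f u' := by linarith
      rw [div_lt_iff₀ h2p] at h5
      have h6 : f u' * f 2 ≤ f 2 * f u' ^ 3 := by
        have : f u' ≤ f u' ^ 3 := by nlinarith [sq_nonneg (f u' - 1), mul_pos hup hup]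
        nlinarith
      linarith
  refine ⟨(e1 * X + e3 - 2 * (u' * v' * w')) / X ^ 2, ?_, ?_, ?_⟩
  · apply mem_symSet h0 hs' hS' h'.ne_u (h'.ne_v hf) (h'.ne_w hf) X _ hX0 hXdef
    rw [div_mul_cancel₀ _ (pow_ne_zero 2 hX0)]
  · apply div_ne_zero _ (pow_ne_zero 2 hX0)
    intro h0
    rw [h0, map_zero] at hN
    have : 0 < f 2 * f u' ^ 3 := by positivity
    linarith
  · rw [map_div₀, hN, map_pow, hX]
    have h5 : f 2 / ε < f u' := by linarith
    rw [div_lt_iff₀ hε] at h5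
    rw [div_lt_iff₀ (by positivity)]
    calc f 2 * f u' ^ 3 < (f u' * ε) * f u' ^ 3 := by
          apply mul_lt_mul_of_pos_right h5; positivity
      _ = ε * (f u' ^ 2) ^ 2 := by ring

/-- some compatible triple on the curve is large -/
def GoodS (f : AbsoluteValue L ℝ) (φ : L →+* L) (α β γ : L) : Prop :=
  ∃ u v w : L, SameCurve α β γ u v w ∧ Big f u v w ∧ Sym φ u v w

theorem GoodS.infinite (hf : IsNonarchimedean f) (h2 : f 2 < 1) (h20 : (2 : L) ≠ 0) {α β γ : L}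
    (h0 : Sym φ α β γ) (h : GoodS f φ α β γ) :
    (SymSet φ (β + γ) (γ + α) (α + β)).Infinite := by
  obtain ⟨u, v, w, hs, h, hS⟩ := h
  intro hfin
  have hfin' : (SymSet φ (β + γ) (γ + α) (α + β) \ {0}).Finite := hfin.subset Set.sdiff_subset
  obtain ⟨T0, hT0, hT00, -⟩ := exists_small_sym hf h2 h20 h0 u v w hs h hS one_pos
  obtain ⟨T, hT, hmin⟩ := Set.exists_min_image _ (fun T => f T) hfin' ⟨T0, hT0, hT00⟩
  have hTpos : 0 < f T := f.pos hT.2
  obtain ⟨T1, hT1, hT10, hlt⟩ := exists_small_sym hf h2 h20 h0 u v w hs h hS hTpos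
  exact absurd (hmin T1 ⟨hT1, hT10⟩) (not_le.mpr hlt)

theorem GoodS.of_big {α β γ : L} (h0 : Sym φ α β γ) (h : Big f α β γ) : GoodS f φ α β γ :=
  ⟨α, β, γ, sameCurve_refl _ _ _, h, h0⟩

theorem GoodS.of_dbl (h20 : (2 : L) ≠ 0) {α β γ : L} (h1 : α ≠ 0) (h2 : β ≠ 0) (h3 : γ ≠ 0)
    (h : GoodS f φ (dbl α β γ) (dbl β α γ) (dbl γ α β)) : GoodS f φ α β γ := by
  obtain ⟨u, v, w, hs, hb, hS⟩ := h
  have := sameCurve_dbl (sameCurve_refl α β γ) h20 h1 h2 h3
  exact ⟨u, v, w, this.trans hs, hb, hS⟩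

theorem GoodS.neg {α β γ : L} (h : GoodS f φ α β γ) : GoodS f φ α (-β) γ := by
  obtain ⟨u, v, w, hs, hb, hS⟩ := h
  exact ⟨u, v, w, ⟨by rw [hs.1]; ring, hs.2⟩, hb, hS⟩

theorem GoodS.smul {α β γ : L} (h : GoodS f φ α β γ) {k : L} (hk : k ≠ 0) (hφ : φ k = k) :
    GoodS f φ (k * α) (k * β) (k * γ) := by
  obtain ⟨u, v, w, hs, hb, hS⟩ := h
  refine ⟨k * u, k * v, k * w, ⟨?_, ?_⟩, ⟨?_, ?_⟩, ⟨?_, ?_, ?_⟩⟩
  · linear_combination k ^ 2 * hs.1
  · linear_combination k ^ 2 * hs.2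
  · have e : (k * u) ^ 2 - (k * v) ^ 2 = k ^ 2 * (u ^ 2 - v ^ 2) := by ring
    rw [e, map_mul, map_mul, mul_pow, map_pow]
    have : 0 < f k := f.pos hk
    exact mul_lt_mul_of_pos_left hb.1 (by positivity)
  · have e : (k * u) ^ 2 - (k * w) ^ 2 = k ^ 2 * (u ^ 2 - w ^ 2) := by ring
    rw [e, map_mul, map_mul, mul_pow, map_pow]
    have : 0 < f k := f.pos hk
    exact mul_lt_mul_of_pos_left hb.2 (by positivity)
  · rw [map_mul, hφ, hS.uw]
  · rw [map_mul, hφ, hS.wu]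
  · rw [map_mul, hφ, hS.vv]

/-- If the middle entry is strictly smallest, the doubled triple is large. -/
theorem big_dbl_of_mid (hf : IsNonarchimedean f) (h2 : f 2 < 1) (h20 : (2 : L) ≠ 0) {α β γ : L}
    (hβ : β ≠ 0) (h1 : f β < f α) (h3 : f α = f γ) :
    Big f (dbl α β γ) (dbl β α γ) (dbl γ α β) := by
  have pβ : 0 < f β := f.pos hβ
  have pα : 0 < f α := pβ.trans h1
  have pγ : 0 < f γ := h3 ▸ pα
  have hα : α ≠ 0 := f.pos_iff.mp pα
  have hγ : γ ≠ 0 := f.pos_iff.mp pγ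
  have h2p : 0 < f 2 := f.pos h20
  have hs := sameCurve_dbl (sameCurve_refl α β γ) h20 hα hβ hγ
  have hn : f (α ^ 2 * β ^ 2 + α ^ 2 * γ ^ 2 - β ^ 2 * γ ^ 2) = f α ^ 4 := by
    have e : α ^ 2 * β ^ 2 + α ^ 2 * γ ^ 2 - β ^ 2 * γ ^ 2
        = α ^ 2 * γ ^ 2 + β ^ 2 * (α ^ 2 - γ ^ 2) := by ring
    rw [e, na_add_eq hf]
    · rw [map_mul, abv_sq, abv_sq, ← h3]; ring
    · rw [map_mul, map_mul, abv_sq, abv_sq, abv_sq]
      have h4 : f (α ^ 2 - γ ^ 2) ≤ f γ ^ 2 := by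
        apply na_sub_le hf
        · rw [abv_sq, h3]
        · rw [abv_sq]
      calc f β ^ 2 * f (α ^ 2 - γ ^ 2) ≤ f β ^ 2 * f γ ^ 2 :=
            mul_le_mul_of_nonneg_left h4 (by positivity)
        _ < f α ^ 2 * f γ ^ 2 := by
            apply mul_lt_mul_of_pos_right _ (by positivity)
            exact pow_lt_pow_left₀ h1 pβ.le two_ne_zero
  have hd : f (dbl α β γ) = f α ^ 2 / (f 2 * f β) := by
    unfold dbl
    rw [map_div₀, hn, map_mul, map_mul, map_mul, ← h3]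
    field_simp
  have hbig : f α < f (dbl α β γ) := by
    rw [hd, lt_div_iff₀ (by positivity)]
    have : f 2 * f β < f α := by nlinarith
    nlinarith
  have hbig2 : f α ^ 2 < f (dbl α β γ) ^ 2 := pow_lt_pow_left₀ hbig pα.le two_ne_zero
  refine ⟨?_, ?_⟩
  · rw [hs.1]
    refine lt_of_le_of_lt (na_sub_le hf ?_ ?_) hbig2
    · rw [abv_sq]
    · rw [abv_sq]; exact pow_le_pow_left₀ pβ.le h1.le 2
  · rw [hs.2]
    refine lt_of_le_of_lt (na_sub_le hf ?_ ?_) hbig2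
    · rw [abv_sq]
    · rw [abv_sq, h3]

end Run7.h587
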