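import Pool.Agent.Run7.h587.Growth

set_option autoImplicit false

namespace Run7.h587

variable {K : Type*} [Field K] {f : AbsoluteValue K ℝ}

/-- some triple on the curve of `(α, β, γ)` is large -/
def Good (f : AbsoluteValue K ℝ) (α β γ : K) : Prop :=
  ∃ u v w : K, SameCurve α β γ u v w ∧ Big f u v w

theorem Big.of_eq (hf : IsNonarchimedean f) {u v w : K} (h : Big f u v w) : Big f v u w := by
  have e := h.eq_v hf
  refine ⟨?_, ?_⟩
  · rw [e, ← f.map_neg, neg_sub]; exact h.1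
  · have : v ^ 2 - w ^ 2 = (u ^ 2 - w ^ 2) - (u ^ 2 - v ^ 2) := by ring
    rw [this, e]
    exact na_sub_lt hf h.2 h.1

theorem Big.swap {u v w : K} (h : Big f u v w) : Big f u w v := ⟨h.2, h.1⟩

theorem Good.swap12 (hf : IsNonarchimedean f) {α β γ : K} (h : Good f α β γ) : Good f β α γ := by
  obtain ⟨u, v, w, hs, hb⟩ := h
  refine ⟨v, u, w, ⟨?_, ?_⟩, hb.of_eq hf⟩
  · linear_combination -hs.1
  · linear_combination hs.2 - hs.1

theorem Good.swap23 {α β γ : K} (h : Good f α β γ) : Good f α γ β := by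
  obtain ⟨u, v, w, hs, hb⟩ := h
  exact ⟨u, w, v, ⟨hs.2, hs.1⟩, hb.swap⟩

theorem Good.smul {α β γ : K} (h : Good f α β γ) {k : K} (hk : k ≠ 0) :
    Good f (k * α) (k * β) (k * γ) := by
  obtain ⟨u, v, w, hs, hb⟩ := h
  refine ⟨k * u, k * v, k * w, ⟨?_, ?_⟩, ?_, ?_⟩
  · linear_combination k ^ 2 * hs.1
  · linear_combination k ^ 2 * hs.2
  · have e : (k * u) ^ 2 - (k * v) ^ 2 = k ^ 2 * (u ^ 2 - v ^ 2) := by ring
    rw [e, map_mul, map_mul, mul_pow, map_pow]
    have : 0 < f k := f.pos hk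
    exact mul_lt_mul_of_pos_left hb.1 (by positivity)
  · have e : (k * u) ^ 2 - (k * w) ^ 2 = k ^ 2 * (u ^ 2 - w ^ 2) := by ring
    rw [e, map_mul, map_mul, mul_pow, map_pow]
    have : 0 < f k := f.pos hk
    exact mul_lt_mul_of_pos_left hb.2 (by positivity)

theorem Good.infinite (hf : IsNonarchimedean f) (h2 : f 2 < 1) (h20 : (2 : K) ≠ 0) {α β γ : K}
    (h : Good f α β γ) : (SqSet (β + γ) (γ + α) (α + β)).Infinite := by
  obtain ⟨u, v, w, hs, hb⟩ := h
  exact sqSet_infinite hf h2 h20 u v w hs hb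

/-- If one of the three is strictly smallest, the doubled triple is large. -/
theorem good_of_lt (hf : IsNonarchimedean f) (h2 : f 2 < 1) (h20 : (2 : K) ≠ 0) {α β γ : K}
    (hα : α ≠ 0) (h1 : f α < f β) (h3 : f β ≤ f γ) : Good f α β γ := by
  have pα : 0 < f α := f.pos hα
  have pβ : 0 < f β := pα.trans h1
  have pγ : 0 < f γ := pβ.trans_le h3
  have hβ : β ≠ 0 := f.pos_iff.mp pβ
  have hγ : γ ≠ 0 := f.pos_iff.mp pγ
  have h2p : 0 < f 2 := f.pos h20
  have hs := sameCurve_dbl (sameCurve_refl β α γ) h20 hβ hα hγ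
  have hn : f (β ^ 2 * α ^ 2 + β ^ 2 * γ ^ 2 - α ^ 2 * γ ^ 2) = f β ^ 2 * f γ ^ 2 := by
    have e : β ^ 2 * α ^ 2 + β ^ 2 * γ ^ 2 - α ^ 2 * γ ^ 2
        = β ^ 2 * γ ^ 2 + α ^ 2 * (β ^ 2 - γ ^ 2) := by ring
    rw [e, na_add_eq hf]
    · rw [map_mul, abv_sq, abv_sq]
    · rw [map_mul, map_mul, abv_sq, abv_sq, abv_sq]
      have h4 : f (β ^ 2 - γ ^ 2) ≤ f γ ^ 2 := by
        apply na_sub_le hf
        · rw [abv_sq]; exact pow_le_pow_left₀ pβ.le h3 2
        · rw [abv_sq]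
      calc f α ^ 2 * f (β ^ 2 - γ ^ 2) ≤ f α ^ 2 * f γ ^ 2 :=
            mul_le_mul_of_nonneg_left h4 (by positivity)
        _ < f β ^ 2 * f γ ^ 2 := by
            apply mul_lt_mul_of_pos_right _ (by positivity)
            exact pow_lt_pow_left₀ h1 pα.le two_ne_zero
  have hd : f (dbl β α γ) = f β * f γ / (f 2 * f α) := by
    unfold dbl
    rw [map_div₀, hn, map_mul, map_mul, map_mul]
    field_simp
  have hbig : f γ < f (dbl β α γ) := by
    rw [hd, lt_div_iff₀ (by positivity)]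
    have : f 2 * f α < f β := by nlinarith
    nlinarith
  have hbig2 : f γ ^ 2 < f (dbl β α γ) ^ 2 := pow_lt_pow_left₀ hbig pγ.le two_ne_zero
  have hres : Good f β α γ := by
    refine ⟨_, _, _, hs, ?_, ?_⟩
    · rw [hs.1]
      refine lt_of_le_of_lt (na_sub_le hf ?_ ?_) hbig2
      · rw [abv_sq]; exact pow_le_pow_left₀ pβ.le h3 2
      · rw [abv_sq]; exact pow_le_pow_left₀ pα.le (h1.le.trans h3) 2
    · rw [hs.2]
      refine lt_of_le_of_lt (na_sub_le hf ?_ ?_) hbig2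
      · rw [abv_sq]; exact pow_le_pow_left₀ pβ.le h3 2
      · rw [abv_sq]
  exact hres.swap12 hf

/-- all three of the same size -/
theorem good_of_eq (hf : IsNonarchimedean f) (h2 : f 2 < 1) (h20 : (2 : K) ≠ 0) {α β γ : K}
    (hα : α ≠ 0) (h1 : f α = f β) (h3 : f β = f γ)
    (hn : f 2 * f α ^ 4 < f (α ^ 2 * β ^ 2 + α ^ 2 * γ ^ 2 - β ^ 2 * γ ^ 2)) : Good f α β γ := by
  have pα : 0 < f α := f.pos hα
  have hβ : β ≠ 0 := f.pos_iff.mp (h1 ▸ pα)
  have hγ : γ ≠ 0 := f.pos_iff.mp (h3 ▸ h1 ▸ pα)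
  have h2p : 0 < f 2 := f.pos h20
  have hs := sameCurve_dbl (sameCurve_refl α β γ) h20 hα hβ hγ
  have hd : f α < f (dbl α β γ) := by
    unfold dbl
    rw [map_div₀, map_mul, map_mul, map_mul, ← h3, ← h1, lt_div_iff₀ (by positivity)]
    calc f α * (f 2 * f α * f α * f α) = f 2 * f α ^ 4 := by ring
      _ < _ := hn
  have hd2 : f α ^ 2 < f (dbl α β γ) ^ 2 := pow_lt_pow_left₀ hd pα.le two_ne_zero
  refine ⟨_, _, _, hs, ?_, ?_⟩
  · rw [hs.1]
    refine lt_of_le_of_lt (na_sub_le hf ?_ ?_) hd2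
    · rw [abv_sq]
    · rw [abv_sq, h1]
  · rw [hs.2]
    refine lt_of_le_of_lt (na_sub_le hf ?_ ?_) hd2
    · rw [abv_sq]
    · rw [abv_sq, h1, h3]

/-- The only configuration not covered. -/
def Trouble (f : AbsoluteValue K ℝ) (α β γ : K) : Prop :=
  f α = f β ∧ f β = f γ ∧ f (α + β + γ) < f α ∧ f (α * β + β * γ + γ * α) < f α ^ 2

theorem good_or_trouble_eq (hf : IsNonarchimedean f) (h2 : f 2 < 1) (h20 : (2 : K) ≠ 0)
    {α β γ : K} (hα : α ≠ 0) (h1 : f α = f β) (h3 : f β = f γ) :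
    Good f α β γ ∨ Good f α⁻¹ β⁻¹ γ⁻¹ ∨ Trouble f α β γ := by
  have pα : 0 < f α := f.pos hα
  have hβ : β ≠ 0 := f.pos_iff.mp (h1 ▸ pα)
  have hγ : γ ≠ 0 := f.pos_iff.mp (h3 ▸ h1 ▸ pα)
  have h2p : 0 < f 2 := f.pos h20
  by_cases hn : f 2 * f α ^ 4 < f (α ^ 2 * β ^ 2 + α ^ 2 * γ ^ 2 - β ^ 2 * γ ^ 2)
  · exact Or.inl (good_of_eq hf h2 h20 hα h1 h3 hn)
  · by_cases hm : f 2 * f α ^ 2 < f (β ^ 2 + γ ^ 2 - α ^ 2)
    · right; left
      apply good_of_eq hf h2 h20 (inv_ne_zero hα)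
      · rw [map_inv₀, map_inv₀, h1]
      · rw [map_inv₀, map_inv₀, h3]
      · have e : α⁻¹ ^ 2 * β⁻¹ ^ 2 + α⁻¹ ^ 2 * γ⁻¹ ^ 2 - β⁻¹ ^ 2 * γ⁻¹ ^ 2
            = (β ^ 2 + γ ^ 2 - α ^ 2) / (α ^ 2 * β ^ 2 * γ ^ 2) := by
          field_simp
          ring
        rw [e, map_div₀, map_mul, map_mul, abv_sq, abv_sq, abv_sq, ← h3, ← h1, map_inv₀,
          lt_div_iff₀ (by positivity)]
        calc f 2 * (f α)⁻¹ ^ 4 * (f α ^ 2 * f α ^ 2 * f α ^ 2) = f 2 * f α ^ 2 := by
              field_simp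
          _ < _ := hm
    · right; right
      push Not at hn hm
      have h2lt : f 2 * f α ^ 2 < f α ^ 2 := by
        have : 0 < f α ^ 2 := by positivity
        nlinarith
      have h2lt4 : f 2 * f α ^ 4 < f α ^ 4 := by
        have : 0 < f α ^ 4 := by positivity
        nlinarith
      have he2le : f (α * β + β * γ + γ * α) ≤ f α ^ 2 := by
        apply na_add_le hf
        · apply na_add_le hf
          · rw [map_mul, ← h1]; exact le_of_eq (by ring)
          · rw [map_mul, ← h3, ← h1]; exact le_of_eq (by ring)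
        · rw [map_mul, ← h3, ← h1]; exact le_of_eq (by ring)
      have he1le : f (α + β + γ) ≤ f α := by
        apply na_add_le hf
        · apply na_add_le hf le_rfl; rw [← h1]
        · rw [← h3, ← h1]
      have he1 : f (α + β + γ) < f α := by
        have e : (α + β + γ) ^ 2
            = (β ^ 2 + γ ^ 2 - α ^ 2) + 2 * (α ^ 2 + (α * β + β * γ + γ * α)) := by ring
        have : f ((α + β + γ) ^ 2) ≤ f 2 * f α ^ 2 := by
          rw [e]
          apply na_add_le hf hm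
          rw [map_mul]
          apply mul_le_mul_of_nonneg_left _ h2p.le
          exact na_add_le hf (by rw [abv_sq]) he2le
        rw [abv_sq] at this
        exact lt_of_pow_lt_pow_left₀ 2 pα.le (lt_of_le_of_lt this h2lt)
      have he2 : f (α * β + β * γ + γ * α) < f α ^ 2 := by
        have e : (α * β + β * γ + γ * α) ^ 2
            = (α ^ 2 * β ^ 2 + α ^ 2 * γ ^ 2 - β ^ 2 * γ ^ 2)
              + 2 * (β ^ 2 * γ ^ 2 + α * β * γ * (α + β + γ)) := by ring
        have : f ((α * β + β * γ + γ * α) ^ 2) ≤ f 2 * f α ^ 4 := by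
          rw [e]
          apply na_add_le hf hn
          rw [map_mul]
          apply mul_le_mul_of_nonneg_left _ h2p.le
          apply na_add_le hf
          · rw [map_mul, abv_sq, abv_sq, ← h3, ← h1]; exact le_of_eq (by ring)
          · rw [map_mul, map_mul, map_mul, ← h3, ← h1]
            calc f α * f α * f α * f (α + β + γ) ≤ f α * f α * f α * f α :=
                  mul_le_mul_of_nonneg_left he1le (by positivity)
              _ = f α ^ 4 := by ring
        rw [abv_sq] at this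
        have h5 : f (α * β + β * γ + γ * α) ^ 2 < (f α ^ 2) ^ 2 := by
          calc _ ≤ _ := this
            _ < f α ^ 4 := h2lt4
            _ = (f α ^ 2) ^ 2 := by ring
        exact lt_of_pow_lt_pow_left₀ 2 (by positivity) h5
      exact ⟨h1, h3, he1, he2⟩

theorem Trouble.swap12 {α β γ : K} (h : Trouble f α β γ) : Trouble f β α γ := by
  obtain ⟨h1, h3, h4, h5⟩ := h
  refine ⟨h1.symm, h1.trans h3, ?_, ?_⟩
  · rw [← h1]; convert h4 using 2; ring
  · rw [← h1]; convert h5 using 2; ring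

theorem Trouble.swap23 {α β γ : K} (h : Trouble f α β γ) : Trouble f α γ β := by
  obtain ⟨h1, h3, h4, h5⟩ := h
  refine ⟨h1.trans h3, h3.symm, ?_, ?_⟩
  · convert h4 using 2; ring
  · convert h5 using 2; ring

/-- sorted version -/
theorem good_or_trouble_sorted (hf : IsNonarchimedean f) (h2 : f 2 < 1) (h20 : (2 : K) ≠ 0)
    {α β γ : K} (hα : α ≠ 0) (h1 : f α ≤ f β) (h3 : f β ≤ f γ) :
    Good f α β γ ∨ Good f α⁻¹ β⁻¹ γ⁻¹ ∨ Trouble f α β γ := by
  have pα : 0 < f α := f.pos hα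
  have pβ : 0 < f β := pα.trans_le h1
  have pγ : 0 < f γ := pβ.trans_le h3
  have hβ : β ≠ 0 := f.pos_iff.mp pβ
  have hγ : γ ≠ 0 := f.pos_iff.mp pγ
  rcases h1.lt_or_eq with h1' | h1'
  · exact Or.inl (good_of_lt hf h2 h20 hα h1' h3)
  · rcases h3.lt_or_eq with h3' | h3'
    · right; left
      have : Good f γ⁻¹ β⁻¹ α⁻¹ := by
        apply good_of_lt hf h2 h20 (inv_ne_zero hγ)
        · rw [map_inv₀, map_inv₀]
          exact (inv_lt_inv₀ pγ pβ).mpr h3'
        · rw [map_inv₀, map_inv₀, h1']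
      exact ((this.swap12 hf).swap23).swap12 hf
    · exact good_or_trouble_eq hf h2 h20 hα h1' h3'

theorem good_or_trouble (hf : IsNonarchimedean f) (h2 : f 2 < 1) (h20 : (2 : K) ≠ 0)
    {α β γ : K} (hα : α ≠ 0) (hβ : β ≠ 0) (hγ : γ ≠ 0) :
    Good f α β γ ∨ Good f α⁻¹ β⁻¹ γ⁻¹ ∨ Trouble f α β γ := by
  -- a three element sort
  have S12 : ∀ {a b c : K}, (Good f b a c ∨ Good f b⁻¹ a⁻¹ c⁻¹ ∨ Trouble f b a c) →
      (Good f a b c ∨ Good f a⁻¹ b⁻¹ c⁻¹ ∨ Trouble f a b c) := by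
    intro a b c h
    rcases h with h | h | h
    · exact Or.inl (h.swap12 hf)
    · exact Or.inr (Or.inl (h.swap12 hf))
    · exact Or.inr (Or.inr h.swap12)
  have S23 : ∀ {a b c : K}, (Good f a c b ∨ Good f a⁻¹ c⁻¹ b⁻¹ ∨ Trouble f a c b) →
      (Good f a b c ∨ Good f a⁻¹ b⁻¹ c⁻¹ ∨ Trouble f a b c) := by
    intro a b c h
    rcases h with h | h | h
    · exact Or.inl h.swap23
    · exact Or.inr (Or.inl h.swap23)
    · exact Or.inr (Or.inr h.swap23)
  have key := @good_or_trouble_sorted K _ f hf h2 h20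
  rcases le_total (f α) (f β) with h1 | h1 <;> rcases le_total (f β) (f γ) with h3 | h3 <;>
    rcases le_total (f α) (f γ) with h4 | h4
  · exact key hα h1 h3
  · exact key hα h1 h3
  · exact S23 (key hα h4 h3)
  · exact S23 (S12 (key hγ h4 h1))
  · exact S12 (key hβ h1 h4)
  · exact S12 (S23 (key hβ h3 h4))
  · exact S12 (S23 (S12 (key hγ h3 h1)))
  · exact S12 (S23 (S12 (key hγ h3 h1)))

/-- In the exceptional configuration the residue field contains a primitive cube root of unity. -/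
theorem Trouble.cube {α β γ : K} (hf : IsNonarchimedean f) (h : Trouble f α β γ) :
    f (α ^ 2 + α * β + β ^ 2) < f α ^ 2 := by
  obtain ⟨h1, h3, h4, h5⟩ := h
  have e : α ^ 2 + α * β + β ^ 2 = (α + β) * (α + β + γ) - (α * β + β * γ + γ * α) := by ring
  rw [e]
  apply na_sub_lt hf _ h5
  have pα : 0 < f α := lt_of_le_of_lt (f.nonneg _) h4
  have : f (α + β) ≤ f α := na_add_le hf le_rfl h1.ge
  rw [map_mul]
  calc f (α + β) * f (α + β + γ) ≤ f α * f (α + β + γ) :=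
        mul_le_mul_of_nonneg_right this (f.nonneg _)
    _ < f α * f α := mul_lt_mul_of_pos_left h4 pα
    _ = f α ^ 2 := by ring

end Run7.h587
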